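import Pool.Agent.K6.H33.NM.Polar

set_option autoImplicit false

/-! # Integration by parts over the ball in `ℂ ^ V` -/

namespace Pool.Agent.K6.H33.NM

open MeasureTheory Set Filter Topology MvPolynomial

variable {V : Type} [Fintype V]

/-- The point `(x, conj x)`. -/
noncomputable def dbl (x : V → ℂ) : V ⊕ V → ℂ := Sum.elim x (fun i => (starRingEnd ℂ) (x i))

/-- A polynomial in `x` and `conj x`, as a function. -/
noncomputable def ev2 (W : MvPolynomial (V ⊕ V) ℂ) (x : V → ℂ) : ℂ := eval (dbl x) W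

/-- `max (0, 1 - |x| ^ 2)`. -/
noncomputable def rp (x : V → ℂ) : ℝ := max 0 (1 - Nr x)

theorem rp_cont : Continuous (rp : (V → ℂ) → ℝ) := by
  unfold rp
  exact continuous_const.max (continuous_const.sub Nr_cont)

theorem rp_nonneg (x : V → ℂ) : 0 ≤ rp x := le_max_left _ _

theorem rp_le_one (x : V → ℂ) : rp x ≤ 1 := max_le zero_le_one (by linarith [Nr_nonneg x])

theorem ev2_cont (W : MvPolynomial (V ⊕ V) ℂ) : Continuous (ev2 W) := by
  unfold ev2
  have h1 : Continuous (dbl : (V → ℂ) → V ⊕ V → ℂ) := by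
    rw [continuous_pi_iff]
    rintro (i | i)
    · exact continuous_apply i
    · exact Complex.continuous_conj.comp (continuous_apply i)
  exact (MvPolynomial.continuous_eval W).comp h1

theorem int_ev (F : (V → ℂ) → ℂ) (hF : Continuous F) (h : ∀ x, rp x = 0 → F x = 0) :
    Integrable F := by
  refine hF.integrable_of_hasCompactSupport ?_
  refine HasCompactSupport.intro (K := {x | Nr x ≤ 1}) ?_ ?_
  · apply Metric.isCompact_of_isClosed_isBounded (isClosed_le Nr_cont continuous_const)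
    exact (Nr_bdd 2).subset fun x hx => by
      have : Nr x ≤ 1 := hx
      show Nr x < 2
      linarith
  · intro x hx
    have h1 : 1 < Nr x := not_le.1 hx
    exact h x (max_eq_left (by linarith))

/-- `∫ W ρ ^ k`. -/
noncomputable def Ik (k : ℕ) (W : MvPolynomial (V ⊕ V) ℂ) : ℂ :=
  ∫ x : V → ℂ, ev2 W x * ((rp x ^ k : ℝ) : ℂ)

theorem ev_rp_cont (W : MvPolynomial (V ⊕ V) ℂ) (k : ℕ) :
    Continuous fun x => ev2 W x * ((rp x ^ k : ℝ) : ℂ) :=
  (ev2_cont W).mul (Complex.continuous_ofReal.comp (rp_cont.pow k))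

theorem ev_rp_int (W : MvPolynomial (V ⊕ V) ℂ) (k : ℕ) (hk : 0 < k) :
    Integrable fun x => ev2 W x * ((rp x ^ k : ℝ) : ℂ) :=
  int_ev _ (ev_rp_cont W k) fun x hx => by simp [hx, hk.ne']

theorem Ik_add (k : ℕ) (hk : 0 < k) (W W' : MvPolynomial (V ⊕ V) ℂ) :
    Ik k (W + W') = Ik k W + Ik k W' := by
  unfold Ik
  rw [← integral_add (ev_rp_int W k hk) (ev_rp_int W' k hk)]
  refine integral_congr_ae (Eventually.of_forall fun x => ?_)
  simp only [ev2, map_add]
  ring

theorem Ik_C (k : ℕ) (c : ℂ) (W : MvPolynomial (V ⊕ V) ℂ) : Ik k (C c * W) = c * Ik k W := by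
  unfold Ik
  rw [← integral_const_mul]
  refine integral_congr_ae (Eventually.of_forall fun x => ?_)
  simp only [ev2, map_mul, eval_C]
  ring

theorem Ik_sum (k : ℕ) (hk : 0 < k) {ι : Type} (J : Finset ι) (W : ι → MvPolynomial (V ⊕ V) ℂ) :
    Ik k (∑ i ∈ J, W i) = ∑ i ∈ J, Ik k (W i) := by
  classical
  induction J using Finset.induction_on with
  | empty =>
    simp only [Finset.sum_empty]
    unfold Ik
    simp [ev2]
  | insert a s ha ih => rw [Finset.sum_insert ha, Finset.sum_insert ha, Ik_add k hk, ih]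

/-- `ρ` as a polynomial. -/
noncomputable def rho (V : Type) [Fintype V] : MvPolynomial (V ⊕ V) ℂ :=
  1 - ∑ i, X (Sum.inl i) * X (Sum.inr i)

theorem ev2_rho (x : V → ℂ) : ev2 (rho V) x = ((1 - Nr x : ℝ) : ℂ) := by
  unfold ev2 rho Nr
  simp only [map_sub, map_one, map_sum, map_mul, eval_X, dbl, Sum.elim_inl, Sum.elim_inr,
    Complex.mul_conj]
  push_cast
  congr 1
  refine Finset.sum_congr rfl fun i _ => ?_
  rw [Complex.normSq_eq_norm_sq]
  push_cast
  ring

theorem Ik_rho (k : ℕ) (hk : 0 < k) (W : MvPolynomial (V ⊕ V) ℂ) :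
    Ik k (rho V * W) = Ik (k + 1) W := by
  unfold Ik
  refine integral_congr_ae (Eventually.of_forall fun x => ?_)
  have h1 : ev2 (rho V * W) x = ((1 - Nr x : ℝ) : ℂ) * ev2 W x := by
    rw [← ev2_rho]; simp [ev2]
  simp only [h1]
  have h2 : (1 - Nr x) * rp x ^ k = rp x ^ (k + 1) := by
    rcases le_or_gt 0 (1 - Nr x) with h | h
    · rw [rp, max_eq_right h, pow_succ]; ring
    · rw [rp, max_eq_left h.le, zero_pow hk.ne', zero_pow (by omega), mul_zero]
  rw [← h2]
  push_cast
  ring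

theorem Ik_rho_pow (k : ℕ) (hk : 0 < k) (e : ℕ) (W : MvPolynomial (V ⊕ V) ℂ) :
    Ik k (rho V ^ e * W) = Ik (k + e) W := by
  induction e generalizing W with
  | zero => simp
  | succ e ih => rw [pow_succ, mul_assoc, ih, Ik_rho _ (by omega), add_assoc]

/-- The chain rule. -/
theorem curve {σ : Type} [Fintype σ] (y : ℝ → σ → ℂ) (y' : σ → ℂ) (t : ℝ)
    (hy : ∀ j, HasDerivAt (fun t => y t j) (y' j) t) (W : MvPolynomial σ ℂ) :
    HasDerivAt (fun t => eval (y t) W) (∑ j, eval (y t) (pderiv j W) * y' j) t := by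
  classical
  induction W using MvPolynomial.induction_on with
  | C a =>
    simpa using hasDerivAt_const t a
  | add p q hp hq =>
    have := hp.fun_add hq
    simpa [add_mul, Finset.sum_add_distrib] using this
  | mul_X p n ih =>
    have h1 := ih.fun_mul (hy n)
    have h2 : (∑ j, eval (y t) (pderiv j (p * X n)) * y' j) =
        (∑ j, eval (y t) (pderiv j p) * y' j) * y t n + eval (y t) p * y' n := by
      rw [Finset.sum_mul]
      have h3 : ∀ j, eval (y t) (pderiv j (p * X n)) * y' j =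
          eval (y t) (pderiv j p) * y' j * y t n + (if j = n then eval (y t) p * y' n else 0) := by
        intro j
        rw [Derivation.leibniz, pderiv_X]
        by_cases h : j = n
        · subst h
          simp only [Pi.single_eq_same, smul_eq_mul, mul_one, map_add, map_mul, eval_X, if_true]
          ring
        · rw [Pi.single_eq_of_ne (Ne.symm h)]
          simp only [smul_eq_mul, mul_zero, zero_add, map_mul, eval_X, if_neg h, add_zero]
          ring
      simp only [h3, Finset.sum_add_distrib, Finset.sum_ite_eq', Finset.mem_univ, if_true]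
    rw [h2]
    simpa using h1

theorem ev2_line [DecidableEq V] (W : MvPolynomial (V ⊕ V) ℂ) (x : V → ℂ) (i : V) (c : ℂ) :
    HasLineDerivAt ℝ (ev2 W) (ev2 (pderiv (Sum.inl i) W) x * c +
      ev2 (pderiv (Sum.inr i) W) x * (starRingEnd ℂ) c) x (Pi.single i c) := by
  unfold HasLineDerivAt
  have h1 := curve (fun t : ℝ => dbl (x + t • (Pi.single i c : V → ℂ)))
    (dbl (Pi.single i c)) 0 ?_ W
  · have h2 : (∑ j, eval (dbl (x + (0 : ℝ) • (Pi.single i c : V → ℂ))) (pderiv j W) *
        dbl (Pi.single i c) j) = ev2 (pderiv (Sum.inl i) W) x * c +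
        ev2 (pderiv (Sum.inr i) W) x * (starRingEnd ℂ) c := by
      rw [zero_smul, add_zero, Fintype.sum_sum_type]
      congr 1
      · rw [Finset.sum_eq_single i]
        · simp [dbl, ev2]
        · intro j _ hj
          simp [dbl, Pi.single_eq_of_ne hj]
        · intro h; exact absurd (Finset.mem_univ i) h
      · rw [Finset.sum_eq_single i]
        · simp [dbl, ev2]
        · intro j _ hj
          simp [dbl, Pi.single_eq_of_ne hj]
        · intro h; exact absurd (Finset.mem_univ i) h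
    rw [h2] at h1
    exact h1
  · have h3 : ∀ j, HasDerivAt (fun t : ℝ => (x + t • (Pi.single i c : V → ℂ)) j)
        ((Pi.single i c : V → ℂ) j) 0 := by
      intro j
      have h4 : HasDerivAt (fun t : ℝ => x j + (t : ℂ) * (Pi.single i c : V → ℂ) j)
          ((Pi.single i c : V → ℂ) j) 0 := by
        have h5 := ((Complex.ofRealCLM.hasDerivAt (x := (0 : ℝ))).mul_const
          ((Pi.single i c : V → ℂ) j)).const_add (x j)
        simpa using h5
      simpa using h4
    rintro (j | j)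
    · exact h3 j
    · have h4 := Complex.conjCLE.toContinuousLinearMap.hasFDerivAt.comp_hasDerivAt (0 : ℝ) (h3 j)
      exact h4

theorem maxpow_deriv (k : ℕ) (r : ℝ) :
    HasDerivAt (fun r : ℝ => (max 0 r) ^ (k + 2)) ((k + 2 : ℝ) * (max 0 r) ^ (k + 1)) r := by
  rcases lt_trichotomy r 0 with h | h | h
  · have h1 : (fun r : ℝ => (max 0 r) ^ (k + 2)) =ᶠ[𝓝 r] fun _ => 0 := by
      filter_upwards [Iio_mem_nhds h] with y hy
      have : y < 0 := hy
      rw [max_eq_left this.le]; simp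
    rw [max_eq_left h.le]
    simp only [ne_eq, Nat.add_eq_zero_iff, one_ne_zero, and_false, not_false_eq_true, zero_pow,
      mul_zero]
    exact (hasDerivAt_const r (0 : ℝ)).congr_of_eventuallyEq h1
  · subst h
    rw [max_self]
    simp only [ne_eq, Nat.add_eq_zero_iff, one_ne_zero, and_false, not_false_eq_true, zero_pow,
      mul_zero]
    rw [hasDerivAt_iff_isLittleO_nhds_zero]
    simp only [zero_add, max_self, ne_eq, Nat.add_eq_zero_iff, OfNat.ofNat_ne_zero, and_false,
      not_false_eq_true, zero_pow, sub_zero, smul_zero]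
    have h1 : (fun h : ℝ => (max 0 h) ^ (k + 2)) =O[𝓝 0] fun h : ℝ => h ^ 2 := by
      apply Asymptotics.IsBigO.of_bound 1
      filter_upwards [Metric.ball_mem_nhds (0 : ℝ) one_pos] with h hh
      rw [Metric.mem_ball, dist_zero_right, Real.norm_eq_abs] at hh
      rw [one_mul, Real.norm_eq_abs, Real.norm_eq_abs, abs_pow, abs_pow]
      have h2 : |max 0 h| ≤ |h| := by
        rw [abs_of_nonneg (le_max_left _ _)]
        exact max_le (abs_nonneg _) (le_abs_self _)
      calc |max 0 h| ^ (k + 2) ≤ |h| ^ (k + 2) := pow_le_pow_left₀ (abs_nonneg _) h2 _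
        _ ≤ |h| ^ 2 := pow_le_pow_of_le_one (abs_nonneg _) hh.le (by omega)
    refine h1.trans_isLittleO ?_
    exact Asymptotics.isLittleO_pow_id (by norm_num)
  · have h1 : (fun r : ℝ => (max 0 r) ^ (k + 2)) =ᶠ[𝓝 r] fun r => r ^ (k + 2) := by
      filter_upwards [Ioi_mem_nhds h] with y hy
      have : 0 < y := hy
      rw [max_eq_right this.le]
    rw [max_eq_right h.le]
    have h2 := hasDerivAt_pow (k + 2) r
    have h3 : (k + 2 : ℝ) * r ^ (k + 1) = ((k + 2 : ℕ) : ℝ) * r ^ (k + 2 - 1) := by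
      push_cast
      rfl
    rw [h3]
    exact h2.congr_of_eventuallyEq h1

theorem Nr_line [DecidableEq V] (x : V → ℂ) (i : V) (c : ℂ) :
    HasLineDerivAt ℝ Nr (2 * ((x i).re * c.re + (x i).im * c.im)) x (Pi.single i c) := by
  unfold HasLineDerivAt
  have h1 : ∀ t : ℝ, Nr (x + t • (Pi.single i c : V → ℂ)) =
      Nr x + (t * (2 * ((x i).re * c.re + (x i).im * c.im)) + t ^ 2 * (c.re ^ 2 + c.im ^ 2)) := by
    intro t
    unfold Nr
    rw [← Finset.add_sum_erase _ _ (Finset.mem_univ i), ← Finset.add_sum_erase Finset.univ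
      (fun i => ‖x i‖ ^ 2) (Finset.mem_univ i)]
    have h2 : ∑ j ∈ Finset.univ.erase i, ‖(x + t • (Pi.single i c : V → ℂ)) j‖ ^ 2 =
        ∑ j ∈ Finset.univ.erase i, ‖x j‖ ^ 2 := by
      refine Finset.sum_congr rfl fun j hj => ?_
      have hj' : j ≠ i := Finset.ne_of_mem_erase hj
      simp [Pi.single_eq_of_ne hj']
    rw [h2]
    simp only [Pi.add_apply, Pi.smul_apply, Pi.single_eq_same, Complex.sq_norm,
      Complex.normSq_apply, Complex.add_re, Complex.add_im, Complex.smul_re, Complex.smul_im,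
      smul_eq_mul]
    ring
  have h3 : HasDerivAt (fun t : ℝ => Nr x + (t * (2 * ((x i).re * c.re + (x i).im * c.im)) +
      t ^ 2 * (c.re ^ 2 + c.im ^ 2))) (2 * ((x i).re * c.re + (x i).im * c.im)) 0 := by
    have h4 := ((((hasDerivAt_id (0 : ℝ)).mul_const (2 * ((x i).re * c.re + (x i).im * c.im))).add
      ((hasDerivAt_pow 2 (0 : ℝ)).mul_const (c.re ^ 2 + c.im ^ 2)))).const_add (Nr x)
    simpa using h4
  refine h3.congr_of_eventuallyEq (Eventually.of_forall fun t => h1 t)

theorem rp_line [DecidableEq V] (x : V → ℂ) (i : V) (c : ℂ) (k : ℕ) :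
    HasLineDerivAt ℝ (fun x : V → ℂ => ((rp x ^ (k + 2) : ℝ) : ℂ))
      (((-((k + 2 : ℝ) * rp x ^ (k + 1) * (2 * ((x i).re * c.re + (x i).im * c.im))) : ℝ)) : ℂ)
      x (Pi.single i c) := by
  have h1 := Nr_line x i c
  unfold HasLineDerivAt at h1 ⊢
  have h2 : HasDerivAt (fun t : ℝ => 1 - Nr (x + t • (Pi.single i c : V → ℂ)))
      (-(2 * ((x i).re * c.re + (x i).im * c.im))) 0 := by
    simpa using h1.const_sub 1
  have h3 := (maxpow_deriv k (1 - Nr (x + (0 : ℝ) • (Pi.single i c : V → ℂ))))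
  have h4 := h3.comp (0 : ℝ) h2
  have h5 := h4.ofReal_comp
  have h6 : (k + 2 : ℝ) * max 0 (1 - Nr (x + (0 : ℝ) • (Pi.single i c : V → ℂ))) ^ (k + 1) *
      -(2 * ((x i).re * c.re + (x i).im * c.im)) =
      -((k + 2 : ℝ) * rp x ^ (k + 1) * (2 * ((x i).re * c.re + (x i).im * c.im))) := by
    rw [zero_smul, add_zero]
    unfold rp
    ring
  rw [h6] at h5
  exact h5

theorem ibp_dir [DecidableEq V] (W : MvPolynomial (V ⊕ V) ℂ) (i : V) (c : ℂ) (k : ℕ) :
    ∫ x : V → ℂ, ev2 W x *
      (((-((k + 2 : ℝ) * rp x ^ (k + 1) * (2 * ((x i).re * c.re + (x i).im * c.im))) : ℝ)) : ℂ) =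
    - ∫ x : V → ℂ, (ev2 (pderiv (Sum.inl i) W) x * c +
      ev2 (pderiv (Sum.inr i) W) x * (starRingEnd ℂ) c) * ((rp x ^ (k + 2) : ℝ) : ℂ) := by
  have hc := rp_cont (V := V)
  have key := integral_bilinear_hasLineDerivAt_right_eq_neg_left_of_integrable
    (μ := (volume : Measure (V → ℂ))) (B := ContinuousLinearMap.mul ℝ ℂ)
    (f := ev2 W) (g := fun x : V → ℂ => ((rp x ^ (k + 2) : ℝ) : ℂ)) (v := Pi.single i c)
    (f' := fun x => ev2 (pderiv (Sum.inl i) W) x * c + ev2 (pderiv (Sum.inr i) W) x *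
      (starRingEnd ℂ) c)
    (g' := fun x => (((-((k + 2 : ℝ) * rp x ^ (k + 1) *
      (2 * ((x i).re * c.re + (x i).im * c.im))) : ℝ)) : ℂ)) ?_ ?_ ?_
      (fun x _ => ev2_line W x i c) (fun x _ => rp_line x i c k)
  · simpa only [ContinuousLinearMap.mul_apply'] using key
  · simp only [ContinuousLinearMap.mul_apply']
    refine int_ev _ ?_ fun x hx => by simp [hx]
    exact (((ev2_cont _).mul continuous_const).add ((ev2_cont _).mul continuous_const)).mul
      (Complex.continuous_ofReal.comp (hc.pow _))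
  · simp only [ContinuousLinearMap.mul_apply']
    refine int_ev _ ?_ fun x hx => by simp [hx]
    refine (ev2_cont _).mul (Complex.continuous_ofReal.comp ?_)
    have h1 : Continuous fun x : V → ℂ => (x i).re := Complex.continuous_re.comp (continuous_apply i)
    have h2 : Continuous fun x : V → ℂ => (x i).im := Complex.continuous_im.comp (continuous_apply i)
    fun_prop
  · simp only [ContinuousLinearMap.mul_apply']
    exact ev_rp_int W (k + 2) (by omega)

theorem ibp (W : MvPolynomial (V ⊕ V) ℂ) (i : V) (k : ℕ) :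
    Ik (k + 2) (pderiv (Sum.inl i) W) = ((k : ℂ) + 2) * Ik (k + 1) (X (Sum.inr i) * W) := by
  classical
  have h1 := ibp_dir W i 1 k
  have h2 := ibp_dir W i Complex.I k
  have e1 : ∫ x : V → ℂ, ev2 W x *
      (((-((k + 2 : ℝ) * rp x ^ (k + 1) * (2 * ((x i).re * (1 : ℂ).re + (x i).im * (1 : ℂ).im))) : ℝ)) : ℂ)
      = -((k : ℂ) + 2) * Ik (k + 1) ((X (Sum.inl i) + X (Sum.inr i)) * W) := by
    unfold Ik
    rw [← integral_const_mul]
    refine integral_congr_ae (Eventually.of_forall fun x => ?_)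
    have h3 : ev2 ((X (Sum.inl i) + X (Sum.inr i)) * W) x = ((2 * (x i).re : ℝ) : ℂ) * ev2 W x := by
      unfold ev2
      rw [map_mul, map_add, eval_X, eval_X]
      simp only [dbl, Sum.elim_inl, Sum.elim_inr]
      rw [Complex.add_conj]
    simp only [h3, Complex.one_re, Complex.one_im]
    push_cast
    ring
  have e2 : ∫ x : V → ℂ, ev2 W x *
      (((-((k + 2 : ℝ) * rp x ^ (k + 1) * (2 * ((x i).re * Complex.I.re + (x i).im * Complex.I.im))) : ℝ)) : ℂ)
      = -((k : ℂ) + 2) * Ik (k + 1) (C Complex.I * ((X (Sum.inr i) - X (Sum.inl i)) * W)) := by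
    unfold Ik
    rw [← integral_const_mul]
    refine integral_congr_ae (Eventually.of_forall fun x => ?_)
    have h3 : ev2 (C Complex.I * ((X (Sum.inr i) - X (Sum.inl i)) * W)) x =
        ((2 * (x i).im : ℝ) : ℂ) * ev2 W x := by
      unfold ev2
      rw [map_mul, map_mul, map_sub, eval_X, eval_X, eval_C]
      simp only [dbl, Sum.elim_inl, Sum.elim_inr]
      have h4 := Complex.sub_conj (x i)
      have h5 : (starRingEnd ℂ) (x i) - x i = - ((2 * (x i).im : ℝ) : ℂ) * Complex.I := by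
        rw [← neg_sub, h4]; ring
      rw [h5]
      linear_combination (-((2 * (x i).im : ℝ) : ℂ) * eval (Sum.elim x fun i => (starRingEnd ℂ) (x i)) W)
        * Complex.I_mul_I
    simp only [h3, Complex.I_re, Complex.I_im]
    push_cast
    ring
  have e3 : ∫ x : V → ℂ, (ev2 (pderiv (Sum.inl i) W) x * 1 +
      ev2 (pderiv (Sum.inr i) W) x * (starRingEnd ℂ) 1) * ((rp x ^ (k + 2) : ℝ) : ℂ) =
      Ik (k + 2) (pderiv (Sum.inl i) W) + Ik (k + 2) (pderiv (Sum.inr i) W) := by
    rw [← Ik_add _ (by omega)]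
    unfold Ik
    refine integral_congr_ae (Eventually.of_forall fun x => ?_)
    simp [ev2]
  have e4 : ∫ x : V → ℂ, (ev2 (pderiv (Sum.inl i) W) x * Complex.I +
      ev2 (pderiv (Sum.inr i) W) x * (starRingEnd ℂ) Complex.I) * ((rp x ^ (k + 2) : ℝ) : ℂ) =
      Complex.I * (Ik (k + 2) (pderiv (Sum.inl i) W) - Ik (k + 2) (pderiv (Sum.inr i) W)) := by
    have h6 : Ik (k + 2) (pderiv (Sum.inl i) W) - Ik (k + 2) (pderiv (Sum.inr i) W) =
        Ik (k + 2) (pderiv (Sum.inl i) W + C (-1) * pderiv (Sum.inr i) W) := by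
      rw [Ik_add _ (by omega), Ik_C]; ring
    rw [h6, ← Ik_C]
    unfold Ik
    refine integral_congr_ae (Eventually.of_forall fun x => ?_)
    simp only [ev2, map_mul, map_add, eval_C, Complex.conj_I]
    ring
  rw [e1, e3] at h1
  rw [e2, e4, Ik_C] at h2
  have e5 : Ik (k + 1) ((X (Sum.inl i) + X (Sum.inr i)) * W) =
      Ik (k + 1) (X (Sum.inl i) * W) + Ik (k + 1) (X (Sum.inr i) * W) := by
    rw [add_mul, Ik_add _ (by omega)]
  have e6 : Ik (k + 1) ((X (Sum.inr i) - X (Sum.inl i)) * W) =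
      Ik (k + 1) (X (Sum.inr i) * W) - Ik (k + 1) (X (Sum.inl i) * W) := by
    have : (X (Sum.inr i) - X (Sum.inl i)) * W = X (Sum.inr i) * W + C (-1) * (X (Sum.inl i) * W) := by
      rw [C_neg, C_1]; ring
    rw [this, Ik_add _ (by omega), Ik_C]; ring
  rw [e5] at h1
  rw [e6] at h2
  have hI : Complex.I * Complex.I = -1 := Complex.I_mul_I
  set a := Ik (k + 1) (X (Sum.inl i) * W)
  set b := Ik (k + 1) (X (Sum.inr i) * W)
  set p := Ik (k + 2) (pderiv (Sum.inl i) W)
  set q := Ik (k + 2) (pderiv (Sum.inr i) W)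
  -- h2 : -(k+2) * (I * (b - a)) = - (I * (p - q))
  have h7 : ((k : ℂ) + 2) * (b - a) = p - q := by
    have h8 : Complex.I * (((k : ℂ) + 2) * (b - a)) = Complex.I * (p - q) := by
      linear_combination -h2
    exact mul_left_cancel₀ Complex.I_ne_zero h8
  linear_combination (1 / 2 : ℂ) * h1 - (1 / 2 : ℂ) * h7

end Pool.Agent.K6.H33.NM
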