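import Pool.Agent.K6.H33.NM.Adj
import Pool.Agent.H628R4.TP.Defs

set_option autoImplicit false

/-! # Adjoints of the operators of the Weyl algebra -/

namespace Pool.Agent.K6.H33.NM

open MeasureTheory Set Filter Topology MvPolynomial
open Pool.Agent.H628R4.TP (weylS IsBFunction)

variable {V : Type}

/-- A polynomial in `x`. -/
noncomputable def io (F : MvPolynomial V ℂ) : MvPolynomial (V ⊕ V) ℂ := rename Sum.inl F

/-- The conjugate of a polynomial in `x`. -/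
noncomputable def ib (G : MvPolynomial V ℂ) : MvPolynomial (V ⊕ V) ℂ :=
  rename Sum.inr (map (starRingEnd ℂ) G)

/-- Complex conjugation. -/
noncomputable def sw (W : MvPolynomial (V ⊕ V) ℂ) : MvPolynomial (V ⊕ V) ℂ :=
  rename Sum.swap (map (starRingEnd ℂ) W)

theorem io_mul (F G : MvPolynomial V ℂ) : io (F * G) = io F * io G := by simp [io]
theorem io_pow (F : MvPolynomial V ℂ) (m : ℕ) : io (F ^ m) = io F ^ m := by simp [io]
theorem io_add (F G : MvPolynomial V ℂ) : io (F + G) = io F + io G := by simp [io]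
theorem io_C (c : ℂ) : io (C c : MvPolynomial V ℂ) = C c := by simp [io]
theorem io_X (i : V) : io (X i : MvPolynomial V ℂ) = X (Sum.inl i) := by simp [io]
theorem io_sum {ι : Type} (J : Finset ι) (F : ι → MvPolynomial V ℂ) :
    io (∑ j ∈ J, F j) = ∑ j ∈ J, io (F j) := by simp [io]
theorem ib_mul (F G : MvPolynomial V ℂ) : ib (F * G) = ib F * ib G := by simp [ib]
theorem ib_pow (F : MvPolynomial V ℂ) (m : ℕ) : ib (F ^ m) = ib F ^ m := by simp [ib]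
theorem ib_C (c : ℂ) : ib (C c : MvPolynomial V ℂ) = C ((starRingEnd ℂ) c) := by simp [ib]
theorem ib_sum {ι : Type} (J : Finset ι) (F : ι → MvPolynomial V ℂ) :
    ib (∑ j ∈ J, F j) = ∑ j ∈ J, ib (F j) := by simp [ib]
theorem sw_mul (F G : MvPolynomial (V ⊕ V) ℂ) : sw (F * G) = sw F * sw G := by simp [sw]

theorem sw_io (F : MvPolynomial V ℂ) : sw (io F) = ib F := by
  unfold sw io ib
  rw [map_rename, rename_rename]
  rfl

theorem sw_ib (F : MvPolynomial V ℂ) : sw (ib F) = io F := by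
  unfold sw io ib
  rw [map_rename, rename_rename, MvPolynomial.map_map]
  have h1 : (starRingEnd ℂ).comp (starRingEnd ℂ) = RingHom.id ℂ := by ext x; simp
  rw [h1, MvPolynomial.map_id]
  rfl

theorem pd_io (i : V) (F : MvPolynomial V ℂ) : pderiv (Sum.inl i) (io F) = io (pderiv i F) := by
  unfold io
  rw [pderiv_rename Sum.inl_injective]

theorem pd_ib (i : V) (F : MvPolynomial V ℂ) : pderiv (Sum.inl i) (ib F) = 0 := by
  classical
  apply pderiv_eq_zero_of_notMem_vars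
  unfold ib
  intro h
  have h1 := vars_rename Sum.inr _ h
  rw [Finset.mem_image] at h1
  obtain ⟨j, _, hj⟩ := h1
  simp at hj

variable [Fintype V]

theorem ev2_sw (W : MvPolynomial (V ⊕ V) ℂ) (x : V → ℂ) : ev2 (sw W) x = (starRingEnd ℂ) (ev2 W x) := by
  unfold ev2 sw
  rw [eval_rename, eval_map]
  have h1 : (starRingEnd ℂ) (eval (dbl x) W) = eval₂ (starRingEnd ℂ) (fun i => (starRingEnd ℂ) (dbl x i)) W := by
    show (starRingEnd ℂ) (eval₂ (RingHom.id ℂ) (dbl x) W) = _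
    rw [eval₂_comp_left (starRingEnd ℂ)]
    rfl
  rw [h1]
  congr 1
  funext i
  rcases i with i | i
  · rfl
  · simp [dbl]

theorem ev2_io (F : MvPolynomial V ℂ) (x : V → ℂ) : ev2 (io F) x = eval x F := by
  unfold ev2 io
  rw [eval_rename]
  rfl

theorem ev2_ib (F : MvPolynomial V ℂ) (x : V → ℂ) : ev2 (ib F) x = (starRingEnd ℂ) (eval x F) := by
  rw [← sw_io, ev2_sw, ev2_io]

theorem Ik_sw (k : ℕ) (W : MvPolynomial (V ⊕ V) ℂ) : Ik k (sw W) = (starRingEnd ℂ) (Ik k W) := by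
  unfold Ik
  rw [← integral_conj]
  refine integral_congr_ae (Eventually.of_forall fun x => ?_)
  simp only [ev2_sw, map_mul, Complex.conj_ofReal]

/-- The operator `Q` can be moved to the other side. -/
def Adm (Q : Module.End ℂ (MvPolynomial V ℂ)) : Prop :=
  ∃ r : ℕ, ∀ k, 0 < k → ∀ w : MvPolynomial (V ⊕ V) ℂ, ∃ w' : MvPolynomial (V ⊕ V) ℂ,
    ∀ F G : MvPolynomial V ℂ, Ik (k + r) (io (Q F) * ib G * w) = Ik k (io F * ib G * w')

theorem adm_weyl (Q : Module.End ℂ (MvPolynomial V ℂ)) (hQ : Q ∈ weylS V) : Adm Q := by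
  unfold weylS at hQ
  induction hQ using Algebra.adjoin_induction with
  | mem Q hQ =>
    rcases hQ with ⟨i, rfl⟩ | ⟨i, rfl⟩
    · refine ⟨0, fun k hk w => ⟨X (Sum.inl i) * w, fun F G => ?_⟩⟩
      simp only [LinearMap.mulLeft_apply, add_zero, io_mul, io_X]
      congr 1
      ring
    · refine ⟨1, fun k hk w => ?_⟩
      obtain ⟨k', rfl⟩ : ∃ k', k = k' + 1 := ⟨k - 1, by omega⟩
      refine ⟨C ((k' : ℂ) + 2) * (X (Sum.inr i) * w) - rho V * pderiv (Sum.inl i) w, fun F G => ?_⟩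
      have h1 := ibp (io F * ib G * w) i k'
      have h2 : pderiv (Sum.inl i) (io F * ib G * w) = io (pderiv i F) * ib G * w +
          io F * ib G * pderiv (Sum.inl i) w := by
        rw [Derivation.leibniz, Derivation.leibniz, pd_io, pd_ib]
        simp only [smul_eq_mul, mul_zero, zero_add]
        ring
      rw [h2, Ik_add _ (by omega)] at h1
      have h3 : io F * ib G * (C ((k' : ℂ) + 2) * (X (Sum.inr i) * w) - rho V * pderiv (Sum.inl i) w) =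
          C ((k' : ℂ) + 2) * (X (Sum.inr i) * (io F * ib G * w)) +
          C (-1) * (rho V * (io F * ib G * pderiv (Sum.inl i) w)) := by
        rw [C_neg, C_1]; ring
      rw [h3, Ik_add _ (by omega), Ik_C, Ik_C, Ik_rho _ (by omega), ← h1]
      show Ik (k' + 1 + 1) (io (pderiv i F) * ib G * w) = _
      ring
  | algebraMap c =>
    refine ⟨0, fun k hk w => ⟨C c * w, fun F G => ?_⟩⟩
    have h1 : (algebraMap ℂ (Module.End ℂ (MvPolynomial V ℂ)) c) F = C c * F := by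
      rw [Module.algebraMap_end_apply, smul_eq_C_mul]
    rw [h1, io_mul, io_C, add_zero]
    congr 1
    ring
  | add Q₁ Q₂ _ _ h₁ h₂ =>
    obtain ⟨r₁, h₁⟩ := h₁
    obtain ⟨r₂, h₂⟩ := h₂
    refine ⟨r₁ + r₂, fun k hk w => ?_⟩
    obtain ⟨w₁, hw₁⟩ := h₁ (k + r₂) (by omega) w
    obtain ⟨w₂, hw₂⟩ := h₂ (k + r₁) (by omega) w
    refine ⟨rho V ^ r₂ * w₁ + rho V ^ r₁ * w₂, fun F G => ?_⟩
    have e1 : io ((Q₁ + Q₂) F) * ib G * w = io (Q₁ F) * ib G * w + io (Q₂ F) * ib G * w := by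
      rw [LinearMap.add_apply, io_add]; ring
    have e2 : io F * ib G * (rho V ^ r₂ * w₁ + rho V ^ r₁ * w₂) =
        rho V ^ r₂ * (io F * ib G * w₁) + rho V ^ r₁ * (io F * ib G * w₂) := by ring
    rw [e1, Ik_add _ (by omega), e2, Ik_add _ hk, Ik_rho_pow _ hk, Ik_rho_pow _ hk, ← hw₁ F G,
      ← hw₂ F G]
    congr 2 <;> omega
  | mul Q₁ Q₂ _ _ h₁ h₂ =>
    obtain ⟨r₁, h₁⟩ := h₁
    obtain ⟨r₂, h₂⟩ := h₂
    refine ⟨r₂ + r₁, fun k hk w => ?_⟩
    obtain ⟨w₁, hw₁⟩ := h₁ (k + r₂) (by omega) w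
    obtain ⟨w₂, hw₂⟩ := h₂ k hk w₁
    refine ⟨w₂, fun F G => ?_⟩
    rw [← hw₂, ← hw₁, ← add_assoc]
    rfl

/-- The pairing version. -/
def AdmP (r : ℕ) (Q₁ Q₂ : Module.End ℂ (MvPolynomial V ℂ)) : Prop :=
  ∀ k, 0 < k → ∃ w' : MvPolynomial (V ⊕ V) ℂ,
    ∀ F : MvPolynomial V ℂ, Ik (k + r) (io (Q₁ F) * ib (Q₂ F)) = Ik k (io F * ib F * w')

theorem adm_pair {Q₁ Q₂ : Module.End ℂ (MvPolynomial V ℂ)} (h₁ : Adm Q₁) (h₂ : Adm Q₂) :
    ∃ r, AdmP r Q₁ Q₂ := by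
  obtain ⟨r₁, h₁⟩ := h₁
  obtain ⟨r₂, h₂⟩ := h₂
  refine ⟨r₂ + r₁, fun k hk => ?_⟩
  obtain ⟨w₁, hw₁⟩ := h₁ (k + r₂) (by omega) 1
  obtain ⟨w₂, hw₂⟩ := h₂ k hk (sw w₁)
  refine ⟨sw w₂, fun F => ?_⟩
  have e1 := hw₁ F (Q₂ F)
  rw [mul_one, add_assoc] at e1
  rw [e1]
  have e2 : io F * ib (Q₂ F) * w₁ = sw (io (Q₂ F) * ib F * sw w₁) := by
    rw [sw_mul, sw_mul, sw_io, sw_ib]
    have : sw (sw w₁) = w₁ := by
      unfold sw
      rw [map_rename, rename_rename, MvPolynomial.map_map]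
      have h1 : (starRingEnd ℂ).comp (starRingEnd ℂ) = RingHom.id ℂ := by ext x; simp
      rw [h1, MvPolynomial.map_id]
      have h2 : (Sum.swap ∘ Sum.swap : V ⊕ V → V ⊕ V) = id := by funext x; simp
      rw [h2, rename_id]
      rfl
    rw [this]
    ring
  rw [e2, Ik_sw, hw₂, ← Ik_sw, sw_mul, sw_mul, sw_io, sw_ib]
  congr 1
  ring

theorem AdmP.mono {r : ℕ} {Q₁ Q₂ : Module.End ℂ (MvPolynomial V ℂ)} (h : AdmP r Q₁ Q₂) (e : ℕ) :
    AdmP (r + e) Q₁ Q₂ := by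
  intro k hk
  obtain ⟨w, hw⟩ := h (k + e) (by omega)
  refine ⟨rho V ^ e * w, fun F => ?_⟩
  have e2 : io F * ib F * (rho V ^ e * w) = rho V ^ e * (io F * ib F * w) := by ring
  rw [e2, Ik_rho_pow _ hk, ← hw]
  congr 1
  omega

theorem adm_fam {ι : Type} (J : Finset ι) (Q₁ Q₂ : ι → Module.End ℂ (MvPolynomial V ℂ))
    (h : ∀ i, ∃ r, AdmP r (Q₁ i) (Q₂ i)) : ∃ r, ∀ i ∈ J, AdmP r (Q₁ i) (Q₂ i) := by
  classical
  induction J using Finset.induction_on with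
  | empty => exact ⟨0, fun i hi => absurd hi (Finset.notMem_empty i)⟩
  | insert a s ha ih =>
    obtain ⟨r, hr⟩ := ih
    obtain ⟨r', hr'⟩ := h a
    refine ⟨r + r', fun i hi => ?_⟩
    rcases Finset.mem_insert.1 hi with rfl | hi
    · rw [add_comm]; exact hr'.mono r
    · exact (hr i hi).mono r'

/-- **Integrals of `|f| ^ (2 m)` over the ball and the functional equation.** -/
theorem bernstein (f : MvPolynomial V ℂ) (b : Polynomial ℂ) (hb : IsBFunction f b) :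
    ∃ r, ∀ k, r < k → ∃ (J : Finset (ℕ × ℕ)) (w : ℕ × ℕ → MvPolynomial (V ⊕ V) ℂ), ∀ m : ℕ,
      (b.eval (m : ℂ) * (starRingEnd ℂ) (b.eval (m : ℂ))) * Ik k (io f ^ m * ib f ^ m) =
        ∑ j ∈ J, (m : ℂ) ^ (j.1 + j.2) * Ik 1 (io f ^ (m + 1) * ib f ^ (m + 1) * w j) := by
  classical
  obtain ⟨P, hP⟩ := hb
  obtain ⟨r, hr⟩ := adm_fam (P.support ×ˢ P.support)
    (fun j => (P j.1 : Module.End ℂ (MvPolynomial V ℂ)))
    (fun j => (P j.2 : Module.End ℂ (MvPolynomial V ℂ)))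
    (fun j => adm_pair (adm_weyl _ (P j.1).2) (adm_weyl _ (P j.2).2))
  refine ⟨r, fun k hk => ?_⟩
  obtain ⟨e, rfl⟩ : ∃ e, k = 1 + (r + e) := ⟨k - 1 - r, by omega⟩
  have hw : ∀ j : ℕ × ℕ, ∃ w' : MvPolynomial (V ⊕ V) ℂ, j ∈ P.support ×ˢ P.support →
      ∀ F : MvPolynomial V ℂ, Ik (1 + (r + e)) (io ((P j.1 : Module.End ℂ (MvPolynomial V ℂ)) F) *
        ib ((P j.2 : Module.End ℂ (MvPolynomial V ℂ)) F)) = Ik 1 (io F * ib F * w') := by
    intro j
    by_cases hj : j ∈ P.support ×ˢ P.support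
    · obtain ⟨w', hw'⟩ := ((hr j hj).mono e) 1 one_pos
      exact ⟨w', fun _ => hw'⟩
    · exact ⟨0, fun h => absurd h hj⟩
  choose w hw using hw
  refine ⟨P.support ×ˢ P.support, w, fun m => ?_⟩
  have h1 : io (C (b.eval (m : ℂ)) * f ^ m) * ib (C (b.eval (m : ℂ)) * f ^ m) =
      C (b.eval (m : ℂ) * (starRingEnd ℂ) (b.eval (m : ℂ))) * (io f ^ m * ib f ^ m) := by
    rw [io_mul, ib_mul, io_C, ib_C, io_pow, ib_pow, C_mul]; ring
  rw [← Ik_C, ← h1, hP m, Finsupp.sum, io_sum, ib_sum, Finset.sum_mul_sum, ← Finset.sum_product',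
    Ik_sum _ (by omega)]
  refine Finset.sum_congr rfl fun j hj => ?_
  rw [smul_eq_C_mul, smul_eq_C_mul, io_mul, ib_mul, io_C, ib_C]
  have h2 : C ((m : ℂ) ^ j.1) * io ((P j.1 : Module.End ℂ (MvPolynomial V ℂ)) (f ^ (m + 1))) *
      (C ((starRingEnd ℂ) ((m : ℂ) ^ j.2)) *
        ib ((P j.2 : Module.End ℂ (MvPolynomial V ℂ)) (f ^ (m + 1)))) =
      C ((m : ℂ) ^ (j.1 + j.2)) * (io ((P j.1 : Module.End ℂ (MvPolynomial V ℂ)) (f ^ (m + 1))) *
        ib ((P j.2 : Module.End ℂ (MvPolynomial V ℂ)) (f ^ (m + 1)))) := by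
    have h3 : (starRingEnd ℂ) ((m : ℂ) ^ j.2) = (m : ℂ) ^ j.2 := by rw [map_pow, map_natCast]
    rw [h3, pow_add (m : ℂ), C_mul]; ring
  rw [h2, Ik_C, hw j hj, io_pow, ib_pow]

end Pool.Agent.K6.H33.NM
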