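import Pool.Agent.Helper777.PP.P_carlson

set_option autoImplicit false

/-! # Analytic continuation of functional equations: the Bernstein argument via Carlson's theorem -/

namespace Pool.Agent.K6.H33.NM

open MeasureTheory Set Filter Topology

variable {E : Type} [MeasurableSpace E]

theorem cpow_bound (x : ℝ) (h0 : 0 ≤ x) (h1 : x ≤ 1) (s : ℂ) (hs : 0 < s.re) :
    ‖(x : ℂ) ^ s‖ ≤ 1 := by
  rcases h0.eq_or_lt with rfl | h
  · rw [Complex.ofReal_zero, Complex.zero_cpow (by rintro rfl; simp at hs)]; simp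
  · rw [Complex.norm_cpow_eq_rpow_re_of_pos h]
    exact Real.rpow_le_one h0 h1 hs.le

theorem cpow_log_bound (x : ℝ) (h0 : 0 ≤ x) (h1 : x ≤ 1) (s : ℂ) (ε : ℝ) (hε : 0 < ε)
    (hs : ε ≤ s.re) : ‖(x : ℂ) ^ s * Complex.log x‖ ≤ 1 / ε := by
  rcases h0.eq_or_lt with rfl | h
  · simp only [Complex.ofReal_zero, Complex.log_zero, mul_zero, norm_zero]; positivity
  · rw [norm_mul, Complex.norm_cpow_eq_rpow_re_of_pos h, ← Complex.ofReal_log h0, Complex.norm_real]
    have h2 := Real.abs_log_mul_self_rpow_lt x ε h h1 hε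
    calc x ^ s.re * ‖Real.log x‖ ≤ x ^ ε * ‖Real.log x‖ := by
          apply mul_le_mul_of_nonneg_right _ (norm_nonneg _)
          exact Real.rpow_le_rpow_of_exponent_ge h h1 hs
      _ = |Real.log x * x ^ ε| := by
          rw [abs_mul, abs_of_nonneg (Real.rpow_nonneg h0 _), Real.norm_eq_abs, mul_comm]
      _ ≤ _ := h2.le

/-- `∫ g ^ s φ`. -/
noncomputable def Phi (μ : Measure E) (g : E → ℝ) (φ : E → ℂ) (s : ℂ) : ℂ :=
  ∫ x, (g x : ℂ) ^ s * φ x ∂μ

theorem Phi_bound (μ : Measure E) (g : E → ℝ) (φ : E → ℂ) (hφ : Integrable φ μ)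
    (h0 : ∀ x, 0 ≤ g x) (h1 : ∀ x, φ x ≠ 0 → g x ≤ 1) (s : ℂ) (hs : 0 < s.re) :
    ‖Phi μ g φ s‖ ≤ ∫ x, ‖φ x‖ ∂μ := by
  unfold Phi
  refine norm_integral_le_of_norm_le hφ.norm (Eventually.of_forall fun x => ?_)
  by_cases h : φ x = 0
  · simp [h]
  · rw [norm_mul]
    exact mul_le_of_le_one_left (norm_nonneg _) (cpow_bound _ (h0 x) (h1 x h) s hs)

theorem meas_cpow (μ : Measure E) (g : E → ℝ) (hg : Measurable g) (s : ℂ) :
    AEStronglyMeasurable (fun x => (g x : ℂ) ^ s) μ := by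
  apply Measurable.aestronglyMeasurable
  exact (Complex.measurable_ofReal.comp hg).pow_const s

theorem Phi_diff (μ : Measure E) (g : E → ℝ) (hg : Measurable g) (φ : E → ℂ) (hφ : Integrable φ μ)
    (h0 : ∀ x, 0 ≤ g x) (h1 : ∀ x, φ x ≠ 0 → g x ≤ 1) (s : ℂ) (hs : 0 < s.re) :
    DifferentiableAt ℂ (Phi μ g φ) s := by
  have hr : 0 < s.re / 2 := by positivity
  have hre : ∀ z ∈ Metric.ball s (s.re / 2), s.re / 2 ≤ z.re := by
    intro z hz
    rw [Metric.mem_ball, Complex.dist_eq] at hz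
    have h2 := Complex.abs_re_le_norm (z - s)
    rw [Complex.sub_re] at h2
    have h3 := neg_abs_le (z.re - s.re)
    linarith
  have key := hasDerivAt_integral_of_dominated_loc_of_deriv_le (μ := μ)
    (F := fun (z : ℂ) x => (g x : ℂ) ^ z * φ x)
    (F' := fun (z : ℂ) x => ((g x : ℂ) ^ z * Complex.log (g x)) * φ x) (x₀ := s)
    (s := Metric.ball s (s.re / 2)) (bound := fun x => (1 / (s.re / 2)) * ‖φ x‖)
    (Metric.ball_mem_nhds _ hr)
    (Eventually.of_forall fun z => (meas_cpow μ g hg z).mul hφ.1)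
    (by
      refine hφ.norm.mono' ((meas_cpow μ g hg s).mul hφ.1) (Eventually.of_forall fun x => ?_)
      by_cases h : φ x = 0
      · simp [h]
      · rw [norm_mul]
        exact mul_le_of_le_one_left (norm_nonneg _) (cpow_bound _ (h0 x) (h1 x h) s hs))
    (((meas_cpow μ g hg s).mul
      (Complex.measurable_log.comp (Complex.measurable_ofReal.comp hg)).aestronglyMeasurable).mul hφ.1)
    (Eventually.of_forall fun x z hz => by
      by_cases h : φ x = 0
      · simp [h]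
      · rw [norm_mul]
        exact mul_le_mul_of_nonneg_right (cpow_log_bound _ (h0 x) (h1 x h) z _ hr (hre z hz))
          (norm_nonneg _))
    (hφ.norm.const_mul _)
    (Eventually.of_forall fun x z hz => by
      have hz0 : z ≠ 0 := by
        rintro rfl
        have := hre 0 hz
        simp only [Complex.zero_re] at this
        linarith
      have h2 := (hasDerivAt_id z).const_cpow (c := (g x : ℂ)) (Or.inr hz0)
      simp only [id, mul_one] at h2
      exact h2.mul_const _)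
  exact key.2.differentiableAt

theorem Phi_diff_shift (μ : Measure E) (g : E → ℝ) (hg : Measurable g) (φ : E → ℂ)
    (hφ : Integrable φ μ) (h0 : ∀ x, 0 ≤ g x) (h1 : ∀ x, φ x ≠ 0 → g x ≤ 1) (w : ℂ)
    (hs : -1 < w.re) : DifferentiableAt ℂ (fun s => Phi μ g φ (s + 1)) w := by
  have h2 : DifferentiableAt ℂ (fun s : ℂ => s + 1) w := by fun_prop
  have h3 : 0 < (w + 1).re := by simp only [Complex.add_re, Complex.one_re]; linarith
  exact DifferentiableAt.comp (g := Phi μ g φ) (f := fun s : ℂ => s + 1) w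
    (Phi_diff μ g hg φ hφ h0 h1 (w + 1) h3) h2

/-- Polynomial growth for `Re w ≥ 1`. -/
def PG (f : ℂ → ℂ) : Prop := ∃ (C : ℝ) (K : ℕ), 0 ≤ C ∧ ∀ w : ℂ, 1 ≤ w.re → ‖f w‖ ≤ C * (1 + ‖w‖) ^ K

theorem PG.add {f g : ℂ → ℂ} (hf : PG f) (hg : PG g) : PG fun w => f w + g w := by
  obtain ⟨C, K, hC, h⟩ := hf
  obtain ⟨C', K', hC', h'⟩ := hg
  refine ⟨C + C', K + K', by positivity, fun w hw => ?_⟩
  have h1 : (1 : ℝ) ≤ 1 + ‖w‖ := by linarith [norm_nonneg w]
  calc ‖f w + g w‖ ≤ ‖f w‖ + ‖g w‖ := norm_add_le _ _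
    _ ≤ C * (1 + ‖w‖) ^ K + C' * (1 + ‖w‖) ^ K' := add_le_add (h w hw) (h' w hw)
    _ ≤ C * (1 + ‖w‖) ^ (K + K') + C' * (1 + ‖w‖) ^ (K + K') := by
        apply add_le_add
        · exact mul_le_mul_of_nonneg_left (pow_le_pow_right₀ h1 (by omega)) hC
        · exact mul_le_mul_of_nonneg_left (pow_le_pow_right₀ h1 (by omega)) hC'
    _ = _ := by ring

theorem PG.mul {f g : ℂ → ℂ} (hf : PG f) (hg : PG g) : PG fun w => f w * g w := by
  obtain ⟨C, K, hC, h⟩ := hf
  obtain ⟨C', K', hC', h'⟩ := hg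
  refine ⟨C * C', K + K', by positivity, fun w hw => ?_⟩
  rw [norm_mul]
  calc ‖f w‖ * ‖g w‖ ≤ (C * (1 + ‖w‖) ^ K) * (C' * (1 + ‖w‖) ^ K') :=
        mul_le_mul (h w hw) (h' w hw) (norm_nonneg _) ((norm_nonneg _).trans (h w hw))
    _ = _ := by ring

theorem PG.bdd {f : ℂ → ℂ} (C : ℝ) (hC : 0 ≤ C) (h : ∀ w : ℂ, 1 ≤ w.re → ‖f w‖ ≤ C) : PG f :=
  ⟨C, 0, hC, fun w hw => by simpa using h w hw⟩

theorem PG.id : PG fun w => w :=
  ⟨1, 1, by norm_num, fun w _ => by rw [one_mul, pow_one]; linarith⟩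

theorem PG.poly (P : Polynomial ℂ) : PG fun w => P.eval w := by
  induction P using Polynomial.induction_on with
  | C a => simpa using PG.bdd ‖a‖ (norm_nonneg _) (fun w _ => le_of_eq (by simp))
  | add p q hp hq => simpa using hp.add hq
  | monomial n a ih =>
    have := ih.mul PG.id
    simpa [pow_succ, mul_assoc] using this

theorem PG.neg {f : ℂ → ℂ} (hf : PG f) : PG fun w => - f w := by
  obtain ⟨C, K, hC, h⟩ := hf
  exact ⟨C, K, hC, fun w hw => by rw [norm_neg]; exact h w hw⟩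

theorem PG.sum {ι : Type} (J : Finset ι) (f : ι → ℂ → ℂ) (h : ∀ i, PG (f i)) :
    PG fun w => ∑ i ∈ J, f i w := by
  classical
  induction J using Finset.induction_on with
  | empty => simpa using PG.bdd 0 le_rfl (fun w _ => by simp)
  | insert a s ha ih =>
    simp only [Finset.sum_insert ha]
    exact (h a).add ih

section

variable (μ : Measure E) (g : E → ℝ) (hg : Measurable g) (h0 : ∀ x, 0 ≤ g x)
  (φ : E → ℂ) (hφ : Integrable φ μ) (h1 : ∀ x, φ x ≠ 0 → g x ≤ 1)
  {ι : Type} (J : Finset ι) (ψ : ι → E → ℂ) (hψ : ∀ i, Integrable (ψ i) μ)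
  (h2 : ∀ i x, ψ i x ≠ 0 → g x ≤ 1) (β : Polynomial ℂ) (P : ι → Polynomial ℂ)
  (h : ∀ m : ℕ, 0 < m → β.eval (m : ℂ) * Phi μ g φ m =
    ∑ i ∈ J, (P i).eval (m : ℂ) * Phi μ g (ψ i) (m + 1))

include hg h0 hφ h1 hψ h2 h

theorem carl_eq (s : ℂ) (hs : 0 < s.re) : β.eval s * Phi μ g φ s =
    ∑ i ∈ J, (P i).eval s * Phi μ g (ψ i) (s + 1) := by
  have hpg : PG fun s => β.eval s * Phi μ g φ s +
      - ∑ i ∈ J, (P i).eval s * Phi μ g (ψ i) (s + 1) := by
    refine PG.add ((PG.poly β).mul (PG.bdd (∫ x, ‖φ x‖ ∂μ)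
      (integral_nonneg fun _ => norm_nonneg _) fun w hw => Phi_bound μ g φ hφ h0 h1 w (by linarith)))
      (PG.neg (PG.sum J _ fun i => (PG.poly (P i)).mul (PG.bdd (∫ x, ‖ψ i x‖ ∂μ)
      (integral_nonneg fun _ => norm_nonneg _)
        fun w hw => Phi_bound μ g (ψ i) (hψ i) h0 (h2 i) (w + 1) (by simp; linarith))))
  obtain ⟨C, K, hC, hCK⟩ := hpg
  have key := Pool.PlanePD.carlson (fun s => β.eval s * Phi μ g φ s +
      - ∑ i ∈ J, (P i).eval s * Phi μ g (ψ i) (s + 1)) ?_ C K hCK 1 ?_ s hs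
  · rw [← sub_eq_add_neg, sub_eq_zero] at key
    exact key
  · intro w hw
    have hw' : 0 < w.re := hw
    apply DifferentiableAt.differentiableWithinAt
    apply DifferentiableAt.add
    · exact β.differentiable.differentiableAt.mul (Phi_diff μ g hg φ hφ h0 h1 w hw)
    · apply DifferentiableAt.neg
      apply DifferentiableAt.fun_sum
      intro i _
      exact (P i).differentiable.differentiableAt.mul
        (Phi_diff_shift μ g hg (ψ i) (hψ i) h0 (h2 i) w (by linarith))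
  · filter_upwards with a
    have h3 := h (a + 1) (by omega)
    push_cast at h3
    rw [add_comm (1 : ℂ) (a : ℂ), h3]
    ring

/-- **A zero of the denominator of the zeta function is a root of the polynomial `β` of the functional
equation.** -/
theorem root_abs (D G : ℂ → ℂ) (hD : Differentiable ℂ D) (hG : Differentiable ℂ G)
    (hDG : ∀ s : ℝ, 0 < s → Phi μ g φ s * D s = G s) (s₀ : ℝ) (hs₀ : -1 ≤ s₀) (hD0 : D s₀ = 0)
    (hG0 : G s₀ ≠ 0) : β.eval (s₀ : ℂ) = 0 := by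
  have hcar := carl_eq μ g hg h0 φ hφ h1 J ψ hψ h2 β P h
  set U : Set ℂ := {s : ℂ | -1 < s.re} with hU
  have hUo : IsOpen U := isOpen_lt continuous_const Complex.continuous_re
  have hUc : IsPreconnected U := (convex_halfSpace_re_gt (-1)).isPreconnected
  have hL : AnalyticOnNhd ℂ (fun s => β.eval s * G s) U :=
    DifferentiableOn.analyticOnNhd (β.differentiable.mul hG).differentiableOn hUo
  have hR : AnalyticOnNhd ℂ (fun s => (∑ i ∈ J, (P i).eval s * Phi μ g (ψ i) (s + 1)) * D s) U := by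
    refine DifferentiableOn.analyticOnNhd ?_ hUo
    intro w hw
    have hw' : -1 < w.re := hw
    apply DifferentiableAt.differentiableWithinAt
    refine DifferentiableAt.mul ?_ hD.differentiableAt
    apply DifferentiableAt.fun_sum
    intro i _
    exact (P i).differentiable.differentiableAt.mul
      (Phi_diff_shift μ g hg (ψ i) (hψ i) h0 (h2 i) w hw')
  have hreal : ∀ s : ℝ, 0 < s → β.eval (s : ℂ) * G s =
      (∑ i ∈ J, (P i).eval (s : ℂ) * Phi μ g (ψ i) (s + 1)) * D s := by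
    intro s hs
    rw [← hDG s hs, ← mul_assoc, hcar s (by simpa using hs)]
  have hfreq : ∃ᶠ z in 𝓝[≠] (1 : ℂ), β.eval z * G z =
      (∑ i ∈ J, (P i).eval z * Phi μ g (ψ i) (z + 1)) * D z := by
    have ht : Tendsto (fun x : ℝ => (x : ℂ)) (𝓝[>] (1 : ℝ)) (𝓝[≠] (1 : ℂ)) := by
      rw [tendsto_nhdsWithin_iff]
      constructor
      · have := (Complex.continuous_ofReal.tendsto (1 : ℝ)).mono_left
          (nhdsWithin_le_nhds (s := Ioi (1 : ℝ)))
        simpa using this
      · filter_upwards [self_mem_nhdsWithin] with x hx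
        have hx' : (1 : ℝ) < x := hx
        rw [mem_compl_iff, mem_singleton_iff]
        intro h3
        have := congrArg Complex.re h3
        simp at this
        linarith
    refine ht.frequently ?_
    apply Eventually.frequently
    filter_upwards [self_mem_nhdsWithin] with x hx
    have hx' : (1 : ℝ) < x := hx
    exact hreal x (by linarith)
  have hEq := hL.eqOn_of_preconnected_of_frequently_eq hR hUc
    (show (1 : ℂ) ∈ U by rw [hU]; simp) hfreq
  set Cst : ℝ → ℝ := fun s => (∑ i ∈ J, ‖(P i).eval (s : ℂ)‖ * ∫ x, ‖ψ i x‖ ∂μ) * ‖D s‖ with hCst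
  have hle : ∀ s : ℝ, -1 < s → ‖β.eval (s : ℂ) * G s‖ ≤ Cst s := by
    intro s hs
    have h3 : β.eval (s : ℂ) * G s = (∑ i ∈ J, (P i).eval (s : ℂ) * Phi μ g (ψ i) (s + 1)) * D s :=
      hEq (show (s : ℂ) ∈ U by rw [hU]; simpa using hs)
    rw [h3, norm_mul]
    apply mul_le_mul_of_nonneg_right _ (norm_nonneg _)
    refine (norm_sum_le _ _).trans (Finset.sum_le_sum fun i _ => ?_)
    rw [norm_mul]
    apply mul_le_mul_of_nonneg_left _ (norm_nonneg _)
    exact Phi_bound μ g (ψ i) (hψ i) h0 (h2 i) _ (by simp; linarith)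
  have hcl : IsClosed {s : ℝ | ‖β.eval (s : ℂ) * G s‖ ≤ Cst s} := by
    apply isClosed_le
    · have := hG.continuous
      fun_prop
    · have := hD.continuous
      rw [hCst]
      fun_prop
  have hmem : s₀ ∈ closure (Ioi (-1 : ℝ)) := by
    rw [closure_Ioi]; exact hs₀
  have h4 : s₀ ∈ {s : ℝ | ‖β.eval (s : ℂ) * G s‖ ≤ Cst s} :=
    closure_minimal (fun s hs => hle s hs) hcl hmem
  have h5 : ‖β.eval (s₀ : ℂ) * G s₀‖ ≤ 0 := by
    have h6 : Cst s₀ = 0 := by rw [hCst]; simp [hD0]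
    exact (h4 : _ ≤ _).trans h6.le
  have h7 : β.eval (s₀ : ℂ) * G s₀ = 0 := norm_le_zero_iff.1 h5
  exact (mul_eq_zero.1 h7).resolve_right hG0

end

end Pool.Agent.K6.H33.NM
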