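import Pool.Agent.K6.H33.NM.CX

set_option autoImplicit false

/-! # The integrals over the rows in the complex case -/

namespace Pool.Agent.K6.H33.NM

open MeasureTheory Set
open scoped ENNReal

/-- `s 1 + ... + s m` -/
noncomputable def TT (s : ℕ → ℝ) (m : ℕ) : ℝ := ∑ i ∈ Finset.range m, s (i + 1)

theorem TT_succ (s : ℕ → ℝ) (m : ℕ) : TT s (m + 1) = TT s m + s (m + 1) := by
  unfold TT
  rw [Finset.sum_range_succ]

theorem TT_nonneg (s : ℕ → ℝ) (hs : ∀ i, 0 ≤ s i) (m : ℕ) : 0 ≤ TT s m :=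
  Finset.sum_nonneg fun i _ => hs _

theorem Nr_succ (m : ℕ) (v : Fin (m + 1) → ℂ) : Nr v = ‖v 0‖ ^ 2 + Nr (Fin.tail v) := by
  unfold Nr
  rw [Fin.sum_univ_succ]
  rfl

theorem PC_N : ∀ (m : ℕ) (v : Fin m → ℂ), PC.N m v = ENNReal.ofReal (Nr v)
  | 0, v => by simp [Peel.N, Nr]
  | m + 1, v => by
    have h1 : PC.N (m + 1) v = ‖v 0‖ₑ ^ 2 + PC.N m (Fin.tail v) := rfl
    rw [h1, PC_N m, nsq, Nr_succ, ENNReal.ofReal_add (by positivity) (Nr_nonneg _)]

theorem PC_W_smul (s : ℕ → ℝ) (hs : ∀ i, 0 ≤ s i) (c : ℝ) (hc : 0 < c) : ∀ (m : ℕ) (v : Fin m → ℂ),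
    PC.W s m (c • v) = ENNReal.ofReal (c ^ (2 * TT s m)) * PC.W s m v
  | 0, v => by simp [Peel.W, TT]
  | m + 1, v => by
    have h1 : PC.W s (m + 1) (c • v) = PC.N (m + 1) (c • v) ^ s (m + 1) *
        PC.W s m (Fin.tail (c • v)) := rfl
    have h2 : PC.W s (m + 1) v = PC.N (m + 1) v ^ s (m + 1) * PC.W s m (Fin.tail v) := rfl
    have h3 : Fin.tail (c • v) = c • Fin.tail v := rfl
    rw [h1, h2, h3, PC_W_smul s hs c hc m, PC_N, PC_N, Nr_smul, ENNReal.ofReal_mul (by positivity),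
      ENNReal.mul_rpow_of_nonneg _ _ (hs _), TT_succ, mul_add, Real.rpow_add hc,
      ENNReal.ofReal_mul (by positivity), ENNReal.ofReal_rpow_of_pos (by positivity)]
    have h4 : (c ^ 2) ^ s (m + 1) = c ^ (2 * s (m + 1)) := by
      rw [← Real.rpow_natCast, ← Real.rpow_mul hc.le]
      norm_num
    rw [h4]
    ring

theorem PC_W_le (s : ℕ → ℝ) (hs : ∀ i, 0 ≤ s i) : ∀ (m : ℕ) (v : Fin m → ℂ), Nr v ≤ 1 →
    PC.W s m v ≤ 1
  | 0, v, _ => le_rfl
  | m + 1, v, h => by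
    have h2 : PC.W s (m + 1) v = PC.N (m + 1) v ^ s (m + 1) * PC.W s m (Fin.tail v) := rfl
    have h3 : Nr (Fin.tail v) ≤ 1 := by
      rw [Nr_succ] at h
      nlinarith [sq_nonneg ‖v 0‖]
    rw [h2, PC_N]
    refine mul_le_one' ?_ (PC_W_le s hs m _ h3)
    exact ENNReal.rpow_le_one (ENNReal.ofReal_le_one.2 h) (hs _)

theorem pi_gm (m : ℕ) : (Measure.pi fun _ : Fin m => gm) = (volume : Measure (Fin m → ℂ)).withDensity
    (fun v => ENNReal.ofReal (Real.pi⁻¹ ^ m) * ENNReal.ofReal (Real.exp (-Nr v))) := by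
  haveI := gm_prob
  haveI : SigmaFinite ((volume : Measure ℂ).withDensity gd) := by
    change SigmaFinite gm
    infer_instance
  have h1 := Pool.Agent.K1H9.RP.pi_withDensity (ι := Fin m) (volume : Measure ℂ) gd gd_meas
  change (Measure.pi fun _ : Fin m => (volume : Measure ℂ).withDensity gd) = _
  rw [h1, ← volume_pi]
  congr 1
  funext v
  unfold gd
  rw [← ENNReal.ofReal_prod_of_nonneg (fun i _ => by positivity), Finset.prod_mul_distrib,
    Finset.prod_const, Finset.card_univ, Fintype.card_fin, ← Real.exp_sum, Finset.sum_neg_distrib,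
    ENNReal.ofReal_mul (by positivity)]
  rfl

theorem lint_gm (m : ℕ) (g : (Fin m → ℂ) → ℝ≥0∞) (hg : Measurable g) :
    ∫⁻ v, g v ∂(Measure.pi fun _ : Fin m => gm) = ENNReal.ofReal (Real.pi⁻¹ ^ m) *
      ∫⁻ v, g v * ENNReal.ofReal (Real.exp (-Nr v)) := by
  have hm : Measurable fun v : Fin m → ℂ =>
      ENNReal.ofReal (Real.pi⁻¹ ^ m) * ENNReal.ofReal (Real.exp (-Nr v)) := by
    have := Nr_meas (ι := Fin m)
    fun_prop
  have hm2 : Measurable fun v : Fin m → ℂ => g v * ENNReal.ofReal (Real.exp (-Nr v)) := by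
    have := Nr_meas (ι := Fin m)
    fun_prop
  rw [pi_gm, lintegral_withDensity_eq_lintegral_mul _ hm hg, ← lintegral_const_mul _ hm2]
  refine lintegral_congr fun v => ?_
  simp only [Pi.mul_apply]
  ring

theorem PC_J_succ (s : ℕ → ℝ) (hs : ∀ i, 0 ≤ s i) (m : ℕ) : PC.J s (m + 1) =
    ENNReal.ofReal (Real.Gamma ((m : ℝ) + 1 + TT s (m + 1)) / Real.Gamma ((m : ℝ) + 1 + TT s m)) *
      PC.J s m := by
  set h : (Fin (m + 1) → ℂ) → ℝ≥0∞ := fun v => PC.W s m (Fin.tail v) with hh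
  have hmeas : Measurable h := (W_meas PC m s).comp (by unfold Fin.tail; fun_prop)
  have hhom : Homog h (TT s m) := fun c hc v => PC_W_smul s hs c hc m (Fin.tail v)
  have hfin : ∫⁻ v in {v : Fin (m + 1) → ℂ | Nr v < 1}, h v ≠ ∞ := by
    have h1 : ∫⁻ v in {v : Fin (m + 1) → ℂ | Nr v < 1}, h v ≤
        ∫⁻ v in {v : Fin (m + 1) → ℂ | Nr v < 1}, 1 := by
      refine setLIntegral_mono' (measurableSet_lt Nr_meas measurable_const) fun v hv => ?_
      refine PC_W_le s hs m _ ?_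
      have hv' : Nr v < 1 := hv
      rw [Nr_succ] at hv'
      nlinarith [sq_nonneg ‖v 0‖]
    refine (lt_of_le_of_lt h1 ?_).ne
    rw [lintegral_one, Measure.restrict_apply MeasurableSet.univ, univ_inter]
    exact (Nr_bdd 1).measure_lt_top
  have ha : 0 < ((Fintype.card (Fin (m + 1)) : ℕ) : ℝ) + TT s m := by
    have := TT_nonneg s hs m
    rw [Fintype.card_fin]
    push_cast
    positivity
  have g1 := gauss_ratio h hmeas (TT s m) ha hhom hfin (s (m + 1)) (hs _)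
  have g0 := gauss_ratio h hmeas (TT s m) ha hhom hfin 0 le_rfl
  set C := ∫⁻ v in {v : Fin (m + 1) → ℂ | Nr v < 1}, h v
  set a : ℝ := ((Fintype.card (Fin (m + 1)) : ℕ) : ℝ) + TT s m with hadef
  have ha' : a = (m : ℝ) + 1 + TT s m := by
    rw [hadef, Fintype.card_fin]
    push_cast
    rfl
  have e1 : PC.J s (m + 1) = ENNReal.ofReal (Real.pi⁻¹ ^ (m + 1)) *
      (C * ENNReal.ofReal (a * Real.Gamma (a + s (m + 1)))) := by
    have : PC.J s (m + 1) = ∫⁻ v, PC.W s (m + 1) v ∂(Measure.pi fun _ : Fin (m + 1) => gm) := rfl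
    rw [this, lint_gm _ _ (W_meas PC (m + 1) s), ← g1]
    congr 1
    refine lintegral_congr fun v => ?_
    have h2 : PC.W s (m + 1) v = PC.N (m + 1) v ^ s (m + 1) * h v := rfl
    rw [h2, PC_N, ENNReal.ofReal_rpow_of_nonneg (Nr_nonneg _) (hs _)]
    ring
  have e0 : PC.J s m = ENNReal.ofReal (Real.pi⁻¹ ^ (m + 1)) *
      (C * ENNReal.ofReal (a * Real.Gamma (a + 0))) := by
    have h2 : PC.J s m = ∫⁻ v, h v ∂(Measure.pi fun _ : Fin (m + 1) => gm) :=
      ((tail_mp PC m).lintegral_comp (W_meas PC m s)).symm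
    rw [h2, lint_gm _ _ hmeas, ← g0]
    congr 1
    refine lintegral_congr fun v => ?_
    rw [Real.rpow_zero, ENNReal.ofReal_one, one_mul]
  have ha0 : 0 < a := ha
  have hG := Real.Gamma_pos_of_pos ha0
  have hG2 : 0 < Real.Gamma (a + s (m + 1)) := Real.Gamma_pos_of_pos (by have := hs (m + 1); positivity)
  rw [e1, e0, TT_succ, ← ha', ← add_assoc, ← ha', add_zero]
  have h5 : ENNReal.ofReal (a * Real.Gamma (a + s (m + 1))) =
      ENNReal.ofReal (Real.Gamma (a + s (m + 1)) / Real.Gamma a) * ENNReal.ofReal (a * Real.Gamma a) := by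
    rw [← ENNReal.ofReal_mul (by positivity)]
    congr 1
    field_simp
  rw [h5]
  ring

/-- The value of the complex integral over the rows. -/
noncomputable def EJ (s : ℕ → ℝ) : ℕ → ℝ
  | 0 => 1
  | m + 1 => Real.Gamma ((m : ℝ) + 1 + TT s (m + 1)) / Real.Gamma ((m : ℝ) + 1 + TT s m) * EJ s m

theorem EJ_pos (s : ℕ → ℝ) (hs : ∀ i, 0 ≤ s i) : ∀ m, 0 < EJ s m
  | 0 => one_pos
  | m + 1 => by
    have h1 := TT_nonneg s hs m
    have h2 := TT_nonneg s hs (m + 1)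
    exact mul_pos (div_pos (Real.Gamma_pos_of_pos (by positivity)) (Real.Gamma_pos_of_pos (by positivity)))
      (EJ_pos s hs m)

theorem PC_J (s : ℕ → ℝ) (hs : ∀ i, 0 ≤ s i) : ∀ m, PC.J s m = ENNReal.ofReal (EJ s m)
  | 0 => by
    haveI := gm_prob
    have : PC.J s 0 = ∫⁻ v, 1 ∂(Measure.pi fun _ : Fin 0 => gm) := rfl
    rw [this, lintegral_one, measure_univ]
    simp [EJ]
  | m + 1 => by
    have h1 := TT_nonneg s hs m
    have h2 := TT_nonneg s hs (m + 1)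
    rw [PC_J_succ s hs, PC_J s hs m, ← ENNReal.ofReal_mul]
    · rfl
    · exact (div_pos (Real.Gamma_pos_of_pos (by positivity)) (Real.Gamma_pos_of_pos (by positivity))).le

/-- The value of the complex integral. -/
noncomputable def EI (s : ℕ → ℝ) : ℕ → ℝ
  | 0 => 1
  | n + 1 => EJ s (n + 1) * EI (fun i => s (i + 1)) n

theorem EI_pos : ∀ (n : ℕ) (s : ℕ → ℝ) (hs : ∀ i, 0 ≤ s i), 0 < EI s n
  | 0, _, _ => one_pos
  | n + 1, s, hs => mul_pos (EJ_pos s hs _) (EI_pos n _ fun i => hs _)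

/-- **The complex integral of the product of powers of the nested minors.** -/
theorem PC_I : ∀ (n : ℕ) (s : ℕ → ℝ) (hs : ∀ i, 0 ≤ s i), PC.I s n = ENNReal.ofReal (EI s n)
  | 0, s, hs => by rw [I_zero]; simp [EI]
  | n + 1, s, hs => by
    rw [I_succ PC s hs, PC_J s hs, PC_I n _ (fun i => hs _), ← ENNReal.ofReal_mul (EJ_pos s hs _).le]
    rfl

end Pool.Agent.K6.H33.NM
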