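import Mathlib

set_option autoImplicit false

/-! # Integrals of products of powers of nested minors: peeling off a row

`K` is a commutative ring with a probability measure `ν` and a multiplicative function `nrm` such that
every pair `(g, u)` can be rotated into `(*, 0)` by a measure preserving unimodular substitution of
`K × K` (for `K = ℤ_p` with the Haar measure, and for `K = ℂ` with the Gaussian measure). -/

namespace Pool.Agent.K6.H33.NM

open MeasureTheory Matrix
open scoped ENNReal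

/-- The data. -/
structure Peel (K : Type) [CommRing K] [MeasurableSpace K] where
  ν : Measure K
  prob : IsProbabilityMeasure ν
  nrm : K → ℝ≥0∞
  M : ℝ≥0∞ → ℝ≥0∞ → ℝ≥0∞
  M_zero : ∀ a, M a 0 = a
  nrm_mul : ∀ x y, nrm (x * y) = nrm x * nrm y
  nrm_one : nrm 1 = 1
  meas_det : ∀ n, Measurable fun X : Fin n → Fin n → K => nrm (Matrix.det (Matrix.of X))
  meas_nrm : Measurable nrm
  meas_M : Measurable fun p : ℝ≥0∞ × ℝ≥0∞ => M p.1 p.2
  rot : ∀ g u : K, ∃ α β γ δ : K, g * γ + u * δ = 0 ∧ nrm (g * α + u * β) = M (nrm g) (nrm u) ∧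
    nrm (α * δ - γ * β) = 1 ∧
    MeasurePreserving (fun p : K × K => (p.1 * α + p.2 * β, p.1 * γ + p.2 * δ)) (ν.prod ν)
      (ν.prod ν)

variable {K : Type} [CommRing K] [MeasurableSpace K]

/-- The iterated norm of a vector. -/
noncomputable def Peel.N (P : Peel K) : (m : ℕ) → (Fin m → K) → ℝ≥0∞
  | 0, _ => 0
  | m + 1, u => P.M (P.nrm (u 0)) (Peel.N P m (Fin.tail u))

/-- The product of the powers of the norms of `u`, `tail u`, ...; the exponent `s m` belongs to the
vector of length `m`. -/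
noncomputable def Peel.W (P : Peel K) (s : ℕ → ℝ) : (m : ℕ) → (Fin m → K) → ℝ≥0∞
  | 0, _ => 1
  | m + 1, u => P.N (m + 1) u ^ s (m + 1) * Peel.W P s m (Fin.tail u)

/-- The product of the powers of the nested minors: the exponent `s m` belongs to the minor of size
`m`, the rows `< m` and the last `m` columns. -/
noncomputable def Peel.F (P : Peel K) (s : ℕ → ℝ) : (n : ℕ) → (Fin n → Fin n → K) → ℝ≥0∞
  | 0, _ => 1
  | n + 1, X => P.nrm (Matrix.det (Matrix.of X)) ^ s (n + 1) *
      Peel.F P s n (fun i j => X i.castSucc j.succ)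

noncomputable def al (P : Peel K) (g u : K) : K := (P.rot g u).choose
noncomputable def be (P : Peel K) (g u : K) : K := (P.rot g u).choose_spec.choose
noncomputable def ga (P : Peel K) (g u : K) : K := (P.rot g u).choose_spec.choose_spec.choose
noncomputable def de (P : Peel K) (g u : K) : K :=
  (P.rot g u).choose_spec.choose_spec.choose_spec.choose

theorem rot_spec (P : Peel K) (g u : K) : g * ga P g u + u * de P g u = 0 ∧
    P.nrm (g * al P g u + u * be P g u) = P.M (P.nrm g) (P.nrm u) ∧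
    P.nrm (al P g u * de P g u - ga P g u * be P g u) = 1 ∧
    MeasurePreserving (fun p : K × K => (p.1 * al P g u + p.2 * be P g u,
      p.1 * ga P g u + p.2 * de P g u)) (P.ν.prod P.ν) (P.ν.prod P.ν) :=
  (P.rot g u).choose_spec.choose_spec.choose_spec.choose_spec

/-- The unimodular substitution of the vector `u`. -/
noncomputable def UU (P : Peel K) : (n : ℕ) → (Fin (n + 1) → K) → Matrix (Fin (n + 1)) (Fin (n + 1)) K
  | 0, _ => 1
  | n + 1, u =>
    let U' := UU P n (Fin.tail u)
    let g := (Fin.tail u ᵥ* U') 0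
    Matrix.of (Fin.cons (Fin.cons (al P (u 0) g) (Fin.cons (ga P (u 0) g) 0))
      (fun i => Fin.cons (U' i 0 * be P (u 0) g) (Fin.cons (U' i 0 * de P (u 0) g)
        (fun j => U' i j.succ))))

theorem UU_succ (P : Peel K) (n : ℕ) (u : Fin (n + 2) → K) : UU P (n + 1) u =
    Matrix.of (Fin.cons (Fin.cons (al P (u 0) ((Fin.tail u ᵥ* UU P n (Fin.tail u)) 0))
      (Fin.cons (ga P (u 0) ((Fin.tail u ᵥ* UU P n (Fin.tail u)) 0)) 0))
      (fun i => Fin.cons (UU P n (Fin.tail u) i 0 * be P (u 0) ((Fin.tail u ᵥ* UU P n (Fin.tail u)) 0))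
        (Fin.cons (UU P n (Fin.tail u) i 0 * de P (u 0) ((Fin.tail u ᵥ* UU P n (Fin.tail u)) 0))
        (fun j => UU P n (Fin.tail u) i j.succ)))) := rfl

theorem vec_zero (P : Peel K) (n : ℕ) (u y : Fin (n + 2) → K) : (y ᵥ* UU P (n + 1) u) 0 =
    y 0 * al P (u 0) ((Fin.tail u ᵥ* UU P n (Fin.tail u)) 0) +
      (Fin.tail y ᵥ* UU P n (Fin.tail u)) 0 * be P (u 0) ((Fin.tail u ᵥ* UU P n (Fin.tail u)) 0) := by
  rw [UU_succ]
  simp only [Matrix.vecMul, dotProduct, Fin.sum_univ_succ (n := n + 1), Matrix.of_apply, Fin.cons_zero,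
    Fin.cons_succ]
  rw [Finset.sum_mul]
  congr 1
  refine Finset.sum_congr rfl fun i _ => ?_
  simp only [Fin.tail]
  ring

theorem vec_one (P : Peel K) (n : ℕ) (u y : Fin (n + 2) → K) : (y ᵥ* UU P (n + 1) u) 1 =
    y 0 * ga P (u 0) ((Fin.tail u ᵥ* UU P n (Fin.tail u)) 0) +
      (Fin.tail y ᵥ* UU P n (Fin.tail u)) 0 * de P (u 0) ((Fin.tail u ᵥ* UU P n (Fin.tail u)) 0) := by
  rw [UU_succ]
  have h1 : (1 : Fin (n + 2)) = Fin.succ 0 := rfl
  rw [h1]
  simp only [Matrix.vecMul, dotProduct, Fin.sum_univ_succ (n := n + 1), Matrix.of_apply, Fin.cons_zero,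
    Fin.cons_succ]
  rw [Finset.sum_mul]
  congr 1
  refine Finset.sum_congr rfl fun i _ => ?_
  simp only [Fin.tail]
  ring

theorem vec_two (P : Peel K) (n : ℕ) (u y : Fin (n + 2) → K) (j : Fin n) :
    (y ᵥ* UU P (n + 1) u) j.succ.succ = (Fin.tail y ᵥ* UU P n (Fin.tail u)) j.succ := by
  rw [UU_succ]
  simp only [Matrix.vecMul, dotProduct, Fin.sum_univ_succ (n := n + 1), Matrix.of_apply, Fin.cons_zero,
    Fin.cons_succ, Pi.zero_apply, mul_zero, zero_add]
  rfl

theorem u_succ (P : Peel K) : ∀ (n : ℕ) (u : Fin (n + 1) → K) (j : Fin n),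
    (u ᵥ* UU P n u) j.succ = 0
  | 0, _, j => j.elim0
  | n + 1, u, j => by
    refine Fin.cases ?_ (fun j => ?_) j
    · have h1 : (Fin.succ 0 : Fin (n + 2)) = 1 := rfl
      rw [h1, vec_one]
      exact (rot_spec P _ _).1
    · rw [vec_two]
      exact u_succ P n _ j

theorem u_zero (P : Peel K) : ∀ (n : ℕ) (u : Fin (n + 1) → K), P.nrm ((u ᵥ* UU P n u) 0) = P.N (n + 1) u
  | 0, u => by
    have h1 : (u ᵥ* UU P 0 u) 0 = u 0 := by simp [UU]
    rw [h1]
    exact (P.M_zero _).symm
  | n + 1, u => by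
    rw [vec_zero, (rot_spec P _ _).2.1, u_zero P n]
    rfl

theorem det_UU (P : Peel K) : ∀ (n : ℕ) (u : Fin (n + 1) → K), P.nrm (UU P n u).det = 1
  | 0, u => by simp [UU, P.nrm_one]
  | n + 1, u => by
    set g := (Fin.tail u ᵥ* UU P n (Fin.tail u)) 0 with hg
    have key : (UU P (n + 1) u).det = (al P (u 0) g * de P (u 0) g - ga P (u 0) g * be P (u 0) g) *
        (UU P n (Fin.tail u)).det := by
      have hup : ∀ (c : K), (UU P n (Fin.tail u)).updateCol 0 (fun i => c * UU P n (Fin.tail u) i 0) =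
          (UU P n (Fin.tail u)).updateCol 0 (c • fun i => UU P n (Fin.tail u) i 0) := fun c => rfl
      have hd : ∀ (c : K), ((UU P n (Fin.tail u)).updateCol 0
          (fun i => c * UU P n (Fin.tail u) i 0)).det = c * (UU P n (Fin.tail u)).det := by
        intro c
        rw [hup, Matrix.det_updateCol_smul, Matrix.updateCol_eq_self]
      rw [Matrix.det_succ_row_zero, Fin.sum_univ_succ, Fin.sum_univ_succ]
      have h0 : ∑ i : Fin n, (-1 : K) ^ ((i.succ.succ : Fin (n + 2)) : ℕ) *
          UU P (n + 1) u 0 i.succ.succ *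
          ((UU P (n + 1) u).submatrix Fin.succ (i.succ.succ : Fin (n + 2)).succAbove).det = 0 := by
        refine Finset.sum_eq_zero fun i _ => ?_
        rw [UU_succ]
        simp
      rw [h0, add_zero]
      have h1 : (UU P (n + 1) u).submatrix Fin.succ (Fin.succAbove (0 : Fin (n + 2))) =
          (UU P n (Fin.tail u)).updateCol 0 (fun i => de P (u 0) g * UU P n (Fin.tail u) i 0) := by
        ext i j
        rw [Matrix.submatrix_apply, UU_succ]
        refine Fin.cases ?_ (fun j => ?_) j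
        · simp [hg, mul_comm]
        · simp [Matrix.updateCol_apply, hg]
      have h2 : (UU P (n + 1) u).submatrix Fin.succ (Fin.succAbove (Fin.succ 0 : Fin (n + 2))) =
          (UU P n (Fin.tail u)).updateCol 0 (fun i => be P (u 0) g * UU P n (Fin.tail u) i 0) := by
        ext i j
        rw [Matrix.submatrix_apply, UU_succ]
        refine Fin.cases ?_ (fun j => ?_) j
        · rw [Fin.succ_succAbove_zero]
          simp [hg, mul_comm]
        · rw [Fin.succ_succAbove_succ]
          simp [Matrix.updateCol_apply, hg]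
      rw [h1, h2, hd, hd]
      have h3 : UU P (n + 1) u 0 0 = al P (u 0) g := by rw [UU_succ]; simp [hg]
      have h4 : UU P (n + 1) u 0 (Fin.succ 0) = ga P (u 0) g := by rw [UU_succ]; simp [hg]
      rw [h3, h4]
      simp
      ring
    rw [key, P.nrm_mul, (rot_spec P _ _).2.2.1, det_UU P n, mul_one]


/-- The determinant identity. -/
theorem det_cons (P : Peel K) (n : ℕ) (u : Fin (n + 1) → K) (Y : Fin n → Fin (n + 1) → K) :
    P.nrm (Matrix.det (Matrix.of (Fin.cons u Y : Fin (n + 1) → Fin (n + 1) → K))) =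
      P.N (n + 1) u * P.nrm (Matrix.det (Matrix.of fun i j : Fin n => (Y i ᵥ* UU P n u) j.succ)) := by
  have h1 : P.nrm (Matrix.det (Matrix.of (Fin.cons u Y : Fin (n + 1) → Fin (n + 1) → K))) =
      P.nrm (Matrix.det (Matrix.of (Fin.cons u Y : Fin (n + 1) → Fin (n + 1) → K) * UU P n u)) := by
    rw [Matrix.det_mul, P.nrm_mul, det_UU, mul_one]
  have hrow : ∀ (i j : Fin (n + 1)), (Matrix.of (Fin.cons u Y : Fin (n + 1) → Fin (n + 1) → K) *
      UU P n u) i j = ((Fin.cons u Y : Fin (n + 1) → Fin (n + 1) → K) i ᵥ* UU P n u) j := by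
    intro i j
    rfl
  rw [h1, Matrix.det_succ_row_zero, Fin.sum_univ_succ]
  have h2 : ∑ i : Fin n, (-1 : K) ^ ((i.succ : Fin (n + 1)) : ℕ) *
      (Matrix.of (Fin.cons u Y : Fin (n + 1) → Fin (n + 1) → K) * UU P n u) 0 i.succ *
      ((Matrix.of (Fin.cons u Y : Fin (n + 1) → Fin (n + 1) → K) * UU P n u).submatrix Fin.succ
        (i.succ : Fin (n + 1)).succAbove).det = 0 := by
    refine Finset.sum_eq_zero fun i _ => ?_
    rw [hrow, Fin.cons_zero, u_succ, mul_zero, zero_mul]
  rw [h2, add_zero, hrow, Fin.cons_zero]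
  simp only [Fin.val_zero, pow_zero, one_mul]
  rw [P.nrm_mul, u_zero]
  rfl

theorem sub_cons (n : ℕ) (u : Fin (n + 2) → K) (Y : Fin (n + 1) → Fin (n + 2) → K) :
    (fun (i : Fin (n + 1)) (j : Fin (n + 1)) =>
      (Fin.cons u Y : Fin (n + 2) → Fin (n + 2) → K) i.castSucc j.succ) =
    (Fin.cons (Fin.tail u) (fun (i : Fin n) (j : Fin (n + 1)) => Y i.castSucc j.succ) :
      Fin (n + 1) → Fin (n + 1) → K) := by
  funext i j
  refine Fin.cases ?_ (fun i => ?_) i
  · simp [Fin.tail]
  · simp [← Fin.succ_castSucc]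

/-- **Peeling, pointwise.** -/
theorem F_cons (P : Peel K) : ∀ (n : ℕ) (s : ℕ → ℝ) (hs : ∀ i, 0 ≤ s i) (u : Fin (n + 1) → K)
    (Y : Fin n → Fin (n + 1) → K),
    P.F s (n + 1) (Fin.cons u Y) =
      P.W s (n + 1) u * P.F (fun i => s (i + 1)) n (fun i j => (Y i ᵥ* UU P n u) j.succ)
  | 0, s, hs, u, Y => by
    simp only [Peel.F, Peel.W]
    rw [det_cons, ENNReal.mul_rpow_of_nonneg _ _ (hs _)]
    simp [P.nrm_one]
  | n + 1, s, hs, u, Y => by
    rw [Peel.F, det_cons, sub_cons, F_cons P n s hs, ENNReal.mul_rpow_of_nonneg _ _ (hs _)]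
    have h1 : P.W s (n + 1 + 1) u = P.N (n + 1 + 1) u ^ s (n + 1 + 1) * P.W s (n + 1) (Fin.tail u) := rfl
    have h2 : P.F (fun i => s (i + 1)) (n + 1) (fun i j => (Y i ᵥ* UU P (n + 1) u) j.succ) =
        P.nrm (Matrix.det (Matrix.of fun i j : Fin (n + 1) => (Y i ᵥ* UU P (n + 1) u) j.succ)) ^
          s (n + 1 + 1) * P.F (fun i => s (i + 1)) n (fun i j =>
            (Y i.castSucc ᵥ* UU P (n + 1) u) j.succ.succ) := rfl
    have h3 : (fun (i j : Fin n) => (Y i.castSucc ᵥ* UU P (n + 1) u) j.succ.succ) =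
        fun i j => ((fun (j : Fin (n + 1)) => Y i.castSucc j.succ) ᵥ* UU P n (Fin.tail u)) j.succ := by
      funext i j
      rw [vec_two]
      rfl
    rw [h1, h2, h3]
    ring

/-! ### Measures -/

instance (P : Peel K) : IsProbabilityMeasure P.ν := P.prob

theorem split_mp (P : Peel K) (n : ℕ) : MeasurePreserving
    (fun x : Fin (n + 1) → K => (x 0, Fin.tail x)) (Measure.pi fun _ => P.ν)
    (P.ν.prod (Measure.pi fun _ => P.ν)) :=
  measurePreserving_piFinSuccAbove (fun _ : Fin (n + 1) => P.ν) 0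

theorem join_mp (P : Peel K) (n : ℕ) : MeasurePreserving
    (fun x : K × (Fin n → K) => (Fin.cons x.1 x.2 : Fin (n + 1) → K))
    (P.ν.prod (Measure.pi fun _ => P.ν)) (Measure.pi fun _ => P.ν) := by
  have h := (measurePreserving_piFinSuccAbove (fun _ : Fin (n + 1) => P.ν) 0).symm
  have e : (⇑(MeasurableEquiv.piFinSuccAbove (fun _ : Fin (n + 1) => K) 0).symm) =
      (fun x : K × (Fin n → K) => (Fin.cons x.1 x.2 : Fin (n + 1) → K)) := by
    funext x
    simp [MeasurableEquiv.piFinSuccAbove, Fin.insertNthEquiv]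
  rw [e] at h
  exact h

theorem UU_mp (P : Peel K) : ∀ (n : ℕ) (u : Fin (n + 1) → K), MeasurePreserving
    (fun y : Fin (n + 1) → K => y ᵥ* UU P n u) (Measure.pi fun _ => P.ν) (Measure.pi fun _ => P.ν)
  | 0, u => by
    have : (fun y : Fin 1 → K => y ᵥ* UU P 0 u) = id := by
      funext y
      simp [UU]
    rw [this]
    exact MeasurePreserving.id _
  | n + 1, u => by
    set g := (Fin.tail u ᵥ* UU P n (Fin.tail u)) 0 with hg
    have hA := split_mp P (n + 1)
    have hB := (MeasurePreserving.id P.ν).prod (UU_mp P n (Fin.tail u))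
    have hC := (MeasurePreserving.id P.ν).prod (split_mp P n)
    have hD := (measurePreserving_prodAssoc P.ν P.ν (Measure.pi fun _ : Fin n => P.ν)).symm
    have hE := (rot_spec P (u 0) g).2.2.2.prod (MeasurePreserving.id (Measure.pi fun _ : Fin n => P.ν))
    have hF := measurePreserving_prodAssoc P.ν P.ν (Measure.pi fun _ : Fin n => P.ν)
    have hG := (MeasurePreserving.id P.ν).prod (join_mp P n)
    have hH := join_mp P (n + 1)
    have h := hH.comp (hG.comp (hF.comp (hE.comp (hD.comp (hC.comp (hB.comp hA))))))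
    refine (congrArg (fun f => MeasurePreserving f (Measure.pi fun _ : Fin (n + 2) => P.ν)
      (Measure.pi fun _ : Fin (n + 2) => P.ν)) ?_).mp h
    funext y
    funext j
    refine Fin.cases ?_ (fun j => ?_) j
    · rw [vec_zero]
      rfl
    · refine Fin.cases ?_ (fun j => ?_) j
      · have h1 : (Fin.succ 0 : Fin (n + 2)) = 1 := rfl
        rw [h1, vec_one]
        rfl
      · rw [vec_two]
        rfl

theorem tail_mp (P : Peel K) (n : ℕ) : MeasurePreserving
    (fun x : Fin (n + 1) → K => Fin.tail x) (Measure.pi fun _ => P.ν)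
    (Measure.pi fun _ => P.ν) :=
  measurePreserving_snd.comp (split_mp P n)

theorem rows_mp (P : Peel K) (n : ℕ) (u : Fin (n + 1) → K) : MeasurePreserving
    (fun (Y : Fin n → Fin (n + 1) → K) (i j : Fin n) => (Y i ᵥ* UU P n u) j.succ)
    (Measure.pi fun _ => Measure.pi fun _ => P.ν) (Measure.pi fun _ => Measure.pi fun _ => P.ν) := by
  have h := (tail_mp P n).comp (UU_mp P n u)
  exact measurePreserving_pi _ _ (fun _ : Fin n => h)

theorem F_meas (P : Peel K) : ∀ (n : ℕ) (s : ℕ → ℝ), Measurable (P.F s n)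
  | 0, s => measurable_const
  | n + 1, s => by
    have h1 : Measurable fun X : Fin (n + 1) → Fin (n + 1) → K => (fun (i j : Fin n) =>
        X i.castSucc j.succ) := by fun_prop
    exact ((P.meas_det (n + 1)).pow_const _).mul ((F_meas P n s).comp h1)

theorem N_meas (P : Peel K) : ∀ (n : ℕ), Measurable (P.N n)
  | 0 => measurable_const
  | n + 1 => by
    have h1 : Measurable fun u : Fin (n + 1) → K => Fin.tail u := by
      unfold Fin.tail
      fun_prop
    exact P.meas_M.comp ((P.meas_nrm.comp (measurable_pi_apply 0)).prodMk ((N_meas P n).comp h1))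

theorem W_meas (P : Peel K) : ∀ (n : ℕ) (s : ℕ → ℝ), Measurable (P.W s n)
  | 0, s => measurable_const
  | n + 1, s => by
    have h1 : Measurable fun u : Fin (n + 1) → K => Fin.tail u := by
      unfold Fin.tail
      fun_prop
    exact ((N_meas P (n + 1)).pow_const _).mul ((W_meas P n s).comp h1)

/-- The integral of the product of the powers of the nested minors. -/
noncomputable def Peel.I (P : Peel K) (s : ℕ → ℝ) (n : ℕ) : ℝ≥0∞ :=
  ∫⁻ X, P.F s n X ∂(Measure.pi fun _ : Fin n => Measure.pi fun _ : Fin n => P.ν)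

/-- The integral over one row. -/
noncomputable def Peel.J (P : Peel K) (s : ℕ → ℝ) (n : ℕ) : ℝ≥0∞ :=
  ∫⁻ u, P.W s n u ∂(Measure.pi fun _ : Fin n => P.ν)

theorem I_zero (P : Peel K) (s : ℕ → ℝ) : P.I s 0 = 1 := by
  simp [Peel.I, Peel.F]

/-- **Peeling off a row.** -/
theorem I_succ (P : Peel K) (s : ℕ → ℝ) (hs : ∀ i, 0 ≤ s i) (n : ℕ) :
    P.I s (n + 1) = P.J s (n + 1) * P.I (fun i => s (i + 1)) n := by
  have h1 := (measurePreserving_piFinSuccAbove
    (fun _ : Fin (n + 1) => Measure.pi fun _ : Fin (n + 1) => P.ν) 0).symm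
  have h2 : P.I s (n + 1) = ∫⁻ z : (Fin (n + 1) → K) × (Fin n → Fin (n + 1) → K),
      P.F s (n + 1) (Fin.cons z.1 z.2) ∂((Measure.pi fun _ => P.ν).prod
        (Measure.pi fun _ => Measure.pi fun _ => P.ν)) := by
    rw [Peel.I, ← h1.lintegral_comp (F_meas P (n + 1) s)]
    refine lintegral_congr fun z => ?_
    simp [MeasurableEquiv.piFinSuccAbove, Fin.insertNthEquiv]
  have hm : Measurable fun z : (Fin (n + 1) → K) × (Fin n → Fin (n + 1) → K) =>
      P.F s (n + 1) (Fin.cons z.1 z.2) := by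
    have h3 : Measurable fun z : (Fin (n + 1) → K) × (Fin n → Fin (n + 1) → K) =>
        (Fin.cons z.1 z.2 : Fin (n + 1) → Fin (n + 1) → K) := by
      refine measurable_pi_lambda _ fun i => ?_
      refine Fin.cases ?_ (fun i => ?_) i
      · simp only [Fin.cons_zero]
        exact measurable_fst
      · simp only [Fin.cons_succ]
        exact (measurable_pi_apply i).comp measurable_snd
    exact (F_meas P (n + 1) s).comp h3
  rw [h2, lintegral_prod _ hm.aemeasurable]
  have h4 : ∀ u : Fin (n + 1) → K, ∫⁻ Y : Fin n → Fin (n + 1) → K, P.F s (n + 1) (Fin.cons u Y)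
      ∂(Measure.pi fun _ => Measure.pi fun _ => P.ν) = P.W s (n + 1) u *
        P.I (fun i => s (i + 1)) n := by
    intro u
    have h5 : ∀ Y : Fin n → Fin (n + 1) → K, P.F s (n + 1) (Fin.cons u Y) =
        P.W s (n + 1) u * P.F (fun i => s (i + 1)) n (fun i j => (Y i ᵥ* UU P n u) j.succ) :=
      fun Y => F_cons P n s hs u Y
    simp only [h5]
    have h6 := (rows_mp P n u).lintegral_comp (F_meas P n (fun i => s (i + 1)))
    have h7 : Measurable fun Y : Fin n → Fin (n + 1) → K =>
        P.F (fun i => s (i + 1)) n (fun i j => (Y i ᵥ* UU P n u) j.succ) :=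
      (F_meas P n (fun i => s (i + 1))).comp (rows_mp P n u).measurable
    rw [lintegral_const_mul _ h7, h6]
    rfl
  simp only [h4]
  rw [lintegral_mul_const _ (W_meas P (n + 1) s)]
  rfl

end Pool.Agent.K6.H33.NM
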