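import Pool.Agent.K6.H33.NM.Polar
import Pool.Agent.K6.H33.NM.Peel
import Pool.Agent.K1H9.RP.Basic

set_option autoImplicit false

/-! # The complex Gaussian measure -/

namespace Pool.Agent.K6.H33.NM

open MeasureTheory Set
open scoped ENNReal

/-- The density of the Gaussian measure. -/
noncomputable def gd (z : ℂ) : ℝ≥0∞ := ENNReal.ofReal (Real.pi⁻¹ * Real.exp (-‖z‖ ^ 2))

theorem gd_meas : Measurable gd := by unfold gd; fun_prop

noncomputable def gm : Measure ℂ := (volume : Measure ℂ).withDensity gd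

theorem gm_prob : IsProbabilityMeasure gm := by
  refine ⟨?_⟩
  rw [gm, withDensity_apply _ MeasurableSet.univ, Measure.restrict_univ]
  have h1 := Complex.integral_exp_neg_rpow (p := 2) (by norm_num)
  have h2 : ∫ x : ℂ, Real.exp (-‖x‖ ^ (2 : ℝ)) = Real.pi := by
    rw [h1]
    norm_num [Real.Gamma_two]
  have h3 : ∫ x : ℂ, Real.pi⁻¹ * Real.exp (-‖x‖ ^ 2) = 1 := by
    rw [integral_const_mul]
    have : ∀ x : ℂ, Real.exp (-‖x‖ ^ 2) = Real.exp (-‖x‖ ^ (2 : ℝ)) := by
      intro x
      rw [Real.rpow_two]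
    simp only [this]
    rw [h2]
    field_simp
  have hi : Integrable fun x : ℂ => Real.pi⁻¹ * Real.exp (-‖x‖ ^ 2) := by
    by_contra hn
    rw [integral_undef hn] at h3
    norm_num at h3
  unfold gd
  rw [← ofReal_integral_eq_lintegral_ofReal hi (Filter.Eventually.of_forall fun x => by positivity),
    h3, ENNReal.ofReal_one]

/-- withDensity and measure preserving maps -/
theorem mp_density {E : Type} [MeasurableSpace E] {μ : Measure E} {T : E → E}
    (hT : MeasurePreserving T μ μ) (f : E → ℝ≥0∞) (hf : Measurable f) (h : ∀ x, f (T x) = f x) :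
    MeasurePreserving T (μ.withDensity f) (μ.withDensity f) := by
  refine ⟨hT.measurable, ?_⟩
  ext s hs
  rw [Measure.map_apply hT.measurable hs, withDensity_apply _ hs,
    withDensity_apply _ (hT.measurable hs)]
  have h1 := hT.setLIntegral_comp_preimage hs hf
  rw [← h1]
  simp only [h]

/-- Unitary substitutions of `ℂ × ℂ` preserve the volume. -/
theorem unitary_mp (T : ℂ × ℂ →ₗ[ℝ] ℂ × ℂ)
    (h : ∀ x, ‖(T x).1‖ ^ 2 + ‖(T x).2‖ ^ 2 = ‖x.1‖ ^ 2 + ‖x.2‖ ^ 2) :
    MeasurePreserving T (volume : Measure (ℂ × ℂ)) volume := by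
  have hcont : Continuous T := T.continuous_of_finiteDimensional
  have hdet : LinearMap.det T ≠ 0 := by
    intro h0
    have h1 := LinearMap.bot_lt_ker_of_det_eq_zero h0
    have h2 : LinearMap.ker T = ⊥ := by
      rw [LinearMap.ker_eq_bot']
      intro x hx
      have h3 := h x
      rw [hx] at h3
      simp only [Prod.fst_zero, Prod.snd_zero, norm_zero] at h3
      have h4 : ‖x.1‖ = 0 := by nlinarith [norm_nonneg x.1, norm_nonneg x.2]
      have h5 : ‖x.2‖ = 0 := by nlinarith [norm_nonneg x.1, norm_nonneg x.2]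
      exact Prod.ext (norm_eq_zero.1 h4) (norm_eq_zero.1 h5)
    rw [h2] at h1
    exact lt_irrefl _ h1
  refine ⟨hcont.measurable, ?_⟩
  haveI : (volume : Measure (ℂ × ℂ)).IsAddHaarMeasure := by
    rw [Measure.volume_eq_prod]
    infer_instance
  have h1 := Measure.map_linearMap_addHaar_eq_smul_addHaar (volume : Measure (ℂ × ℂ)) hdet
  set B : Set (ℂ × ℂ) := {x | ‖x.1‖ ^ 2 + ‖x.2‖ ^ 2 < 1} with hB
  have hopen : IsOpen B := isOpen_lt (by fun_prop) continuous_const
  have hpos : 0 < (volume : Measure (ℂ × ℂ)) B := hopen.measure_pos _ ⟨0, by simp [hB]⟩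
  have hfin : (volume : Measure (ℂ × ℂ)) B < ∞ := by
    refine Bornology.IsBounded.measure_lt_top ?_
    refine (Metric.isBounded_closedBall (x := (0 : ℂ × ℂ)) (r := 1)).subset ?_
    intro x hx
    have hx' : ‖x.1‖ ^ 2 + ‖x.2‖ ^ 2 < 1 := hx
    rw [mem_closedBall_zero_iff, Prod.norm_def, sup_le_iff]
    constructor
    · nlinarith [norm_nonneg x.1, norm_nonneg x.2, sq_nonneg (‖x.1‖ - 1), sq_nonneg ‖x.2‖]
    · nlinarith [norm_nonneg x.1, norm_nonneg x.2, sq_nonneg (‖x.2‖ - 1), sq_nonneg ‖x.1‖]
  have h2 : Measure.map T volume B = (volume : Measure (ℂ × ℂ)) B := by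
    rw [Measure.map_apply hcont.measurable hopen.measurableSet]
    congr 1
    ext x
    simp only [hB, mem_preimage, mem_setOf_eq, h x]
  rw [h1, Measure.smul_apply, smul_eq_mul] at h2
  have h3 : ENNReal.ofReal |(LinearMap.det T)⁻¹| = 1 := by
    have h4 : ENNReal.ofReal |(LinearMap.det T)⁻¹| * volume B = 1 * volume B := by rw [h2, one_mul]
    exact (ENNReal.mul_left_inj hpos.ne' hfin.ne).1 h4
  rw [h1, h3, one_smul]

theorem nsq (z : ℂ) : ‖z‖ₑ ^ 2 = ENNReal.ofReal (‖z‖ ^ 2) := by
  rw [← ofReal_norm_eq_enorm, ENNReal.ofReal_pow (norm_nonneg _)]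

/-- The Gaussian data. -/
noncomputable def PC : Peel ℂ where
  ν := gm
  prob := gm_prob
  nrm := fun z => ‖z‖ₑ ^ 2
  M := fun a b => a + b
  M_zero := fun a => add_zero a
  nrm_mul := fun x y => by rw [enorm_mul, mul_pow]
  nrm_one := by simp
  meas_det := fun n => by
    have h1 : Continuous fun X : Fin n → Fin n → ℂ => Matrix.det (Matrix.of X) :=
      Continuous.matrix_det (by fun_prop)
    exact (h1.enorm.measurable).pow_const 2
  meas_nrm := by fun_prop
  meas_M := by fun_prop
  rot := fun g u => by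
    set r : ℝ := Real.sqrt (‖g‖ ^ 2 + ‖u‖ ^ 2) with hr
    have hr2 : r ^ 2 = ‖g‖ ^ 2 + ‖u‖ ^ 2 := Real.sq_sqrt (by positivity)
    by_cases h0 : r = 0
    · rw [h0] at hr2
      have hg : g = 0 := by
        rw [← norm_eq_zero]
        nlinarith [norm_nonneg g, norm_nonneg u]
      have hu : u = 0 := by
        rw [← norm_eq_zero]
        nlinarith [norm_nonneg g, norm_nonneg u]
      refine ⟨1, 0, 0, 1, by simp [hu], by simp [hu], by simp, ?_⟩
      have e : (fun p : ℂ × ℂ => (p.1 * 1 + p.2 * 0, p.1 * 0 + p.2 * 1)) = id := by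
        funext p
        simp
      rw [e]
      exact MeasurePreserving.id (gm.prod gm)
    · have hrc : (r : ℂ) ≠ 0 := by exact_mod_cast h0
      have hrc2 : (r : ℂ) ^ 2 = g * (starRingEnd ℂ) g + u * (starRingEnd ℂ) u := by
        rw [Complex.mul_conj, Complex.mul_conj, Complex.normSq_eq_norm_sq, Complex.normSq_eq_norm_sq]
        exact_mod_cast hr2
      refine ⟨(starRingEnd ℂ) g / r, (starRingEnd ℂ) u / r, -u / r, g / r, by ring, ?_, ?_, ?_⟩
      · have h1 : g * ((starRingEnd ℂ) g / r) + u * ((starRingEnd ℂ) u / r) = r := by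
          have : g * ((starRingEnd ℂ) g / r) + u * ((starRingEnd ℂ) u / r) = (r : ℂ) ^ 2 / r := by
            rw [hrc2]; ring
          rw [this]
          field_simp
        rw [h1, nsq, nsq, nsq, ← ENNReal.ofReal_add (by positivity) (by positivity),
          Complex.norm_real, Real.norm_eq_abs, sq_abs, hr2]
      · have h1 : (starRingEnd ℂ) g / r * (g / r) - -u / r * ((starRingEnd ℂ) u / r) = 1 := by
          have : (starRingEnd ℂ) g / r * (g / r) - -u / r * ((starRingEnd ℂ) u / r) =
              (g * (starRingEnd ℂ) g + u * (starRingEnd ℂ) u) / (r : ℂ) ^ 2 := by ring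
          rw [this, ← hrc2]
          exact div_self (pow_ne_zero 2 hrc)
        rw [h1]
        simp
      · set T : ℂ × ℂ →ₗ[ℝ] ℂ × ℂ :=
          { toFun := fun p => (p.1 * ((starRingEnd ℂ) g / r) + p.2 * ((starRingEnd ℂ) u / r),
              p.1 * (-u / r) + p.2 * (g / r))
            map_add' := fun x y => by
              simp only [Prod.fst_add, Prod.snd_add, Prod.mk_add_mk]
              congr 1 <;> ring
            map_smul' := fun c x => by
              simp only [Prod.smul_fst, Prod.smul_snd, RingHom.id_apply, Prod.smul_mk,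
                Complex.real_smul]
              congr 1 <;> ring } with hT
        have hn : ∀ x, ‖(T x).1‖ ^ 2 + ‖(T x).2‖ ^ 2 = ‖x.1‖ ^ 2 + ‖x.2‖ ^ 2 := by
          intro x
          have h1 : ((‖(T x).1‖ ^ 2 + ‖(T x).2‖ ^ 2 : ℝ) : ℂ) = ((‖x.1‖ ^ 2 + ‖x.2‖ ^ 2 : ℝ) : ℂ) := by
            have h2 : ∀ z : ℂ, ((‖z‖ ^ 2 : ℝ) : ℂ) = z * (starRingEnd ℂ) z := by
              intro z
              rw [Complex.mul_conj, Complex.normSq_eq_norm_sq]
            rw [Complex.ofReal_add, Complex.ofReal_add, h2, h2, h2, h2]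
            have h3 : (T x).1 = x.1 * ((starRingEnd ℂ) g / r) + x.2 * ((starRingEnd ℂ) u / r) := rfl
            have h4 : (T x).2 = x.1 * (-u / r) + x.2 * (g / r) := rfl
            rw [h3, h4]
            simp only [map_add, map_mul, map_div₀, map_neg, Complex.conj_conj, Complex.conj_ofReal]
            have h5 : ∀ a b c d : ℂ, (a * ((starRingEnd ℂ) g / r) + b * ((starRingEnd ℂ) u / r)) *
                (c * (g / r) + d * (u / r)) + (a * (-u / r) + b * (g / r)) *
                (c * (-(starRingEnd ℂ) u / r) + d * ((starRingEnd ℂ) g / r)) =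
                (a * c + b * d) * ((g * (starRingEnd ℂ) g + u * (starRingEnd ℂ) u) / (r : ℂ) ^ 2) := by
              intro a b c d
              field_simp
              ring
            rw [h5, ← hrc2, div_self (pow_ne_zero 2 hrc), mul_one]
          exact_mod_cast h1
        have h1 := unitary_mp T hn
        have h2 : gm.prod gm = (volume : Measure (ℂ × ℂ)).withDensity (fun z => gd z.1 * gd z.2) := by
          rw [gm, prod_withDensity gd_meas gd_meas]
          rfl
        have h3 : MeasurePreserving T (gm.prod gm) (gm.prod gm) := by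
          rw [h2]
          refine mp_density h1 _ ((gd_meas.comp measurable_fst).mul (gd_meas.comp measurable_snd)) ?_
          intro x
          have h4 : ∀ x : ℂ × ℂ, gd x.1 * gd x.2 =
              ENNReal.ofReal (Real.pi⁻¹ ^ 2 * Real.exp (-(‖x.1‖ ^ 2 + ‖x.2‖ ^ 2))) := by
            intro x
            unfold gd
            rw [← ENNReal.ofReal_mul (by positivity), neg_add, Real.exp_add]
            congr 1
            ring_nf
          have h5 := h4 (T x)
          rw [hn x, ← h4 x] at h5
          exact h5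
        exact h3

end Pool.Agent.K6.H33.NM
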