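import Pool.Agent.K6.H33.NM.Peel

set_option autoImplicit false

/-! # Leading principal minors -/

namespace Pool.Agent.K6.H33.NM

open MeasureTheory Set
open scoped ENNReal

/-- The leading principal minor of size `k + 1` of a matrix. -/
noncomputable def lead {R : Type} [CommRing R] {n : ℕ} (X : Fin n → Fin n → R) (k : Fin n) : R :=
  Matrix.det (Matrix.of fun i j : Fin ((k : ℕ) + 1) =>
    X (Fin.castLE k.isLt i) (Fin.castLE k.isLt j))

variable {K : Type} [CommRing K] [MeasurableSpace K]

theorem lead_castSucc {n : ℕ} (X : Fin (n + 1) → Fin (n + 1) → K) (k : Fin n) :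
    lead X k.castSucc = lead (fun i j : Fin n => X i.castSucc j.castSucc) k := rfl

theorem lead_last {n : ℕ} (X : Fin (n + 1) → Fin (n + 1) → K) :
    lead X (Fin.last n) = Matrix.det (Matrix.of X) := by
  unfold lead
  rfl

theorem nrm_neg_one (P : Peel K) : P.nrm (-1) = 1 := by
  have h : P.nrm (-1) * P.nrm (-1) = 1 := by rw [← P.nrm_mul]; simp [P.nrm_one]
  rcases lt_trichotomy (P.nrm (-1)) 1 with h1 | h1 | h1
  · exfalso
    have h2 : P.nrm (-1) * P.nrm (-1) < 1 := by
      calc P.nrm (-1) * P.nrm (-1) ≤ P.nrm (-1) * 1 := mul_le_mul_right h1.le _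
        _ = P.nrm (-1) := mul_one _
        _ < 1 := h1
    exact absurd h h2.ne
  · exact h1
  · exfalso
    have h2 : 1 < P.nrm (-1) * P.nrm (-1) := by
      calc 1 < P.nrm (-1) := h1
        _ = P.nrm (-1) * 1 := (mul_one _).symm
        _ ≤ P.nrm (-1) * P.nrm (-1) := mul_le_mul_right h1.le _
    exact absurd h h2.ne'

theorem nrm_rev (P : Peel K) {n : ℕ} (X : Fin n → Fin n → K) :
    P.nrm (Matrix.det (Matrix.of fun i j => X i (Fin.rev j))) = P.nrm (Matrix.det (Matrix.of X)) := by
  have h1 : (Matrix.of fun i j => X i (Fin.rev j)) = (Matrix.of X).submatrix id Fin.revPerm := rfl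
  rw [h1, Matrix.det_permute', P.nrm_mul]
  rcases Int.units_eq_one_or (Equiv.Perm.sign (Fin.revPerm (n := n))) with h | h
  · rw [h]; simp [P.nrm_one]
  · rw [h]
    simp [nrm_neg_one]

theorem F_lead (P : Peel K) : ∀ (n : ℕ) (s : ℕ → ℝ) (X : Fin n → Fin n → K),
    P.F s n (fun i j => X i (Fin.rev j)) = ∏ k : Fin n, P.nrm (lead X k) ^ s ((k : ℕ) + 1)
  | 0, s, X => by simp [Peel.F]
  | n + 1, s, X => by
    rw [Fin.prod_univ_castSucc, Peel.F, nrm_rev]
    have h1 : P.F s n (fun (i j : Fin n) => X i.castSucc (Fin.rev j.succ)) =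
        ∏ k : Fin n, P.nrm (lead (fun i j : Fin n => X i.castSucc j.castSucc) k) ^ s ((k : ℕ) + 1) := by
      have h2 : (fun (i j : Fin n) => X i.castSucc (Fin.rev j.succ)) =
          fun i j => X i.castSucc (Fin.castSucc (Fin.rev j)) := by
        funext i j
        rw [Fin.rev_succ]
      rw [h2]
      exact F_lead P n s (fun i j => X i.castSucc j.castSucc)
    rw [h1]
    simp only [lead_castSucc, lead_last, Fin.val_castSucc, Fin.val_last]
    ring

theorem mp_unc (P : Peel K) (n : ℕ) : MeasurePreserving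
    (fun (X : Fin n → Fin n → K) (q : Fin n × Fin n) => X q.1 (Fin.rev q.2))
    (Measure.pi fun _ => Measure.pi fun _ => P.ν) (Measure.pi fun _ => P.ν) := by
  have hm : Measurable (fun (X : Fin n → Fin n → K) (q : Fin n × Fin n) => X q.1 (Fin.rev q.2)) := by
    fun_prop
  refine ⟨hm, (Measure.pi_eq fun s hs => ?_).symm⟩
  rw [Measure.map_apply hm (MeasurableSet.univ_pi hs)]
  have h1 : (fun (X : Fin n → Fin n → K) (q : Fin n × Fin n) => X q.1 (Fin.rev q.2)) ⁻¹'
      (univ.pi s) = univ.pi fun i => univ.pi fun j => s (i, Fin.rev j) := by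
    ext X
    simp only [mem_preimage, mem_univ_pi]
    constructor
    · intro h i j
      have := h (i, Fin.rev j)
      simpa using this
    · intro h q
      have := h q.1 (Fin.rev q.2)
      simpa using this
  rw [h1, Measure.pi_pi]
  simp only [Measure.pi_pi]
  rw [Fintype.prod_prod_type]
  refine Finset.prod_congr rfl fun i _ => ?_
  exact (Equiv.prod_comp Fin.revPerm (fun j => P.ν (s (i, j))))

theorem meas_lead (P : Peel K) {n : ℕ} (k : Fin n) :
    Measurable fun x : Fin n × Fin n → K => P.nrm (lead (fun i j => x (i, j)) k) := by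
  have h1 : Measurable fun (x : Fin n × Fin n → K) (i j : Fin ((k : ℕ) + 1)) =>
      x (Fin.castLE k.isLt i, Fin.castLE k.isLt j) := by fun_prop
  exact (P.meas_det ((k : ℕ) + 1)).comp h1

/-- **The integral over the matrices.** -/
theorem int_lead (P : Peel K) (n : ℕ) (s : ℕ → ℝ) :
    ∫⁻ x : Fin n × Fin n → K, ∏ k : Fin n, P.nrm (lead (fun i j => x (i, j)) k) ^ s ((k : ℕ) + 1)
      ∂(Measure.pi fun _ => P.ν) = P.I s n := by
  have hm : Measurable fun x : Fin n × Fin n → K =>
      ∏ k : Fin n, P.nrm (lead (fun i j => x (i, j)) k) ^ s ((k : ℕ) + 1) :=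
    Finset.measurable_prod _ fun k _ => (meas_lead P k).pow_const _
  rw [← (mp_unc P n).lintegral_comp hm, Peel.I]
  refine lintegral_congr fun X => ?_
  have h1 := F_lead P n s (fun i j => X i (Fin.rev j))
  simp only [Fin.rev_rev] at h1
  exact h1.symm

end Pool.Agent.K6.H33.NM
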