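import Pool.Agent.K6.H33.NM.Peel
import Pool.Agent.TH192.PA.YInt

set_option autoImplicit false
set_option linter.unusedSectionVars false

/-! # The Haar measure of the `p`-adic integers -/

namespace Pool.Agent.K6.H33.NM

open MeasureTheory Set Pool.Agent.W427.SMC Pool.Agent.TH192.PA
open scoped ENNReal NNReal

attribute [local instance] msZ bsZ

section

variable (p : ℕ) [Fact p.Prime]

theorem shear_mp (c : ℤ_[p]) : MeasurePreserving
    (fun x : ℤ_[p] × ℤ_[p] => (x.1, c * x.1 + x.2)) ((mu p).prod (mu p)) ((mu p).prod (mu p)) := by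
  refine (MeasurePreserving.id (mu p)).skew_product (g := fun x y => c * x + y) ?_ ?_
  · have : Continuous (Function.uncurry fun x y : ℤ_[p] => c * x + y) := by
      unfold Function.uncurry
      fun_prop
    exact this.measurable
  · exact Filter.Eventually.of_forall fun x => map_add_left_eq_self (mu p) (c * x)

theorem swap_mp : MeasurePreserving (Prod.swap : ℤ_[p] × ℤ_[p] → ℤ_[p] × ℤ_[p])
    ((mu p).prod (mu p)) ((mu p).prod (mu p)) := Measure.measurePreserving_swap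

/-- The `p`-adic data. -/
noncomputable def PP : Peel ℤ_[p] where
  ν := mu p
  prob := inferInstance
  nrm := fun z => ‖z‖ₑ
  M := fun a b => max a b
  M_zero := fun a => max_eq_left zero_le
  nrm_mul := fun x y => enorm_mul x y
  nrm_one := by simp [enorm]
  meas_det := fun n => by
    have h1 : Continuous fun X : Fin n → Fin n → ℤ_[p] => Matrix.det (Matrix.of X) :=
      Continuous.matrix_det (by fun_prop)
    exact h1.enorm.measurable
  meas_nrm := by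
    have h1 : Continuous fun z : ℤ_[p] => ‖z‖ₑ := continuous_enorm
    exact h1.measurable
  meas_M := by fun_prop
  rot := fun g u => by
    have hen : ∀ a b : ℤ_[p], ‖a‖ ≤ ‖b‖ → ‖a‖ₑ ≤ ‖b‖ₑ := by
      intro a b h
      rw [← ofReal_norm_eq_enorm, ← ofReal_norm_eq_enorm]
      exact ENNReal.ofReal_le_ofReal h
    rcases le_or_gt ‖u‖ ‖g‖ with h | h
    · obtain ⟨c, hc⟩ := dvd_of_norm_le p u g h
      refine ⟨1, 0, -c, 1, by rw [hc]; ring, ?_, by simp [enorm], ?_⟩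
      · rw [mul_one, mul_zero, add_zero]
        exact (max_eq_left (hen _ _ h)).symm
      · have e : (fun q : ℤ_[p] × ℤ_[p] => (q.1 * 1 + q.2 * 0, q.1 * -c + q.2 * 1)) =
            fun q => (q.1, -c * q.1 + q.2) := by
          funext q
          ext <;> simp [mul_comm]
        rw [e]
        exact shear_mp p (-c)
    · obtain ⟨c, hc⟩ := dvd_of_norm_le p g u h.le
      refine ⟨0, 1, 1, -c, by rw [hc]; ring, ?_, by simp [enorm], ?_⟩
      · rw [mul_one, mul_zero, zero_add]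
        exact (max_eq_right (hen _ _ h.le)).symm
      · have e : (fun q : ℤ_[p] × ℤ_[p] => (q.1 * 0 + q.2 * 1, q.1 * 1 + q.2 * -c)) =
            (fun q => (q.1, -c * q.1 + q.2)) ∘ Prod.swap := by
          funext q
          ext <;> simp [mul_comm, add_comm]
        rw [e]
        exact (shear_mp p (-c)).comp (swap_mp p)

/-- `s 1 + ... + s m` -/
noncomputable def TS (s : ℕ → ℝ) (m : ℕ) : ℝ := ∑ i ∈ Finset.range m, s (i + 1)

theorem TS_succ (s : ℕ → ℝ) (m : ℕ) : TS s (m + 1) = TS s m + s (m + 1) := by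
  unfold TS
  rw [Finset.sum_range_succ]

theorem TS_nonneg (s : ℕ → ℝ) (hs : ∀ i, 0 ≤ s i) (m : ℕ) : 0 ≤ TS s m :=
  Finset.sum_nonneg fun i _ => hs _

theorem enorm_le_one' (x : ℤ_[p]) : ‖x‖ₑ ≤ 1 := by
  rw [← ofReal_norm_eq_enorm]
  exact ENNReal.ofReal_le_one.2 (PadicInt.norm_le_one x)

theorem PP_N_le : ∀ (m : ℕ) (v : Fin m → ℤ_[p]), (PP p).N m v ≤ 1
  | 0, v => zero_le
  | m + 1, v => max_le (enorm_le_one' p _) (PP_N_le m _)

theorem PP_le_N : ∀ (m : ℕ) (v : Fin m → ℤ_[p]) (i : Fin m), ‖v i‖ₑ ≤ (PP p).N m v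
  | 0, v, i => i.elim0
  | m + 1, v, i => by
    refine Fin.cases ?_ (fun i => ?_) i
    · exact le_max_left _ _
    · exact (PP_le_N m (Fin.tail v) i).trans (le_max_right _ _)

theorem enorm_p : ‖(p : ℤ_[p])‖ₑ = ((p : ℝ≥0∞))⁻¹ := by
  have hp : (0 : ℝ) < p := by exact_mod_cast (Fact.out : p.Prime).pos
  rw [← ofReal_norm_eq_enorm, PadicInt.norm_p, ENNReal.ofReal_inv_of_pos hp, ENNReal.ofReal_natCast]

theorem PP_N_smul : ∀ (m : ℕ) (v : Fin m → ℤ_[p]), (PP p).N m (fun i => (p : ℤ_[p]) * v i) =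
    ((p : ℝ≥0∞))⁻¹ * (PP p).N m v
  | 0, v => by simp [Peel.N]
  | m + 1, v => by
    have h1 : (PP p).N (m + 1) (fun i => (p : ℤ_[p]) * v i) =
        max ‖(p : ℤ_[p]) * v 0‖ₑ ((PP p).N m (fun i => (p : ℤ_[p]) * (Fin.tail v) i)) := rfl
    have h2 : (PP p).N (m + 1) v = max ‖v 0‖ₑ ((PP p).N m (Fin.tail v)) := rfl
    have h3 : Monotone fun x : ℝ≥0∞ => ((p : ℝ≥0∞))⁻¹ * x := fun a b h => mul_le_mul_right h _
    rw [h1, h2, PP_N_smul m, enorm_mul, enorm_p]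
    exact (h3.map_max).symm

theorem PP_W_smul (s : ℕ → ℝ) (hs : ∀ i, 0 ≤ s i) : ∀ (m : ℕ) (v : Fin m → ℤ_[p]),
    (PP p).W s m (fun i => (p : ℤ_[p]) * v i) = ((p : ℝ≥0∞))⁻¹ ^ TS s m * (PP p).W s m v
  | 0, v => by simp [Peel.W, TS]
  | m + 1, v => by
    have h1 : (PP p).W s (m + 1) (fun i => (p : ℤ_[p]) * v i) =
        (PP p).N (m + 1) (fun i => (p : ℤ_[p]) * v i) ^ s (m + 1) *
        (PP p).W s m (fun i => (p : ℤ_[p]) * (Fin.tail v) i) := rfl
    have h2 : (PP p).W s (m + 1) v = (PP p).N (m + 1) v ^ s (m + 1) * (PP p).W s m (Fin.tail v) := rfl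
    rw [h1, h2, PP_W_smul s hs m, PP_N_smul, ENNReal.mul_rpow_of_nonneg _ _ (hs _), TS_succ,
      ENNReal.rpow_add_of_nonneg _ _ (TS_nonneg s hs m) (hs _)]
    ring

theorem PP_W_le (s : ℕ → ℝ) (hs : ∀ i, 0 ≤ s i) : ∀ (m : ℕ) (v : Fin m → ℤ_[p]),
    (PP p).W s m v ≤ 1
  | 0, v => le_rfl
  | m + 1, v => mul_le_one' (ENNReal.rpow_le_one (PP_N_le p _ _) (hs _)) (PP_W_le s hs m _)

theorem enorm_unit (w : ZMod p) (hw : w ≠ 0) (z : ℤ_[p]) :
    ‖((w.val : ℕ) : ℤ_[p]) + (p : ℤ_[p]) * z‖ₑ = 1 := by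
  haveI : NeZero p := ⟨(Fact.out : p.Prime).ne_zero⟩
  set x : ℤ_[p] := ((w.val : ℕ) : ℤ_[p]) + (p : ℤ_[p]) * z with hx
  have h1 : PadicInt.toZMod x = w := by
    rw [hx, map_add, map_mul, map_natCast, map_natCast, ZMod.natCast_self, zero_mul, add_zero,
      ZMod.natCast_zmod_val]
  have h2 : IsUnit x := by
    by_contra hn
    have h3 : x ∈ IsLocalRing.maximalIdeal ℤ_[p] := (IsLocalRing.mem_maximalIdeal x).2 hn
    rw [← PadicInt.ker_toZMod] at h3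
    have h4 : PadicInt.toZMod x = 0 := h3
    exact hw (h1.symm.trans h4)
  rw [← ofReal_norm_eq_enorm, PadicInt.isUnit_iff.1 h2, ENNReal.ofReal_one]

/-- The scaling relation. -/
theorem PP_scale (m : ℕ) (h : (Fin (m + 1) → ℤ_[p]) → ℝ≥0∞) (hmeas : Measurable h) (t : ℝ)
    (hh : ∀ v, h (fun i => (p : ℤ_[p]) * v i) = ((p : ℝ≥0∞))⁻¹ ^ t * h v) :
    ∃ S : ℝ≥0∞, ∀ s : ℝ, 0 ≤ s → ∫⁻ v, (PP p).N (m + 1) v ^ s * h v ∂(hm p (Fin (m + 1))) =
      S + ((p : ℝ≥0∞))⁻¹ ^ (m + 1) * (((p : ℝ≥0∞))⁻¹ ^ s * ((p : ℝ≥0∞))⁻¹ ^ t) *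
        ∫⁻ v, (PP p).N (m + 1) v ^ s * h v ∂(hm p (Fin (m + 1))) := by
  classical
  haveI : NeZero p := ⟨(Fact.out : p.Prime).ne_zero⟩
  refine ⟨∑ w ∈ (Finset.univ : Finset (Fin (m + 1) → ZMod p)).erase 0, ((p : ℝ≥0∞)⁻¹) ^ (m + 1) *
    ∫⁻ z, h (fun i => ((w i).val : ℤ_[p]) + (p : ℤ_[p]) * z i) ∂(hm p (Fin (m + 1))), fun s hs => ?_⟩
  have hg : Measurable fun v : Fin (m + 1) → ℤ_[p] => (PP p).N (m + 1) v ^ s * h v :=
    ((N_meas (PP p) (m + 1)).pow_const s).mul hmeas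
  conv_lhs => rw [lintegral_smV p _ hg]
  unfold smV
  rw [← Finset.add_sum_erase Finset.univ _ (Finset.mem_univ (0 : Fin (m + 1) → ZMod p)), add_comm]
  congr 1
  · refine Finset.sum_congr rfl fun w hw => ?_
    rw [Fintype.card_fin]
    congr 1
    refine lintegral_congr fun z => ?_
    have hw0 : w ≠ 0 := Finset.ne_of_mem_erase hw
    obtain ⟨i, hi⟩ : ∃ i, w i ≠ 0 := by
      by_contra hn
      push Not at hn
      exact hw0 (funext hn)
    have h1 : (PP p).N (m + 1) (fun i => ((w i).val : ℤ_[p]) + (p : ℤ_[p]) * z i) = 1 := by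
      refine le_antisymm (PP_N_le p _ _) ?_
      have h2 := PP_le_N p (m + 1) (fun i => ((w i).val : ℤ_[p]) + (p : ℤ_[p]) * z i) i
      rwa [enorm_unit p (w i) hi] at h2
    beta_reduce
    rw [h1, ENNReal.one_rpow, one_mul]
  · rw [Fintype.card_fin, mul_assoc]
    congr 1
    rw [← lintegral_const_mul _ hg]
    refine lintegral_congr fun z => ?_
    have h3 : (fun i => (((0 : Fin (m + 1) → ZMod p) i).val : ℤ_[p]) + (p : ℤ_[p]) * z i) =
        fun i => (p : ℤ_[p]) * z i := by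
      funext i
      simp
    rw [h3]
    beta_reduce
    rw [PP_N_smul, hh, ENNReal.mul_rpow_of_nonneg _ _ hs]
    ring

theorem pinv_rpow (t : ℝ) : ((p : ℝ≥0∞))⁻¹ ^ t = ENNReal.ofReal ((p : ℝ) ^ (-t)) := by
  have hp : (0 : ℝ) < p := by exact_mod_cast (Fact.out : p.Prime).pos
  rw [← ENNReal.ofReal_natCast, ← ENNReal.ofReal_inv_of_pos hp, ENNReal.ofReal_rpow_of_pos (by positivity),
    Real.inv_rpow hp.le, Real.rpow_neg hp.le]

theorem PP_J_succ (s : ℕ → ℝ) (hs : ∀ i, 0 ≤ s i) (m : ℕ) :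
    (1 - (p : ℝ) ^ (-((m : ℝ) + 1 + TS s (m + 1)))) * ((PP p).J s (m + 1)).toReal =
      (1 - (p : ℝ) ^ (-((m : ℝ) + 1 + TS s m))) * ((PP p).J s m).toReal := by
  have hp : (0 : ℝ) < p := by exact_mod_cast (Fact.out : p.Prime).pos
  set h : (Fin (m + 1) → ℤ_[p]) → ℝ≥0∞ := fun v => (PP p).W s m (Fin.tail v) with hh
  have hmeas : Measurable h := (W_meas (PP p) m s).comp (by unfold Fin.tail; fun_prop)
  have hhom : ∀ v, h (fun i => (p : ℤ_[p]) * v i) = ((p : ℝ≥0∞))⁻¹ ^ TS s m * h v :=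
    fun v => PP_W_smul p s hs m (Fin.tail v)
  obtain ⟨S, hS⟩ := PP_scale p m h hmeas (TS s m) hhom
  have e1 : (PP p).J s (m + 1) = ∫⁻ v, (PP p).N (m + 1) v ^ s (m + 1) * h v ∂(hm p (Fin (m + 1))) := rfl
  have e0 : (PP p).J s m = ∫⁻ v, (PP p).N (m + 1) v ^ (0 : ℝ) * h v ∂(hm p (Fin (m + 1))) := by
    have h2 : (PP p).J s m = ∫⁻ v, h v ∂(hm p (Fin (m + 1))) :=
      ((tail_mp (PP p) m).lintegral_comp (W_meas (PP p) m s)).symm
    rw [h2]
    refine lintegral_congr fun v => ?_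
    rw [ENNReal.rpow_zero, one_mul]
  have hle : ∀ r : ℝ, 0 ≤ r → ∫⁻ v, (PP p).N (m + 1) v ^ r * h v ∂(hm p (Fin (m + 1))) ≤ 1 := by
    intro r hr
    calc ∫⁻ v, (PP p).N (m + 1) v ^ r * h v ∂(hm p (Fin (m + 1))) ≤
        ∫⁻ v, 1 ∂(hm p (Fin (m + 1))) := by
          refine lintegral_mono fun v => ?_
          exact mul_le_one' (ENNReal.rpow_le_one (PP_N_le p _ _) hr) (PP_W_le p s hs m _)
      _ = 1 := by simp
  have key : ∀ r : ℝ, 0 ≤ r → (1 - (p : ℝ) ^ (-((m : ℝ) + 1 + (TS s m + r)))) *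
      (∫⁻ v, (PP p).N (m + 1) v ^ r * h v ∂(hm p (Fin (m + 1)))).toReal = S.toReal := by
    intro r hr
    set A := ∫⁻ v, (PP p).N (m + 1) v ^ r * h v ∂(hm p (Fin (m + 1))) with hA
    have hA1 : A ≠ ∞ := ((hle r hr).trans_lt ENNReal.one_lt_top).ne
    have hS1 := hS r hr
    rw [← hA] at hS1
    have hStop : S ≠ ∞ := by
      intro h0
      rw [h0, top_add] at hS1
      exact hA1 hS1
    have h3 : ((p : ℝ≥0∞))⁻¹ ^ (m + 1) * (((p : ℝ≥0∞))⁻¹ ^ r * ((p : ℝ≥0∞))⁻¹ ^ TS s m) =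
        ENNReal.ofReal ((p : ℝ) ^ (-((m : ℝ) + 1 + (TS s m + r)))) := by
      rw [← ENNReal.rpow_natCast, pinv_rpow, pinv_rpow, pinv_rpow, ← ENNReal.ofReal_mul (by positivity),
        ← ENNReal.ofReal_mul (by positivity), ← Real.rpow_add hp, ← Real.rpow_add hp]
      congr 2
      push_cast
      ring
    rw [h3] at hS1
    have h4 := congrArg ENNReal.toReal hS1
    rw [ENNReal.toReal_add hStop (ENNReal.mul_ne_top ENNReal.ofReal_ne_top hA1), ENNReal.toReal_mul,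
      ENNReal.toReal_ofReal (by positivity)] at h4
    linarith
  have k1 := key (s (m + 1)) (hs _)
  have k0 := key 0 le_rfl
  rw [← e1, ← TS_succ] at k1
  rw [← e0, add_zero] at k0
  rw [k1, k0]

end

end Pool.Agent.K6.H33.NM
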