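import Pool.Agent.K6.H33.NM.Poly

set_option autoImplicit false

/-! # Roots of the polynomials of functional equations for the nested minors -/

namespace Pool.Agent.K6.H33.NM

open MeasureTheory Set MvPolynomial
open scoped ENNReal

section

variable {K : Type} [CommRing K] [MeasurableSpace K]

theorem nrm_prod (P : Peel K) {n : ℕ} (a : Fin n → ℕ) (z : Fin n → K) :
    P.nrm (∏ k, z k ^ a k) = ∏ k, P.nrm (z k) ^ a k := by
  set φ : K →* ℝ≥0∞ := { toFun := P.nrm, map_one' := P.nrm_one, map_mul' := P.nrm_mul } with hφ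
  have h1 := map_prod φ (fun k => z k ^ a k) Finset.univ
  simp only [map_pow] at h1
  exact h1

theorem nrm_nested (P : Peel K) {n : ℕ} (a : Fin n → ℕ) (σ : ℝ) (hσ : 0 ≤ σ) (z : Fin n → K) :
    P.nrm (∏ k, z k ^ a k) ^ σ = ∏ k : Fin n, P.nrm (z k) ^ ((ex a ((k : ℕ) + 1) : ℝ) * σ) := by
  rw [nrm_prod, ← ENNReal.prod_rpow_of_nonneg hσ]
  refine Finset.prod_congr rfl fun k _ => ?_
  rw [ex_succ, ENNReal.rpow_mul, ENNReal.rpow_natCast]

theorem int_nested (P : Peel K) {n : ℕ} (a : Fin n → ℕ) (σ : ℝ) (hσ : 0 ≤ σ) :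
    ∫⁻ x : Fin n × Fin n → K, P.nrm (∏ k, lead (fun i j => x (i, j)) k ^ a k) ^ σ
      ∂(Measure.pi fun _ => P.ν) = P.I (fun i => (ex a i : ℝ) * σ) n := by
  rw [← int_lead P n]
  refine lintegral_congr fun x => ?_
  exact nrm_nested P a σ hσ _

end

theorem lead_smul {n : ℕ} (c : ℂ) (x : Fin n → Fin n → ℂ) (k : Fin n) :
    lead (fun i j => c * x i j) k = c ^ ((k : ℕ) + 1) * lead x k := by
  unfold lead
  have h1 : (Matrix.of fun i j : Fin ((k : ℕ) + 1) =>
      c * x (Fin.castLE k.isLt i) (Fin.castLE k.isLt j)) =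
      c • (Matrix.of fun i j : Fin ((k : ℕ) + 1) =>
        x (Fin.castLE k.isLt i) (Fin.castLE k.isLt j)) := by
    ext i j
    simp
  rw [h1, Matrix.det_smul, Fintype.card_fin]

/-- **The roots.** -/
theorem root_nested {n : ℕ} (a : Fin n → ℕ) (b : Polynomial ℂ)
    (hb : Pool.Agent.H628R4.TP.IsBFunction (map (Int.castRingHom ℂ) (nested n a)) b) (r m : ℕ)
    (hrm : r + m + 1 ≤ n) (hA : m + 1 ≤ ∑ i ∈ Finset.range (m + 1), ex a (r + i + 1)) :
    b.eval (((-((m : ℝ) + 1) / ((∑ i ∈ Finset.range (m + 1), ex a (r + i + 1) : ℕ) : ℝ) : ℝ)) : ℂ)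
      = 0 := by
  set A : ℕ := ∑ i ∈ Finset.range (m + 1), ex a (r + i + 1) with hAdef
  have hA0 : (0 : ℝ) < A := by
    have : 0 < A := by omega
    exact_mod_cast this
  haveI : Nonempty (Fin n × Fin n) := ⟨(⟨0, by omega⟩, ⟨0, by omega⟩)⟩
  refine root_hom (map (Int.castRingHom ℂ) (nested n a)) (∑ k : Fin n, ((k : ℕ) + 1) * a k) ?_ b hb
    (fun σ => EI (fun i => (ex a i : ℝ) * σ) n) ?_ ?_ (DI (ex a) n) (DI_diff n _) ?_ _ ?_ ?_
  · intro c x
    rw [eval_nested, eval_nested]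
    rw [← Finset.prod_pow_eq_pow_sum, ← Finset.prod_mul_distrib]
    refine Finset.prod_congr rfl fun k _ => ?_
    have h1 : lead (fun i j => (c • x) (i, j)) k = (c : ℂ) ^ ((k : ℕ) + 1) *
        lead (fun i j => x (i, j)) k := by
      have h2 := lead_smul (c : ℂ) (fun i j => x (i, j)) k
      simpa using h2
    rw [h1, mul_pow, pow_mul]
  · intro σ hσ
    exact (EI_pos n _ fun i => by positivity).le
  · intro σ hσ
    have h1 := int_nested PC a σ hσ.le
    rw [PC_I n _ (fun i => by positivity)] at h1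
    rw [← h1]
    refine lintegral_congr fun x => ?_
    have h2 : PC.nrm (∏ k, lead (fun i j => x (i, j)) k ^ a k) =
        ‖∏ k, lead (fun i j => x (i, j)) k ^ a k‖ₑ ^ 2 := rfl
    rw [h2, eval_nested, ← ENNReal.ofReal_rpow_of_nonneg (by positivity) hσ.le,
      ENNReal.ofReal_pow (norm_nonneg _), ofReal_norm]
  · intro σ hσ
    exact DI_EI σ hσ.le n (ex a)
  · rw [le_div_iff₀ hA0]
    have : ((m + 1 : ℕ) : ℝ) ≤ A := by exact_mod_cast hA
    push_cast at this
    linarith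
  · apply DI_zero _ n (ex a) r m hrm
    rw [← hAdef]
    push_cast
    have : (A : ℂ) ≠ 0 := by exact_mod_cast hA0.ne'
    field_simp
    ring

end Pool.Agent.K6.H33.NM
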