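import Pool.Agent.K6.H33.NM.PA
import Pool.Agent.K6.H33.NM.RootN
import Pool.Agent.W427.SMC.Poin4
import Pool.Agent.W427.SMC.Fin3

set_option autoImplicit false
set_option linter.unusedSectionVars false

/-! # The `p`-adic integral of the nested minors -/

namespace Pool.Agent.K6.H33.NM

open MeasureTheory Set Pool.Agent.W427.SMC Pool.Agent.TH192.PA
open scoped ENNReal NNReal

attribute [local instance] msZ bsZ

section

variable (p : ℕ) [Fact p.Prime]

/-- The denominator of the integral over the rows. -/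
noncomputable def DP (a : ℕ → ℕ) : ℕ → Polynomial ℂ
  | 0 => 1
  | m + 1 => (if a (m + 1) = 0 then 1 else
      (Polynomial.C ((p : ℂ) ^ (m + 1)) - Polynomial.X ^ AA a (m + 1))) * DP a m

/-- The numerator of the integral over the rows. -/
noncomputable def NP (a : ℕ → ℕ) : ℕ → Polynomial ℂ
  | 0 => 1
  | m + 1 => (if a (m + 1) = 0 then 1 else
      (Polynomial.C ((p : ℂ) ^ (m + 1)) - Polynomial.X ^ AA a m)) * NP a m

theorem TS_AA (a : ℕ → ℕ) (σ : ℝ) (m : ℕ) : TS (fun i => (a i : ℝ) * σ) m = (AA a m : ℝ) * σ := by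
  unfold TS AA
  push_cast
  rw [Finset.sum_mul]

theorem AA_succ (a : ℕ → ℕ) (m : ℕ) : AA a (m + 1) = AA a m + a (m + 1) := by
  unfold AA
  rw [Finset.sum_range_succ]

theorem ppow (σ : ℝ) (m A : ℕ) : (p : ℝ) ^ (m + 1) * (p : ℝ) ^ (-((m : ℝ) + 1 + (A : ℝ) * σ)) =
    tr' p σ ^ A := by
  have hp : (0 : ℝ) < p := by exact_mod_cast (Fact.out : p.Prime).pos
  rw [← tr'_nat, tr', ← Real.rpow_natCast, ← Real.rpow_add hp]
  congr 1
  push_cast
  ring

theorem J_real (a : ℕ → ℕ) (σ : ℝ) (hσ : 0 ≤ σ) (m : ℕ) :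
    ((p : ℝ) ^ (m + 1) - tr' p σ ^ AA a (m + 1)) *
      ((PP p).J (fun i => (a i : ℝ) * σ) (m + 1)).toReal =
    ((p : ℝ) ^ (m + 1) - tr' p σ ^ AA a m) * ((PP p).J (fun i => (a i : ℝ) * σ) m).toReal := by
  have h1 := PP_J_succ p (fun i => (a i : ℝ) * σ) (fun i => by positivity) m
  rw [TS_AA, TS_AA] at h1
  rw [← ppow p σ m, ← ppow p σ m]
  linear_combination (p : ℝ) ^ (m + 1) * h1

theorem J_poly (a : ℕ → ℕ) (σ : ℝ) (hσ : 0 ≤ σ) : ∀ m : ℕ,
    (DP p a m).eval (tr' p σ : ℂ) * (((PP p).J (fun i => (a i : ℝ) * σ) m).toReal : ℂ) =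
      (NP p a m).eval (tr' p σ : ℂ)
  | 0 => by
    have : (PP p).J (fun i => (a i : ℝ) * σ) 0 = ∫⁻ v, 1 ∂(Measure.pi fun _ : Fin 0 => mu p) := rfl
    rw [this, lintegral_one, measure_univ]
    simp [DP, NP]
  | m + 1 => by
    have ih := J_poly a σ hσ m
    have hr := J_real p a σ hσ m
    unfold DP NP
    by_cases h : a (m + 1) = 0
    · rw [if_pos h, if_pos h, one_mul, one_mul, ← ih]
      congr 2
      rw [AA_succ, h, add_zero] at hr
      have h1 : (0 : ℝ) < (p : ℝ) ^ (m + 1) - tr' p σ ^ AA a m := by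
        have h2 : tr' p σ ^ AA a m ≤ 1 := pow_le_one₀ (tr'_pos p σ).le (tr'_le p σ hσ)
        have h3 : (1 : ℝ) < (p : ℝ) ^ (m + 1) :=
          one_lt_pow₀ (by exact_mod_cast (Fact.out : p.Prime).one_lt) (by omega)
        linarith
      exact mul_left_cancel₀ h1.ne' hr
    · rw [if_neg h, if_neg h, Polynomial.eval_mul, Polynomial.eval_mul, ← ih]
      simp only [Polynomial.eval_sub, Polynomial.eval_C, Polynomial.eval_pow, Polynomial.eval_X]
      have hr' := congrArg (fun x : ℝ => (x : ℂ)) hr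
      push_cast at hr'
      linear_combination (DP p a m).eval (tr' p σ : ℂ) * hr'

/-- The denominator. -/
noncomputable def DQ : ℕ → (ℕ → ℕ) → Polynomial ℂ
  | 0, _ => 1
  | n + 1, a => DP p a (n + 1) * DQ n (fun i => a (i + 1))

/-- The numerator. -/
noncomputable def NQ : ℕ → (ℕ → ℕ) → Polynomial ℂ
  | 0, _ => 1
  | n + 1, a => NP p a (n + 1) * NQ n (fun i => a (i + 1))

theorem I_poly (σ : ℝ) (hσ : 0 ≤ σ) : ∀ (n : ℕ) (a : ℕ → ℕ),
    (DQ p n a).eval (tr' p σ : ℂ) * (((PP p).I (fun i => (a i : ℝ) * σ) n).toReal : ℂ) =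
      (NQ p n a).eval (tr' p σ : ℂ)
  | 0, a => by rw [I_zero]; simp [DQ, NQ]
  | n + 1, a => by
    have h1 := J_poly p a σ hσ (n + 1)
    have h2 := I_poly σ hσ n (fun i => a (i + 1))
    rw [I_succ (PP p) (fun i => (a i : ℝ) * σ) (fun i => by positivity), ENNReal.toReal_mul, DQ, NQ,
      Polynomial.eval_mul, Polynomial.eval_mul, ← h1, ← h2]
    push_cast
    ring

theorem DP_zero (a : ℕ → ℕ) : ∀ m : ℕ, (DP p a m).eval 0 ≠ 0
  | 0 => by simp [DP]
  | m + 1 => by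
    have hp : (p : ℂ) ≠ 0 := by exact_mod_cast (Fact.out : p.Prime).ne_zero
    rw [DP, Polynomial.eval_mul]
    refine mul_ne_zero ?_ (DP_zero a m)
    by_cases h : a (m + 1) = 0
    · rw [if_pos h]; simp
    · rw [if_neg h]
      have hA : AA a (m + 1) ≠ 0 := by rw [AA_succ]; omega
      simp [hA, hp]

theorem DQ_zero : ∀ (n : ℕ) (a : ℕ → ℕ), (DQ p n a).eval 0 ≠ 0
  | 0, a => by simp [DQ]
  | n + 1, a => by
    rw [DQ, Polynomial.eval_mul]
    exact mul_ne_zero (DP_zero p a _) (DQ_zero n _)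

theorem DP_root (a : ℕ → ℕ) (T : ℂ) : ∀ M : ℕ, (DP p a M).eval T = 0 →
    ∃ m, m + 1 ≤ M ∧ a (m + 1) ≠ 0 ∧ T ^ AA a (m + 1) = (p : ℂ) ^ (m + 1)
  | 0, h => by simp [DP] at h
  | M + 1, h => by
    rw [DP, Polynomial.eval_mul] at h
    rcases mul_eq_zero.1 h with h | h
    · by_cases h1 : a (M + 1) = 0
      · rw [if_pos h1] at h; simp at h
      · rw [if_neg h1] at h
        simp only [Polynomial.eval_sub, Polynomial.eval_C, Polynomial.eval_pow, Polynomial.eval_X] at h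
        exact ⟨M, le_rfl, h1, (sub_eq_zero.1 h).symm⟩
    · obtain ⟨m, h1, h2, h3⟩ := DP_root a T M h
      exact ⟨m, by omega, h2, h3⟩

theorem DQ_root (T : ℂ) : ∀ (n : ℕ) (a : ℕ → ℕ), (DQ p n a).eval T = 0 →
    ∃ r m, r + m + 1 ≤ n ∧ a (r + m + 1) ≠ 0 ∧
      T ^ (∑ i ∈ Finset.range (m + 1), a (r + i + 1)) = (p : ℂ) ^ (m + 1)
  | 0, a, h => by simp [DQ] at h
  | n + 1, a, h => by
    rw [DQ, Polynomial.eval_mul] at h
    rcases mul_eq_zero.1 h with h | h
    · obtain ⟨m, h1, h2, h3⟩ := DP_root p a T (n + 1) h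
      refine ⟨0, m, by omega, by simpa using h2, ?_⟩
      unfold AA at h3
      simpa using h3
    · obtain ⟨r, m, h1, h2, h3⟩ := DQ_root T n _ h
      refine ⟨r + 1, m, by omega, ?_, ?_⟩
      · have : r + 1 + m + 1 = r + m + 1 + 1 := by omega
        rw [this]; exact h2
      · have h4 : ∀ i, r + 1 + i + 1 = r + i + 1 + 1 := fun i => by omega
        simp only [h4]
        exact h3

theorem log_root (T : ℂ) (A m : ℕ) (hA : 0 < A) (h : T ^ A = (p : ℂ) ^ (m + 1)) :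
    -Real.log ‖T‖ / Real.log p = -((m : ℝ) + 1) / (A : ℝ) := by
  have h1 := congrArg (fun z : ℂ => Real.log ‖z‖) h
  simp only [norm_pow, Complex.norm_natCast, Real.log_pow] at h1
  have hl := log_p_pos p
  have hA' : (0 : ℝ) < A := by exact_mod_cast hA
  push_cast at h1
  rw [div_eq_div_iff hl.ne' hA'.ne']
  linarith

end

/-- Sums over intervals of indices. -/
theorem sum_ex {n : ℕ} (a : Fin n → ℕ) (r m : ℕ) (h : r + m < n) :
    ∑ i ∈ Finset.range (m + 1), ex a (r + i + 1) =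
      ∑ i ∈ Finset.Icc (⟨r, by omega⟩ : Fin n) ⟨r + m, h⟩, a i := by
  symm
  refine Finset.sum_bij (fun i _ => (i : ℕ) - r) ?_ ?_ ?_ ?_
  · intro i hi
    rw [Finset.mem_Icc, Fin.le_def, Fin.le_def] at hi
    simp only at hi
    rw [Finset.mem_range]
    omega
  · intro i hi j hj hij
    rw [Finset.mem_Icc, Fin.le_def, Fin.le_def] at hi hj
    simp only at hi hj hij
    exact Fin.ext (by omega)
  · intro i hi
    rw [Finset.mem_range] at hi
    refine ⟨⟨r + i, by omega⟩, ?_, by simp⟩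
    rw [Finset.mem_Icc, Fin.le_def, Fin.le_def]
    simp only
    omega
  · intro i hi
    rw [Finset.mem_Icc, Fin.le_def, Fin.le_def] at hi
    simp only at hi
    have h1 : r + ((i : ℕ) - r) + 1 = (i : ℕ) + 1 := by omega
    rw [h1, ex_succ]

/-- The condition on the exponents. -/
def Wide {n : ℕ} (a : Fin n → ℕ) : Prop :=
  ∀ k j : Fin n, k ≤ j → 0 < a j → (j : ℕ) + 1 ≤ (k : ℕ) + ∑ i ∈ Finset.Icc k j, a i

theorem root_of_DQ (p : ℕ) [Fact p.Prime] {n : ℕ} (a : Fin n → ℕ) (ha : Wide a) (b : Polynomial ℂ)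
    (hb : Pool.Agent.H628R4.TP.IsBFunction (MvPolynomial.map (Int.castRingHom ℂ) (nested n a)) b)
    (T : ℂ) (hT : (DQ p n (ex a)).eval T = 0) :
    b.eval ((-Real.log ‖T‖ / Real.log p : ℝ) : ℂ) = 0 := by
  obtain ⟨r, m, h1, h2, h3⟩ := DQ_root p T n (ex a) hT
  have h4 := ha ⟨r, by omega⟩ ⟨r + m, by omega⟩ (by rw [Fin.le_def]; simp) (by
    rw [ex_succ' a (r + m) (by omega)] at h2
    omega)
  rw [← sum_ex a r m (by omega)] at h4
  simp only at h4
  rw [log_root p T _ m (by omega) h3]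
  exact root_nested a b hb r m h1 (by omega)

attribute [local instance] msZ bsZ in
theorem zeta_poly (p : ℕ) [Fact p.Prime] {n : ℕ} (a : Fin n → ℕ) (σ : ℝ) (hσ : 0 ≤ σ) :
    (DQ p n (ex a)).eval (tr' p σ : ℂ) *
      ((∫⁻ z, tau p σ (MvPolynomial.aeval z (nested n a))
        ∂(Measure.pi fun _ : Fin n × Fin n => mu p)).toReal : ℂ) =
      (NQ p n (ex a)).eval (tr' p σ : ℂ) := by
  rw [← I_poly p σ hσ n (ex a), ← int_nested (PP p) a σ hσ]
  congr 4
  funext z
  rw [tau_eq p σ hσ, aeval_nested]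
  rfl

/-- **The main theorem for the zeta function.** -/
theorem igusa_nested (p : ℕ) [Fact p.Prime] {n : ℕ} (a : Fin n → ℕ) (ha : Wide a) (Z : ℂ → ℂ)
    (hZ : MeromorphicOn Z Set.univ)
    (hI : ∀ s : ℂ, 0 < s.re → Z s = igusaZeta p (nested n a) s)
    (s₀ : ℂ) (hs₀ : meromorphicOrderAt Z s₀ < 0) (b : Polynomial ℂ)
    (hb : Pool.Agent.H628R4.TP.IsBFunction (MvPolynomial.map (Int.castRingHom ℂ) (nested n a)) b) :
    b.eval (s₀.re : ℂ) = 0 := by
  have hD : DQ p n (ex a) ≠ 0 := by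
    intro h
    apply DQ_zero p n (ex a)
    rw [h]; simp
  have h1 := mero_bound p (DQ p n (ex a)) (NQ p n (ex a)) hD Z hZ (fun s hs => by
    rw [hI s (by simpa using hs), igusaZeta_eq, pw_real]
    exact zeta_poly p a s hs.le) s₀
  have h2 : (DQ p n (ex a)).eval (pw p s₀) = 0 := by
    by_contra hne
    have h3 : (DQ p n (ex a)).rootMultiplicity (pw p s₀) = 0 := Polynomial.rootMultiplicity_eq_zero hne
    rw [h3] at h1
    simp only [Nat.cast_zero, neg_zero] at h1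
    exact absurd h1 (not_le.2 hs₀)
  have h4 := root_of_DQ p a ha b hb _ h2
  rw [pw_norm] at h4
  exact h4

/-- **The main theorem for the Poincare series.** -/
theorem poincare_nested (p : ℕ) [Fact p.Prime] {n : ℕ} (a : Fin n → ℕ) (ha : Wide a) :
    ∃ Φ : RatFunc ℂ,
      ((Φ.denom : Polynomial ℂ) : PowerSeries ℂ) * poincare p (nested n a) =
        ((Φ.num : Polynomial ℂ) : PowerSeries ℂ) ∧
      ∀ T₀ : ℂ, Φ.denom.eval T₀ = 0 → ∀ b : Polynomial ℂ,
        Pool.Agent.H628R4.TP.IsBFunction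
          (MvPolynomial.map (Int.castRingHom ℂ) (nested n a)) b →
        b.eval ((-Real.log ‖T₀‖ / Real.log p : ℝ) : ℂ) = 0 := by
  have hD : DQ p n (ex a) ≠ 0 := by
    intro h
    apply DQ_zero p n (ex a)
    rw [h]; simp
  obtain ⟨Φ, h1, -, h2⟩ := poincare_of (p := p) (f := nested n a) (DQ p n (ex a)) (NQ p n (ex a)) hD
    (fun s hs => zeta_poly p a s hs)
  refine ⟨Φ, h1, fun T₀ hT b hb => root_of_DQ p a ha b hb T₀ ?_⟩
  by_contra hne
  have h3 := h2 T₀
  rw [Polynomial.rootMultiplicity_eq_zero hne] at h3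
  have h4 : 0 < Φ.denom.rootMultiplicity T₀ :=
    (Polynomial.rootMultiplicity_pos Φ.denom_ne_zero).2 hT
  omega

end Pool.Agent.K6.H33.NM
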