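import Mathlib

set_option autoImplicit false

/-! # Integrals of homogeneous functions on `ℂ ^ ι` against radial functions -/

namespace Pool.Agent.K6.H33.NM

open MeasureTheory Set
open scoped ENNReal

variable {ι : Type} [Fintype ι]

/-- The square of the Euclidean norm. -/
noncomputable def Nr (v : ι → ℂ) : ℝ := ∑ i, ‖v i‖ ^ 2

theorem Nr_nonneg (v : ι → ℂ) : 0 ≤ Nr v := Finset.sum_nonneg fun _ _ => by positivity

theorem Nr_cont : Continuous (Nr : (ι → ℂ) → ℝ) := by unfold Nr; fun_prop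

theorem Nr_meas : Measurable (Nr : (ι → ℂ) → ℝ) := Nr_cont.measurable

theorem Nr_smul (c : ℝ) (v : ι → ℂ) : Nr (c • v) = c ^ 2 * Nr v := by
  unfold Nr
  rw [Finset.mul_sum]
  refine Finset.sum_congr rfl fun i _ => ?_
  rw [Pi.smul_apply, norm_smul, mul_pow, Real.norm_eq_abs, sq_abs]

theorem norm_le_Nr (v : ι → ℂ) (i : ι) : ‖v i‖ ^ 2 ≤ Nr v :=
  Finset.single_le_sum (f := fun i => ‖v i‖ ^ 2) (fun _ _ => by positivity) (Finset.mem_univ i)

theorem Nr_bdd (R : ℝ) : Bornology.IsBounded {v : ι → ℂ | Nr v < R} := by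
  refine (Metric.isBounded_closedBall (x := (0 : ι → ℂ)) (r := Real.sqrt (max R 0))).subset ?_
  intro v hv
  rw [mem_closedBall_zero_iff, pi_norm_le_iff_of_nonneg (Real.sqrt_nonneg _)]
  intro i
  apply Real.le_sqrt_of_sq_le
  have := norm_le_Nr v i
  have h2 : Nr v < R := hv
  have := le_max_left R 0
  linarith

/-- Homogeneous of degree `2 t`. -/
def Homog (h : (ι → ℂ) → ℝ≥0∞) (t : ℝ) : Prop :=
  ∀ c : ℝ, 0 < c → ∀ v, h (c • v) = ENNReal.ofReal (c ^ (2 * t)) * h v

theorem finrank_pi_c : Module.finrank ℝ (ι → ℂ) = 2 * Fintype.card ι := by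
  rw [Module.finrank_pi_fintype]
  simp [Complex.finrank_real_complex, mul_comm]

theorem lint_scale (g : (ι → ℂ) → ℝ≥0∞) (hg : Measurable g) (c : ℝ) (hc : 0 < c) :
    ∫⁻ v, g v = ENNReal.ofReal (c ^ (2 * Fintype.card ι)) * ∫⁻ v : ι → ℂ, g (c • v) := by
  have h1 := Measure.map_addHaar_smul (volume : Measure (ι → ℂ)) hc.ne'
  have h2 : ∫⁻ v : ι → ℂ, g (c • v) = ∫⁻ v, g v ∂(Measure.map (fun v : ι → ℂ => c • v) volume) := by
    rw [lintegral_map hg (measurable_const_smul c)]
  rw [h2, h1, lintegral_smul_measure, finrank_pi_c, abs_of_nonneg (by positivity), smul_eq_mul,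
    ← mul_assoc, ← ENNReal.ofReal_mul (by positivity), mul_inv_cancel₀ (by positivity),
    ENNReal.ofReal_one, one_mul]

theorem ball_scale (h : (ι → ℂ) → ℝ≥0∞) (hm : Measurable h) (t : ℝ) (hh : Homog h t) (R : ℝ)
    (hR : 0 < R) : ∫⁻ v in {v : ι → ℂ | Nr v < R}, h v =
      ENNReal.ofReal (R ^ ((Fintype.card ι : ℝ) + t)) * ∫⁻ v in {v : ι → ℂ | Nr v < 1}, h v := by
  have hms : ∀ R : ℝ, MeasurableSet {v : ι → ℂ | Nr v < R} := fun R =>
    measurableSet_lt Nr_meas measurable_const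
  rw [← lintegral_indicator (hms R), ← lintegral_indicator (hms 1)]
  have hc : 0 < Real.sqrt R := Real.sqrt_pos.2 hR
  rw [lint_scale _ (hm.indicator (hms R)) _ hc]
  have h1 : ∀ v : ι → ℂ, ({v : ι → ℂ | Nr v < R}.indicator h) (Real.sqrt R • v) =
      ENNReal.ofReal (Real.sqrt R ^ (2 * t)) * ({v : ι → ℂ | Nr v < 1}.indicator h) v := by
    intro v
    have h2 : Nr (Real.sqrt R • v) < R ↔ Nr v < 1 := by
      rw [Nr_smul, Real.sq_sqrt hR.le]
      constructor
      · intro h
        by_contra hn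
        rw [not_lt] at hn
        nlinarith
      · intro h
        nlinarith
    by_cases h3 : Nr v < 1
    · have h4 : Real.sqrt R • v ∈ {v : ι → ℂ | Nr v < R} := h2.2 h3
      have h5 : v ∈ {v : ι → ℂ | Nr v < 1} := h3
      rw [indicator_of_mem h4, indicator_of_mem h5, hh _ hc]
    · have h4 : Real.sqrt R • v ∉ {v : ι → ℂ | Nr v < R} := fun h => h3 (h2.1 h)
      have h5 : v ∉ {v : ι → ℂ | Nr v < 1} := h3
      rw [indicator_of_notMem h4, indicator_of_notMem h5, mul_zero]
  simp only [h1]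
  rw [lintegral_const_mul _ (hm.indicator (hms 1)), ← mul_assoc, ← ENNReal.ofReal_mul (by positivity)]
  congr 2
  rw [Real.sqrt_eq_rpow, ← Real.rpow_natCast, ← Real.rpow_mul hR.le, ← Real.rpow_mul hR.le,
    ← Real.rpow_add hR]
  congr 1
  push_cast
  ring

theorem pow_int (a R : ℝ) (ha : 0 < a) (hR : 0 ≤ R) :
    ∫⁻ r in Ioc 0 R, ENNReal.ofReal (a * r ^ (a - 1)) = ENNReal.ofReal (R ^ a) := by
  have h1 : IntervalIntegrable (fun r : ℝ => a * r ^ (a - 1)) volume 0 R :=
    (intervalIntegral.intervalIntegrable_rpow' (by linarith)).const_mul a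
  rw [← ofReal_integral_eq_lintegral_ofReal h1.1]
  · congr 1
    rw [← intervalIntegral.integral_of_le hR, intervalIntegral.integral_const_mul,
      integral_rpow (Or.inl (by linarith))]
    rw [sub_add_cancel, Real.zero_rpow ha.ne', sub_zero]
    field_simp
  · filter_upwards [ae_restrict_mem measurableSet_Ioc] with r hr
    have := hr.1
    positivity

/-- **Polar coordinates.** -/
theorem polar (h : (ι → ℂ) → ℝ≥0∞) (hm : Measurable h) (a : ℝ) (ha : 0 < a) (c : ℝ≥0∞)
    (hc : c ≠ ∞) (hh : ∀ R : ℝ, 0 < R → ∫⁻ v in {v : ι → ℂ | Nr v < R}, h v =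
      ENNReal.ofReal (R ^ a) * c) (φ : ℝ → ℝ≥0∞) (hφ : Measurable φ) :
    ∫⁻ v, h v * φ (Nr v) = c * ∫⁻ r in Ioi 0, ENNReal.ofReal (a * r ^ (a - 1)) * φ r := by
  have hd : Measurable fun r : ℝ => ENNReal.ofReal (a * r ^ (a - 1)) := by fun_prop
  set μ1 : Measure ℝ := (volume.withDensity h).map Nr with hμ1
  set μ2 : Measure ℝ := c • (volume.restrict (Ioi 0)).withDensity
    (fun r => ENNReal.ofReal (a * r ^ (a - 1))) with hμ2
  have e1 : ∀ R : ℝ, μ1 (Iio R) = ∫⁻ v in {v : ι → ℂ | Nr v < R}, h v := by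
    intro R
    rw [hμ1, Measure.map_apply Nr_meas measurableSet_Iio, withDensity_apply _ (Nr_meas measurableSet_Iio)]
    rfl
  have e2 : ∀ R : ℝ, 0 < R → μ2 (Iio R) = ENNReal.ofReal (R ^ a) * c := by
    intro R hR
    rw [hμ2, Measure.smul_apply, withDensity_apply _ measurableSet_Iio, smul_eq_mul, mul_comm,
      Measure.restrict_restrict measurableSet_Iio, Iio_inter_Ioi,
      Measure.restrict_congr_set Ioo_ae_eq_Ioc, pow_int a R ha hR.le]
  have hmu : μ1 = μ2 := by
    refine Measure.ext_of_generateFrom_of_iUnion (range Iio) (fun n : ℕ => Iio ((n : ℝ) + 1))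
      ((borel_eq_generateFrom_Iio ℝ).symm ▸ BorelSpace.measurable_eq) isPiSystem_Iio ?_
      (fun n => mem_range_self _) ?_ ?_
    · rw [eq_univ_iff_forall]
      intro x
      obtain ⟨n, hn⟩ := exists_nat_gt x
      exact mem_iUnion.2 ⟨n, by rw [mem_Iio]; linarith⟩
    · intro n
      rw [e1, hh _ (by positivity)]
      exact ENNReal.mul_ne_top ENNReal.ofReal_ne_top hc
    · rintro _ ⟨R, rfl⟩
      rcases le_or_gt R 0 with hR | hR
      · rw [e1]
        have h1 : {v : ι → ℂ | Nr v < R} = ∅ := by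
          ext v
          simp only [mem_setOf_eq, mem_empty_iff_false, iff_false, not_lt]
          exact hR.trans (Nr_nonneg v)
        have h2 : Iio R ∩ Ioi (0 : ℝ) = ∅ := by
          ext x
          simp only [mem_inter_iff, mem_Iio, mem_Ioi, mem_empty_iff_false, iff_false, not_and, not_lt]
          intro h
          linarith
        rw [h1, hμ2, Measure.smul_apply, withDensity_apply _ measurableSet_Iio,
          Measure.restrict_restrict measurableSet_Iio, h2]
        simp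
      · rw [e1, e2 R hR, hh R hR]
  have h3 : ∫⁻ v, h v * φ (Nr v) = ∫⁻ r, φ r ∂μ1 := by
    have h4 := lintegral_withDensity_eq_lintegral_mul volume hm (hφ.comp Nr_meas)
    rw [hμ1, lintegral_map hφ Nr_meas]
    exact h4.symm
  rw [h3, hmu, hμ2, lintegral_smul_measure, lintegral_withDensity_eq_lintegral_mul _ hd hφ]
  rfl

/-- Gaussian moments of a homogeneous function. -/
theorem gauss_ratio (h : (ι → ℂ) → ℝ≥0∞) (hm : Measurable h) (t : ℝ)
    (ha : 0 < (Fintype.card ι : ℝ) + t) (hh : Homog h t)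
    (hfin : ∫⁻ v in {v : ι → ℂ | Nr v < 1}, h v ≠ ∞) (s : ℝ) (hs : 0 ≤ s) :
    ∫⁻ v, h v * (ENNReal.ofReal (Nr v ^ s) * ENNReal.ofReal (Real.exp (-Nr v))) =
      (∫⁻ v in {v : ι → ℂ | Nr v < 1}, h v) * ENNReal.ofReal
        (((Fintype.card ι : ℝ) + t) * Real.Gamma ((Fintype.card ι : ℝ) + t + s)) := by
  set a : ℝ := (Fintype.card ι : ℝ) + t with hadef
  have h1 := polar h hm a ha _ hfin (fun R hR => ball_scale h hm t hh R hR)
    (fun r => ENNReal.ofReal (r ^ s) * ENNReal.ofReal (Real.exp (-r))) (by fun_prop)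
  rw [h1]
  congr 1
  have h2 : ∀ r ∈ Ioi (0 : ℝ), ENNReal.ofReal (a * r ^ (a - 1)) *
      (ENNReal.ofReal (r ^ s) * ENNReal.ofReal (Real.exp (-r))) =
      ENNReal.ofReal (a * (Real.exp (-r) * r ^ (a + s - 1))) := by
    intro r hr
    have hr' : 0 < r := hr
    rw [← ENNReal.ofReal_mul (by positivity), ← ENNReal.ofReal_mul (by positivity)]
    congr 1
    have : r ^ (a + s - 1) = r ^ (a - 1) * r ^ s := by
      rw [← Real.rpow_add hr']
      congr 1
      ring
    rw [this]
    ring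
  rw [setLIntegral_congr_fun measurableSet_Ioi h2, ← ofReal_integral_eq_lintegral_ofReal]
  · rw [integral_const_mul, ← Real.Gamma_eq_integral (by linarith)]
  · exact ((Real.GammaIntegral_convergent (s := a + s) (by linarith)).const_mul a)
  · filter_upwards [ae_restrict_mem measurableSet_Ioi] with r hr
    have : 0 < r := hr
    positivity

theorem beta_lint (a : ℝ) (ha : 0 < a) (k : ℕ) (hk : 0 < k) :
    ∫⁻ r in Ioi (0 : ℝ), ENNReal.ofReal (a * r ^ (a - 1)) * ENNReal.ofReal ((max 0 (1 - r)) ^ k) =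
      ENNReal.ofReal (a * (Real.Gamma a * k.factorial / Real.Gamma (a + k + 1))) := by
  have hb : 0 < ProbabilityTheory.beta a (k + 1) := ProbabilityTheory.beta_pos ha (by positivity)
  have h1 := ProbabilityTheory.lintegral_betaPDF_eq_one ha (show (0 : ℝ) < (k : ℝ) + 1 by positivity)
  rw [ProbabilityTheory.lintegral_betaPDF] at h1
  have h2 : ∫⁻ r in Ioi (0 : ℝ), ENNReal.ofReal (a * r ^ (a - 1)) *
      ENNReal.ofReal ((max 0 (1 - r)) ^ k) = ∫⁻ r in Ioo (0 : ℝ) 1,
        ENNReal.ofReal (a * ProbabilityTheory.beta a (k + 1)) *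
          ENNReal.ofReal (1 / ProbabilityTheory.beta a (k + 1) * r ^ (a - 1) *
            (1 - r) ^ ((k : ℝ) + 1 - 1)) := by
    rw [← lintegral_indicator measurableSet_Ioi, ← lintegral_indicator measurableSet_Ioo]
    refine lintegral_congr fun r => ?_
    by_cases h0 : 0 < r
    · rw [indicator_of_mem (show r ∈ Ioi (0 : ℝ) from h0)]
      by_cases h3 : r < 1
      · rw [indicator_of_mem (show r ∈ Ioo (0 : ℝ) 1 from ⟨h0, h3⟩), ← ENNReal.ofReal_mul (by positivity),
          ← ENNReal.ofReal_mul (by positivity)]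
        congr 1
        rw [max_eq_right (by linarith), add_sub_cancel_right, Real.rpow_natCast]
        field_simp
      · rw [indicator_of_notMem (fun h => h3 h.2), max_eq_left (by linarith), zero_pow hk.ne',
          ENNReal.ofReal_zero, mul_zero]
    · have h4 : r ∉ Ioi (0 : ℝ) := h0
      have h5 : r ∉ Ioo (0 : ℝ) 1 := fun h => h0 h.1
      rw [indicator_of_notMem h4, indicator_of_notMem h5]
  rw [h2, lintegral_const_mul _ (by fun_prop), h1, mul_one, ProbabilityTheory.beta,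
    Real.Gamma_nat_eq_factorial]
  congr 3
  ring_nf

/-- Integrals of a homogeneous function over the ball. -/
theorem ball_moment (h : (ι → ℂ) → ℝ≥0∞) (hm : Measurable h) (t : ℝ)
    (ha : 0 < (Fintype.card ι : ℝ) + t) (hh : Homog h t)
    (hfin : ∫⁻ v in {v : ι → ℂ | Nr v < 1}, h v ≠ ∞) (k : ℕ) (hk : 0 < k) :
    (∫⁻ v, h v * ENNReal.ofReal ((max 0 (1 - Nr v)) ^ k)) * ENNReal.ofReal
      (Real.Gamma ((Fintype.card ι : ℝ) + t + k + 1)) =
      ENNReal.ofReal (k.factorial) * ∫⁻ v, h v * ENNReal.ofReal (Real.exp (-Nr v)) := by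
  set a : ℝ := (Fintype.card ι : ℝ) + t with hadef
  have h1 := polar h hm a ha _ hfin (fun R hR => ball_scale h hm t hh R hR)
    (fun r => ENNReal.ofReal ((max 0 (1 - r)) ^ k)) (by fun_prop)
  have h2 := gauss_ratio h hm t ha hh hfin 0 le_rfl
  have h3 : ∀ v : ι → ℂ, h v * (ENNReal.ofReal (Nr v ^ (0 : ℝ)) * ENNReal.ofReal (Real.exp (-Nr v))) =
      h v * ENNReal.ofReal (Real.exp (-Nr v)) := by
    intro v
    rw [Real.rpow_zero, ENNReal.ofReal_one, one_mul]
  simp only [h3] at h2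
  rw [h1, h2, beta_lint a ha k hk, mul_assoc, ← ENNReal.ofReal_mul, mul_left_comm,
    ← ENNReal.ofReal_mul (by positivity)]
  · congr 2
    have h4 : Real.Gamma (a + k + 1) ≠ 0 := (Real.Gamma_pos_of_pos (by positivity)).ne'
    rw [← hadef, add_zero]
    field_simp
  · have h4 : 0 < Real.Gamma (a + k + 1) := Real.Gamma_pos_of_pos (by positivity)
    have h5 := Real.Gamma_pos_of_pos ha
    positivity

end Pool.Agent.K6.H33.NM
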