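import Pool.Agent.K6.H33.NM.Adj2
import Pool.Agent.K6.H33.NM.An

set_option autoImplicit false

/-! # Poles of archimedean zeta functions and roots of polynomials of functional equations -/

namespace Pool.Agent.K6.H33.NM

open MeasureTheory Set Filter Topology MvPolynomial
open Pool.Agent.H628R4.TP (weylS IsBFunction)

variable {V : Type} [Fintype V]

theorem poly_bdd (f : MvPolynomial V ℂ) : ∃ B : ℝ, 0 < B ∧ ∀ x : V → ℂ, Nr x ≤ 1 →
    ‖eval x f‖ ^ 2 ≤ B := by
  have hK : IsCompact {x : V → ℂ | Nr x ≤ 1} := by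
    apply Metric.isCompact_of_isClosed_isBounded (isClosed_le Nr_cont continuous_const)
    exact (Nr_bdd 2).subset fun x hx => by
      have : Nr x ≤ 1 := hx
      show Nr x < 2
      linarith
  have hf : Continuous fun x : V → ℂ => ‖eval x f‖ ^ 2 :=
    ((MvPolynomial.continuous_eval f).norm).pow 2
  obtain ⟨B, hB⟩ := hK.bddAbove_image hf.continuousOn
  refine ⟨max B 1, lt_max_of_lt_right one_pos, fun x hx => ?_⟩
  exact (hB ⟨x, hx, rfl⟩).trans (le_max_left _ _)

theorem phi_Ik (f : MvPolynomial V ℂ) (B : ℝ) (m : ℕ) (k : ℕ) (W : MvPolynomial (V ⊕ V) ℂ) :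
    Phi (volume : Measure (V → ℂ)) (fun x => ‖eval x f‖ ^ 2 / B)
      (fun x => ev2 W x * ((rp x ^ k : ℝ) : ℂ)) m = ((B : ℂ)⁻¹) ^ m * Ik k (io f ^ m * ib f ^ m * W) := by
  unfold Phi Ik
  rw [← integral_const_mul]
  refine integral_congr_ae (Eventually.of_forall fun x => ?_)
  simp only
  have h1 : ev2 (io f ^ m * ib f ^ m * W) x = ((‖eval x f‖ ^ 2 : ℝ) : ℂ) ^ m * ev2 W x := by
    have h2 : ev2 (io f ^ m * ib f ^ m * W) x = ev2 (io f) x ^ m * ev2 (ib f) x ^ m * ev2 W x := by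
      simp [ev2]
    rw [h2, ev2_io, ev2_ib, ← mul_pow, Complex.mul_conj, Complex.normSq_eq_norm_sq]
  rw [h1, Complex.cpow_natCast]
  push_cast
  rw [div_pow, inv_pow]
  ring

/-- **The general theorem.** -/
theorem root_gen (f : MvPolynomial V ℂ) (b : Polynomial ℂ) (hb : IsBFunction f b)
    (D : ℂ → ℂ) (hD : Differentiable ℂ D) (G : ℕ → ℂ → ℂ) (hG : ∀ k, Differentiable ℂ (G k))
    (h : ∀ k, 0 < k → ∀ s : ℝ, 0 < s →
      ((∫ x : V → ℂ, (‖eval x f‖ ^ 2) ^ s * rp x ^ k : ℝ) : ℂ) * D s = G k s)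
    (s₀ : ℝ) (hs₀ : -1 ≤ s₀) (hD0 : D s₀ = 0) (hG0 : ∃ k₀, ∀ k, k₀ ≤ k → G k s₀ ≠ 0) :
    b.eval (s₀ : ℂ) = 0 := by
  obtain ⟨r, hr⟩ := bernstein f b hb
  obtain ⟨k₀, hk₀⟩ := hG0
  obtain ⟨J, w, hw⟩ := hr (r + 1 + k₀) (by omega)
  set k := r + 1 + k₀ with hk
  obtain ⟨B, hB, hBf⟩ := poly_bdd f
  set g : (V → ℂ) → ℝ := fun x => ‖eval x f‖ ^ 2 / B with hgdef
  have hg : Measurable g := by
    have : Continuous g := (((MvPolynomial.continuous_eval f).norm).pow 2).div_const B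
    exact this.measurable
  have h0 : ∀ x, 0 ≤ g x := fun x => by positivity
  have hgen : ∀ (k : ℕ), 0 < k → ∀ (W : MvPolynomial (V ⊕ V) ℂ) (x : V → ℂ),
      ev2 W x * ((rp x ^ k : ℝ) : ℂ) ≠ 0 → g x ≤ 1 := by
    intro k hk W x hx
    have h1 : rp x ≠ 0 := by
      intro h2
      apply hx
      rw [h2, zero_pow hk.ne']
      simp
    have h3 : Nr x ≤ 1 := by
      by_contra h4
      rw [not_le] at h4
      exact h1 (max_eq_left (by linarith))
    rw [hgdef]
    simp only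
    rw [div_le_one hB]
    exact hBf x h3
  have key := root_abs (volume : Measure (V → ℂ)) g hg h0 (fun x => ev2 1 x * ((rp x ^ k : ℝ) : ℂ))
    (ev_rp_int 1 k (by omega)) (hgen k (by omega) 1) J
    (fun j x => ev2 (w j) x * ((rp x ^ 1 : ℝ) : ℂ)) (fun j => ev_rp_int (w j) 1 one_pos)
    (fun j x => hgen 1 one_pos (w j) x) (b * b.map (starRingEnd ℂ))
    (fun j => Polynomial.C (B : ℂ) * Polynomial.X ^ (j.1 + j.2)) ?_ D
    (fun s => G k s * (B : ℂ) ^ (-s)) hD ?_ ?_ s₀ hs₀ hD0 ?_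
  · rw [Polynomial.eval_mul] at key
    rcases mul_eq_zero.1 key with h1 | h1
    · exact h1
    · have h2 : (b.map (starRingEnd ℂ)).eval ((starRingEnd ℂ) (s₀ : ℂ)) =
          (starRingEnd ℂ) (b.eval (s₀ : ℂ)) := by
        rw [Polynomial.eval_map, Polynomial.eval₂_at_apply]
      rw [Complex.conj_ofReal, h1] at h2
      have h3 := congrArg (starRingEnd ℂ) h2
      rw [Complex.conj_conj, map_zero] at h3
      exact h3.symm
  · intro m hm
    have e1 := phi_Ik f B m k 1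
    rw [e1, mul_one]
    have h2 : (b * b.map (starRingEnd ℂ)).eval (m : ℂ) =
        b.eval (m : ℂ) * (starRingEnd ℂ) (b.eval (m : ℂ)) := by
      rw [Polynomial.eval_mul]
      congr 1
      have h3 : (b.map (starRingEnd ℂ)).eval ((starRingEnd ℂ) (m : ℂ)) =
          (starRingEnd ℂ) (b.eval (m : ℂ)) := by
        rw [Polynomial.eval_map, Polynomial.eval₂_at_apply]
      rw [map_natCast] at h3
      exact h3
    rw [h2, mul_left_comm, hw m, Finset.mul_sum]
    refine Finset.sum_congr rfl fun j _ => ?_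
    have e2 := phi_Ik f B (m + 1) 1 (w j)
    have e3 : ((m : ℂ) + 1) = ((m + 1 : ℕ) : ℂ) := by push_cast; rfl
    rw [e3, e2, Polynomial.eval_mul, Polynomial.eval_C, Polynomial.eval_pow, Polynomial.eval_X]
    have hB0 : (B : ℂ) ≠ 0 := by exact_mod_cast hB.ne'
    rw [pow_succ ((B : ℂ)⁻¹)]
    field_simp
  · refine (hG k).mul ?_
    have hB0 : (B : ℂ) ≠ 0 := by exact_mod_cast hB.ne'
    exact fun s => (differentiableAt_id.neg).const_cpow (Or.inl hB0)
  · intro s hs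
    rw [← h k (by omega) s hs]
    have hBs : (B : ℂ) ^ (-(s : ℂ)) * (B : ℂ) ^ (s : ℂ) = 1 := by
      rw [← Complex.cpow_add _ _ (by exact_mod_cast hB.ne')]; simp
    have e1 : Phi (volume : Measure (V → ℂ)) g (fun x => ev2 1 x * ((rp x ^ k : ℝ) : ℂ)) (s : ℂ) *
        (B : ℂ) ^ (s : ℂ) = ((∫ x : V → ℂ, (‖eval x f‖ ^ 2) ^ s * rp x ^ k : ℝ) : ℂ) := by
      unfold Phi
      rw [← integral_mul_const, ← integral_complex_ofReal]
      refine integral_congr_ae (Eventually.of_forall fun x => ?_)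
      simp only
      have e2 : ev2 (1 : MvPolynomial (V ⊕ V) ℂ) x = 1 := by simp [ev2]
      rw [e2, one_mul, ← Complex.ofReal_cpow (h0 x), ← Complex.ofReal_cpow hB.le, ← Complex.ofReal_mul,
        ← Complex.ofReal_mul]
      congr 1
      have e3 : (‖eval x f‖ ^ 2) ^ s = g x ^ s * B ^ s := by
        rw [← Real.mul_rpow (h0 x) hB.le]
        congr 1
        rw [hgdef]
        simp only
        field_simp
      rw [e3]
      ring
    rw [← e1]
    linear_combination (-(Phi (volume : Measure (V → ℂ)) g (fun x => ev2 1 x * ((rp x ^ k : ℝ) : ℂ))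
      (s : ℂ) * D s)) * hBs
  · apply mul_ne_zero (hk₀ k (by omega))
    rw [Complex.cpow_def_of_ne_zero (by exact_mod_cast hB.ne')]
    exact Complex.exp_ne_zero _

end Pool.Agent.K6.H33.NM
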