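import Pool.Agent.K6.H33.NM.Lead
import Pool.Agent.K6.H33.NM.CJ
import Pool.Agent.K6.H33.NM.Root

set_option autoImplicit false

/-! # The product of powers of the nested minors as a polynomial, and its complex integral -/

namespace Pool.Agent.K6.H33.NM

open MeasureTheory Set MvPolynomial
open scoped ENNReal

/-- The product of the powers `Δ_{k + 1} ^ (a k)` of the leading principal minors of the generic
`n × n` matrix. -/
noncomputable def nested (n : ℕ) (a : Fin n → ℕ) : MvPolynomial (Fin n × Fin n) ℤ :=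
  ∏ k, lead (fun i j => X (i, j)) k ^ a k

theorem map_lead {R S : Type} [CommRing R] [CommRing S] (φ : R →+* S) {n : ℕ} (x : Fin n → Fin n → R)
    (k : Fin n) : φ (lead x k) = lead (fun i j => φ (x i j)) k := by
  unfold lead
  rw [RingHom.map_det]
  congr 1

theorem eval_nested {n : ℕ} (a : Fin n → ℕ) (x : Fin n × Fin n → ℂ) :
    eval x (map (Int.castRingHom ℂ) (nested n a)) = ∏ k, lead (fun i j => x (i, j)) k ^ a k := by
  unfold nested
  rw [map_prod, map_prod]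
  refine Finset.prod_congr rfl fun k _ => ?_
  rw [map_pow, map_pow]
  have h1 := map_lead ((eval x).comp (MvPolynomial.map (Int.castRingHom ℂ)))
    (fun i j : Fin n => (X (i, j) : MvPolynomial (Fin n × Fin n) ℤ)) k
  simp only [RingHom.comp_apply, map_X, eval_X] at h1
  rw [h1]

theorem aeval_nested {R : Type} [CommRing R] {n : ℕ} (a : Fin n → ℕ) (x : Fin n × Fin n → R) :
    aeval x (nested n a) = ∏ k, lead (fun i j => x (i, j)) k ^ a k := by
  unfold nested
  rw [map_prod]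
  refine Finset.prod_congr rfl fun k _ => ?_
  rw [map_pow]
  have h1 := map_lead ((aeval x : MvPolynomial (Fin n × Fin n) ℤ →ₐ[ℤ] R) : _ →+* R)
    (fun i j : Fin n => (X (i, j) : MvPolynomial (Fin n × Fin n) ℤ)) k
  simp only [RingHom.coe_coe, aeval_X] at h1
  rw [h1]

/-- The exponents as a function on `ℕ`; the exponent of the minor of size `m` is at `m`. -/
def ex {n : ℕ} (a : Fin n → ℕ) (m : ℕ) : ℕ := if h : m - 1 < n then a ⟨m - 1, h⟩ else 0

theorem ex_succ {n : ℕ} (a : Fin n → ℕ) (k : Fin n) : ex a ((k : ℕ) + 1) = a k := by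
  unfold ex
  rw [dif_pos (by simpa using k.isLt)]
  congr 1

theorem ex_succ' {n : ℕ} (a : Fin n → ℕ) (k : ℕ) (hk : k < n) : ex a (k + 1) = a ⟨k, hk⟩ :=
  ex_succ a ⟨k, hk⟩

/-- `a 1 + ... + a m`. -/
def AA (a : ℕ → ℕ) (m : ℕ) : ℕ := ∑ i ∈ Finset.range m, a (i + 1)

theorem TT_AA (a : ℕ → ℕ) (σ : ℝ) (m : ℕ) : TT (fun i => (a i : ℝ) * σ) m = (AA a m : ℝ) * σ := by
  unfold TT AA
  push_cast
  rw [Finset.sum_mul]

/-- The reciprocal of the complex integral over the rows. -/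
noncomputable def DJ (a : ℕ → ℕ) (M : ℕ) (s : ℂ) : ℂ :=
  (Complex.Gamma ((M : ℂ) + 1 + (AA a M : ℂ) * s))⁻¹ *
    ∏ m ∈ Finset.range M, ((m : ℂ) + 1 + (AA a (m + 1) : ℂ) * s)

/-- The reciprocal of the complex integral. -/
noncomputable def DI (a : ℕ → ℕ) : ℕ → ℂ → ℂ
  | 0, _ => 1
  | n + 1, s => DJ a (n + 1) s * DI (fun i => a (i + 1)) n s

theorem DJ_diff (a : ℕ → ℕ) (M : ℕ) : Differentiable ℂ (DJ a M) := by
  unfold DJ
  refine Differentiable.mul ?_ ?_
  · exact Complex.differentiable_one_div_Gamma.comp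
      (by fun_prop : Differentiable ℂ fun s : ℂ => (M : ℂ) + 1 + (AA a M : ℂ) * s)
  · fun_prop

theorem DI_diff : ∀ (n : ℕ) (a : ℕ → ℕ), Differentiable ℂ (DI a n)
  | 0, a => by
    have : DI a 0 = fun _ => 1 := by funext s; rfl
    rw [this]
    exact differentiable_const 1
  | n + 1, a => by
    have : DI a (n + 1) = fun s => DJ a (n + 1) s * DI (fun i => a (i + 1)) n s := by funext s; rfl
    rw [this]
    exact (DJ_diff a (n + 1)).mul (DI_diff n _)

theorem DJ_EJ (a : ℕ → ℕ) (σ : ℝ) (hσ : 0 ≤ σ) : ∀ M : ℕ,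
    DJ a M (σ : ℂ) * (EJ (fun i => (a i : ℝ) * σ) M : ℂ) = 1
  | 0 => by simp [DJ, EJ, AA]
  | M + 1 => by
    have ih := DJ_EJ a σ hσ M
    unfold DJ at ih ⊢
    rw [EJ, TT_AA, TT_AA, Finset.prod_range_succ]
    set P := ∏ m ∈ Finset.range M, ((m : ℂ) + 1 + (AA a (m + 1) : ℂ) * (σ : ℂ))
    set E := (EJ (fun i => (a i : ℝ) * σ) M : ℝ)
    have hA : 0 ≤ (AA a M : ℝ) * σ := by positivity
    have hA' : 0 ≤ (AA a (M + 1) : ℝ) * σ := by positivity
    have e1 : Complex.Gamma ((M : ℂ) + 1 + (AA a M : ℂ) * (σ : ℂ)) =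
        (Real.Gamma ((M : ℝ) + 1 + (AA a M : ℝ) * σ) : ℂ) := by
      rw [← Complex.Gamma_ofReal]; push_cast; rfl
    have h0 : (M : ℝ) + 1 + (AA a (M + 1) : ℝ) * σ ≠ 0 := by positivity
    have e2 : Complex.Gamma (((M + 1 : ℕ) : ℂ) + 1 + (AA a (M + 1) : ℂ) * (σ : ℂ)) =
        (((M : ℝ) + 1 + (AA a (M + 1) : ℝ) * σ : ℝ) : ℂ) *
          (Real.Gamma ((M : ℝ) + 1 + (AA a (M + 1) : ℝ) * σ) : ℂ) := by
      rw [← Complex.ofReal_mul, ← Real.Gamma_add_one h0, ← Complex.Gamma_ofReal]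
      congr 1
      push_cast
      ring
    have h1 : (Real.Gamma ((M : ℝ) + 1 + (AA a M : ℝ) * σ) : ℂ) ≠ 0 := by
      exact_mod_cast (Real.Gamma_pos_of_pos (by positivity)).ne'
    have h2 : (Real.Gamma ((M : ℝ) + 1 + (AA a (M + 1) : ℝ) * σ) : ℂ) ≠ 0 := by
      exact_mod_cast (Real.Gamma_pos_of_pos (by positivity)).ne'
    have h3 : (((M : ℝ) + 1 + (AA a (M + 1) : ℝ) * σ : ℝ) : ℂ) ≠ 0 := by exact_mod_cast h0
    rw [e1] at ih
    rw [e2, Complex.ofReal_mul, Complex.ofReal_div]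
    have e3 : (M : ℂ) + 1 + (AA a (M + 1) : ℂ) * (σ : ℂ) =
        (((M : ℝ) + 1 + (AA a (M + 1) : ℝ) * σ : ℝ) : ℂ) := by push_cast; rfl
    rw [e3]
    generalize (Real.Gamma ((M : ℝ) + 1 + (AA a M : ℝ) * σ) : ℂ) = G1 at ih h1 ⊢
    generalize (Real.Gamma ((M : ℝ) + 1 + (AA a (M + 1) : ℝ) * σ) : ℂ) = G2 at h2 ⊢
    generalize (((M : ℝ) + 1 + (AA a (M + 1) : ℝ) * σ : ℝ) : ℂ) = q at h3 ⊢
    have h4 : (P : ℂ) * (E : ℂ) = G1 := by
      field_simp at ih
      exact ih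
    field_simp
    rw [← h4]

theorem DI_EI (σ : ℝ) (hσ : 0 ≤ σ) : ∀ (n : ℕ) (a : ℕ → ℕ),
    DI a n (σ : ℂ) * (EI (fun i => (a i : ℝ) * σ) n : ℂ) = 1
  | 0, a => by simp [DI, EI]
  | n + 1, a => by
    have h1 := DJ_EJ a σ hσ (n + 1)
    have h2 := DI_EI σ hσ n (fun i => a (i + 1))
    rw [DI, EI, Complex.ofReal_mul]
    linear_combination (DI (fun i => a (i + 1)) n σ * (EI (fun i => (a (i + 1) : ℝ) * σ) n : ℂ)) * h1 + h2

theorem DI_zero (s : ℂ) : ∀ (n : ℕ) (a : ℕ → ℕ) (r m : ℕ), r + m + 1 ≤ n →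
    ((m : ℂ) + 1 + ((∑ i ∈ Finset.range (m + 1), a (r + i + 1) : ℕ) : ℂ) * s = 0) → DI a n s = 0
  | 0, a, r, m, h, _ => by omega
  | n + 1, a, 0, m, h, h0 => by
    rw [DI]
    have h1 : DJ a (n + 1) s = 0 := by
      unfold DJ
      rw [Finset.prod_eq_zero (i := m) (Finset.mem_range.2 (by omega)), mul_zero]
      unfold AA
      simpa using h0
    rw [h1, zero_mul]
  | n + 1, a, r + 1, m, h, h0 => by
    rw [DI]
    have h1 := DI_zero s n (fun i => a (i + 1)) r m (by omega) (by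
      have h2 : ∀ i, r + i + 1 + 1 = r + 1 + i + 1 := fun i => by omega
      simpa only [h2] using h0)
    rw [h1, mul_zero]

/-- The Gaussian measure on `ℂ ^ ι`. -/
theorem pi_gm' (ι : Type) [Fintype ι] : (Measure.pi fun _ : ι => gm) =
    (volume : Measure (ι → ℂ)).withDensity
    (fun v => ENNReal.ofReal (Real.pi⁻¹ ^ Fintype.card ι) * ENNReal.ofReal (Real.exp (-Nr v))) := by
  haveI := gm_prob
  haveI : SigmaFinite ((volume : Measure ℂ).withDensity gd) := by
    change SigmaFinite gm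
    infer_instance
  have h1 := Pool.Agent.K1H9.RP.pi_withDensity (ι := ι) (volume : Measure ℂ) gd gd_meas
  change (Measure.pi fun _ : ι => (volume : Measure ℂ).withDensity gd) = _
  rw [h1, ← volume_pi]
  congr 1
  funext v
  unfold gd
  rw [← ENNReal.ofReal_prod_of_nonneg (fun i _ => by positivity), Finset.prod_mul_distrib,
    Finset.prod_const, Finset.card_univ, ← Real.exp_sum, Finset.sum_neg_distrib,
    ENNReal.ofReal_mul (by positivity)]
  rfl

theorem lint_gm' (ι : Type) [Fintype ι] (g : (ι → ℂ) → ℝ≥0∞) (hg : Measurable g) :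
    ∫⁻ v, g v ∂(Measure.pi fun _ : ι => gm) = ENNReal.ofReal (Real.pi⁻¹ ^ Fintype.card ι) *
      ∫⁻ v, g v * ENNReal.ofReal (Real.exp (-Nr v)) := by
  have hm : Measurable fun v : ι → ℂ =>
      ENNReal.ofReal (Real.pi⁻¹ ^ Fintype.card ι) * ENNReal.ofReal (Real.exp (-Nr v)) := by
    have := Nr_meas (ι := ι)
    fun_prop
  have hm2 : Measurable fun v : ι → ℂ => g v * ENNReal.ofReal (Real.exp (-Nr v)) := by
    have := Nr_meas (ι := ι)
    fun_prop
  rw [pi_gm', lintegral_withDensity_eq_lintegral_mul _ hm hg, ← lintegral_const_mul _ hm2]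
  refine lintegral_congr fun v => ?_
  simp only [Pi.mul_apply]
  ring

/-- From the Gaussian integral to the integral over the ball, for a homogeneous polynomial `f` of
degree `d`. -/
theorem gauss_ball {ι : Type} [Fintype ι] [Nonempty ι] (f : MvPolynomial ι ℂ) (d : ℕ)
    (hd : ∀ (c : ℝ) (x : ι → ℂ), eval (c • x) f = (c : ℂ) ^ d * eval x f) (σ : ℝ) (hσ : 0 ≤ σ)
    (E : ℝ) (hE : 0 ≤ E) (hG : ∫⁻ x, ENNReal.ofReal ((‖eval x f‖ ^ 2) ^ σ)
      ∂(Measure.pi fun _ : ι => gm) = ENNReal.ofReal E) (k : ℕ) (hk : 0 < k) :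
    (∫ x : ι → ℂ, (‖eval x f‖ ^ 2) ^ σ * rp x ^ k) *
      Real.Gamma ((Fintype.card ι : ℝ) + d * σ + k + 1) =
      k.factorial * (Real.pi ^ Fintype.card ι * E) := by
  set h : (ι → ℂ) → ℝ≥0∞ := fun x => ENNReal.ofReal ((‖eval x f‖ ^ 2) ^ σ) with hh
  have hcont : Continuous fun x : ι → ℂ => (‖eval x f‖ ^ 2) ^ σ :=
    (((MvPolynomial.continuous_eval f).norm).pow 2).rpow_const fun x => Or.inr hσ
  have hmeas : Measurable h := hcont.measurable.ennreal_ofReal
  have hhom : Homog h (d * σ) := by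
    intro c hc v
    rw [hh]
    simp only
    rw [hd, norm_mul, norm_pow, Complex.norm_real, Real.norm_of_nonneg hc.le, mul_pow,
      Real.mul_rpow (by positivity) (by positivity), ENNReal.ofReal_mul (by positivity)]
    congr 2
    rw [← pow_mul, ← Real.rpow_natCast, ← Real.rpow_mul hc.le]
    congr 1
    push_cast
    ring
  obtain ⟨B, hB, hBf⟩ := poly_bdd f
  have hfin : ∫⁻ v in {v : ι → ℂ | Nr v < 1}, h v ≠ ∞ := by
    have h1 : ∫⁻ v in {v : ι → ℂ | Nr v < 1}, h v ≤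
        ∫⁻ v in {v : ι → ℂ | Nr v < 1}, ENNReal.ofReal (B ^ σ) := by
      refine setLIntegral_mono' (measurableSet_lt Nr_meas measurable_const) fun v hv => ?_
      have hv' : Nr v < 1 := hv
      apply ENNReal.ofReal_le_ofReal
      exact Real.rpow_le_rpow (by positivity) (hBf v hv'.le) hσ
    refine (lt_of_le_of_lt h1 ?_).ne
    rw [lintegral_const, Measure.restrict_apply MeasurableSet.univ, univ_inter]
    exact ENNReal.mul_lt_top ENNReal.ofReal_lt_top (Nr_bdd 1).measure_lt_top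
  have hcard : 0 < Fintype.card ι := Fintype.card_pos
  have ha : 0 < (Fintype.card ι : ℝ) + d * σ := by positivity
  have key := ball_moment h hmeas (d * σ) ha hhom hfin k hk
  have hgau := lint_gm' ι h hmeas
  rw [hG] at hgau
  have e1 : ∫⁻ v, h v * ENNReal.ofReal (Real.exp (-Nr v)) =
      ENNReal.ofReal (Real.pi ^ Fintype.card ι * E) := by
    have h0 : ENNReal.ofReal (Real.pi ^ Fintype.card ι) *
        ENNReal.ofReal (Real.pi⁻¹ ^ Fintype.card ι) = 1 := by
      rw [← ENNReal.ofReal_mul (by positivity), ← mul_pow, mul_inv_cancel₀ Real.pi_ne_zero, one_pow,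
        ENNReal.ofReal_one]
    rw [ENNReal.ofReal_mul (by positivity), hgau, ← mul_assoc, h0, one_mul]
  rw [e1] at key
  have e2 : ∫⁻ v, h v * ENNReal.ofReal ((max 0 (1 - Nr v)) ^ k) =
      ENNReal.ofReal (∫ x : ι → ℂ, (‖eval x f‖ ^ 2) ^ σ * rp x ^ k) := by
    have hi : Integrable fun x : ι → ℂ => (‖eval x f‖ ^ 2) ^ σ * rp x ^ k := by
      have h1 : Integrable fun x : ι → ℂ => (((‖eval x f‖ ^ 2) ^ σ * rp x ^ k : ℝ) : ℂ) := by
        refine int_ev _ ?_ fun x hx => by simp [hx, hk.ne']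
        exact Complex.continuous_ofReal.comp (hcont.mul (rp_cont.pow k))
      exact h1.re.congr (Filter.Eventually.of_forall fun x => Complex.ofReal_re _)
    rw [ofReal_integral_eq_lintegral_ofReal hi (Filter.Eventually.of_forall fun x => by
      have := rp_nonneg x
      positivity)]
    refine lintegral_congr fun x => ?_
    rw [ENNReal.ofReal_mul (by positivity)]
    rfl
  have hI : 0 ≤ ∫ x : ι → ℂ, (‖eval x f‖ ^ 2) ^ σ * rp x ^ k :=
    integral_nonneg fun x => by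
      have := rp_nonneg x
      positivity
  have hG2 : 0 < Real.Gamma ((Fintype.card ι : ℝ) + d * σ + k + 1) :=
    Real.Gamma_pos_of_pos (by positivity)
  rw [e2, ← ENNReal.ofReal_mul hI, ← ENNReal.ofReal_mul (by positivity)] at key
  exact (ENNReal.ofReal_eq_ofReal_iff (by positivity) (by positivity)).1 key

/-- **Roots of the polynomials of functional equations of a homogeneous polynomial from its Gaussian
integral.** -/
theorem root_hom {ι : Type} [Fintype ι] [Nonempty ι] (f : MvPolynomial ι ℂ) (d : ℕ)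
    (hd : ∀ (c : ℝ) (x : ι → ℂ), eval (c • x) f = (c : ℂ) ^ d * eval x f)
    (b : Polynomial ℂ) (hb : Pool.Agent.H628R4.TP.IsBFunction f b)
    (E : ℝ → ℝ) (hE : ∀ σ, 0 < σ → 0 ≤ E σ) (hG : ∀ σ : ℝ, 0 < σ →
      ∫⁻ x, ENNReal.ofReal ((‖eval x f‖ ^ 2) ^ σ) ∂(Measure.pi fun _ : ι => gm) =
        ENNReal.ofReal (E σ)) (D : ℂ → ℂ) (hD : Differentiable ℂ D)
    (hDE : ∀ σ : ℝ, 0 < σ → D σ * (E σ : ℂ) = 1) (s₀ : ℝ) (hs₀ : -1 ≤ s₀) (hD0 : D s₀ = 0) :
    b.eval (s₀ : ℂ) = 0 := by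
  refine root_gen f b hb D hD (fun k s => ((k.factorial * Real.pi ^ Fintype.card ι : ℝ) : ℂ) *
    (Complex.Gamma ((Fintype.card ι : ℂ) + d * s + k + 1))⁻¹) ?_ ?_ s₀ hs₀ hD0 ?_
  · intro k
    refine (differentiable_const _).mul ?_
    exact Complex.differentiable_one_div_Gamma.comp
      (by fun_prop : Differentiable ℂ fun s : ℂ => (Fintype.card ι : ℂ) + d * s + k + 1)
  · intro k hk s hs
    have h1 := gauss_ball f d hd s hs.le (E s) (hE s hs) (hG s hs) k hk
    have hG2 : (Real.Gamma ((Fintype.card ι : ℝ) + d * s + k + 1) : ℂ) ≠ 0 := by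
      exact_mod_cast (Real.Gamma_pos_of_pos (by positivity)).ne'
    have h2 := congrArg (fun x : ℝ => (x : ℂ)) h1
    simp only [Complex.ofReal_mul] at h2
    have h3 : Complex.Gamma ((Fintype.card ι : ℂ) + d * (s : ℂ) + k + 1) =
        (Real.Gamma ((Fintype.card ι : ℝ) + d * s + k + 1) : ℂ) := by
      rw [← Complex.Gamma_ofReal]; push_cast; rfl
    have h4 := hDE s hs
    rw [h3, Complex.ofReal_mul]
    field_simp
    rw [mul_right_comm, h2]
    linear_combination ((k.factorial : ℝ) : ℂ) * ((Real.pi ^ Fintype.card ι : ℝ) : ℂ) * h4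
  · refine ⟨d, fun k hk => ?_⟩
    have hk' : (d : ℝ) ≤ k := by exact_mod_cast hk
    apply mul_ne_zero
    · exact_mod_cast (by positivity : (0 : ℝ) < k.factorial * Real.pi ^ Fintype.card ι).ne'
    · apply inv_ne_zero
      have h3 : Complex.Gamma ((Fintype.card ι : ℂ) + d * (s₀ : ℂ) + k + 1) =
          (Real.Gamma ((Fintype.card ι : ℝ) + d * s₀ + k + 1) : ℂ) := by
        rw [← Complex.Gamma_ofReal]; push_cast; rfl
      rw [h3]
      have h5 : 0 < (Fintype.card ι : ℝ) + d * s₀ + k + 1 := by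
        have h6 : (d : ℝ) * s₀ ≥ -d := by
          have : (0 : ℝ) ≤ d := Nat.cast_nonneg d
          nlinarith
        have : (0 : ℝ) ≤ Fintype.card ι := Nat.cast_nonneg _
        linarith
      exact_mod_cast (Real.Gamma_pos_of_pos h5).ne'

end Pool.Agent.K6.H33.NM
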